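import Pool.Agent.CP51.Defs

/-!
# The balance lemma (section 3 (b) of the page)
-/

namespace Pool.Agent.CP51

variable {D : Type}

section

variable {G : Cub D} {l : ℕ}

private lemma sq_rot_Chain (C : G.H l) (i : ℤ) : C.rot.sq i = C.sq (i + 1) := by
  simp only [Cub.H.sq, Cub.H.rot]
  push_cast
  rfl

private lemma sq_rev_Chain (C : G.H l) (i : ℤ) : C.rev.sq i = G.τ (C.sq (-i)) := by
  simp only [Cub.H.sq, Cub.H.rev]
  push_cast
  rfl

private lemma fol_Chain (C : G.H l) (i : ℤ) : G.Fol (C.sq i) (C.sq (i + 1)) := by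
  have h := C.fol (i : ZMod (C.n.1 + 1))
  simp only [Cub.H.sq]
  push_cast
  exact h

private lemma rot_bij_Chain [Fintype D] : Function.Bijective (Cub.H.rot : G.H l → G.H l) := by
  apply Finite.injective_iff_bijective.1
  rintro ⟨n, c, h⟩ ⟨n', c', h'⟩ e
  simp only [Cub.H.rot, Cub.H.mk.injEq] at e
  obtain ⟨rfl, e⟩ := e
  have e1 := eq_of_heq e
  have e2 : c = c' := by
    funext i
    have := congrFun e1 (i - 1)
    simpa using this
  subst e2
  rfl

private lemma rev_rev_Chain (C : G.H l) : C.rev.rev = C := by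
  rcases C with ⟨n, c, h⟩
  simp only [Cub.H.rev, Cub.H.mk.injEq, heq_eq_eq, true_and]
  funext i
  change G.τ (G.τ (c (-(-i)))) = c i
  rw [neg_neg, G.ττ]

private lemma rev_bij_Chain : Function.Bijective (Cub.H.rev : G.H l → G.H l) :=
  Function.Involutive.bijective rev_rev_Chain

variable [Fintype D]

/-- Sums of `s` over an event, rotated. -/
private lemma sum_rot_Chain {s : G.H l → ℝ} (hi : Cub.Inv s) (p : G.H l → Prop)
    [DecidablePred p] :
    (∑ C : G.H l, if p C.rot then s C else 0) = ∑ C : G.H l, if p C then s C else 0 := by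
  have h := (rot_bij_Chain (G := G) (l := l)).sum_comp (fun C => if p C then s C else 0)
  rw [← h]
  refine Finset.sum_congr rfl fun C _ => ?_
  simp only [hi.1 C]

private lemma sum_rev_Chain {s : G.H l → ℝ} (hi : Cub.Inv s) (p : G.H l → Prop)
    [DecidablePred p] :
    (∑ C : G.H l, if p C.rev then s C else 0) = ∑ C : G.H l, if p C then s C else 0 := by
  have h := (rev_bij_Chain (G := G) (l := l)).sum_comp (fun C => if p C then s C else 0)
  rw [← h]
  refine Finset.sum_congr rfl fun C _ => ?_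
  simp only [hi.2 C]

open Classical in
/-- Reversal. -/
private lemma y2_rev_Chain {s : G.H l → ℝ} (hi : Cub.Inv s) (e f : D) :
    Cub.y2 s e f = Cub.y2 s (G.τ f) (G.τ e) := by
  have inj : ∀ a b : D, G.τ a = G.τ b ↔ a = b := fun a b => by
    constructor
    · intro h
      have := congrArg G.τ h
      rwa [G.ττ, G.ττ] at this
    · rintro rfl; rfl
  simp only [Cub.y2]
  rw [← sum_rev_Chain hi (fun C => C.sq 0 = G.τ f ∧ C.sq 1 = G.τ e)]
  rw [← sum_rot_Chain hi (fun C => C.rev.sq 0 = G.τ f ∧ C.rev.sq 1 = G.τ e)]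
  refine Finset.sum_congr rfl fun C _ => ?_
  simp only [sq_rev_Chain, sq_rot_Chain, inj, neg_zero, zero_add, neg_add_cancel]
  simp only [and_comm]

open Classical in
private lemma y1_tau_Chain {s : G.H l → ℝ} (hi : Cub.Inv s) (e : D) :
    Cub.y1 s (G.τ e) = Cub.y1 s e := by
  simp only [Cub.y1]
  rw [← sum_rev_Chain hi (fun C => C.sq 0 = e)]
  refine Finset.sum_congr rfl fun C _ => ?_
  have h : (C.sq 0 = G.τ e) ↔ (C.rev.sq 0 = e) := by
    rw [sq_rev_Chain, neg_zero]
    constructor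
    · intro h; rw [h, G.ττ]
    · intro h; rw [← h, G.ττ]
  simp only [h]

private lemma y2_nonneg_Chain {s : G.H l → ℝ} (hs : ∀ C, 0 ≤ s C) (e f : D) :
    0 ≤ Cub.y2 s e f := by
  simp only [Cub.y2]
  refine Finset.sum_nonneg fun C _ => ?_
  split_ifs
  · exact hs C
  · exact le_rfl

private lemma y2_le_Chain {s : G.H l → ℝ} (hs : ∀ C, 0 ≤ s C) (e f : D) :
    Cub.y2 s e f ≤ Cub.y1 s e := by
  simp only [Cub.y2, Cub.y1]
  refine Finset.sum_le_sum fun C _ => ?_
  by_cases h : C.sq 0 = e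
  · by_cases h' : C.sq 1 = f
    · simp [h, h']
    · simp [h, h', hs C]
  · simp [h]

private lemma xx_eq_Chain {s : G.H l → ℝ} (hi : Cub.Inv s) (d : D) :
    Cub.xx s d = 2 * Cub.y2 s (G.τ (G.σ d)) (G.σ (G.σ d)) := by
  classical
  have h1 : Cub.xx s d = Cub.y2 s (G.τ (G.σ d)) (G.σ (G.σ d)) +
      Cub.y2 s (G.τ (G.σ (G.σ d))) (G.σ d) := by
    simp only [Cub.xx, Cub.y2]
    rw [← Finset.sum_add_distrib]
    refine Finset.sum_congr rfl fun C _ => ?_
    have hf := fol_Chain C 0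
    rw [zero_add] at hf
    have e1 : G.σ d ≠ d := G.σne d
    have e2 : G.σ (G.σ d) ≠ G.σ d := G.σne _
    have e3 : G.σ (G.σ d) ≠ d := by
      intro h
      have := congrArg G.σ h
      rw [G.σσσ] at this
      exact e1 this.symm
    have τinj : ∀ a b : D, G.τ a = G.τ b → a = b := fun a b h => by
      have := congrArg G.τ h
      rwa [G.ττ, G.ττ] at this
    have key : (C.tt 0 = d) ↔ (C.sq 0 = G.τ (G.σ d) ∧ C.sq 1 = G.σ (G.σ d)) ∨
        (C.sq 0 = G.τ (G.σ (G.σ d)) ∧ C.sq 1 = G.σ d) := by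
      simp only [Cub.H.tt, zero_add, Cub.th]
      rcases hf with hf | hf
      · rw [if_pos hf]
        constructor
        · intro h
          left
          have h2 : G.σ d = G.τ (C.sq 0) := by rw [← h, G.σσσ]
          constructor
          · rw [h2, G.ττ]
          · rw [hf, h2]
        · rintro (⟨h, h'⟩ | ⟨h, h'⟩)
          · rw [h, G.ττ, G.σσσ]
          · rw [h, G.ττ, G.σσσ] at hf
            exact absurd (h'.symm.trans hf) e1
      · have hne : C.sq 1 ≠ G.σ (G.τ (C.sq 0)) := by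
          rw [hf]; exact G.σne _
        rw [if_neg hne]
        constructor
        · intro h
          right
          have h2 : G.σ (G.σ d) = G.τ (C.sq 0) := by rw [← h, G.σσσ]
          constructor
          · rw [h2, G.ττ]
          · rw [hf, h]
        · rintro (⟨h, h'⟩ | ⟨h, h'⟩)
          · rw [h, G.ττ, G.σσσ] at hf
            exact absurd (h'.symm.trans hf) e3
          · rw [h, G.ττ, G.σσσ]
    have hex : ¬ ((C.sq 0 = G.τ (G.σ d) ∧ C.sq 1 = G.σ (G.σ d)) ∧
        (C.sq 0 = G.τ (G.σ (G.σ d)) ∧ C.sq 1 = G.σ d)) := by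
      rintro ⟨⟨-, h⟩, ⟨-, h'⟩⟩
      exact e2 (h.symm.trans h')
    by_cases hA : C.sq 0 = G.τ (G.σ d) ∧ C.sq 1 = G.σ (G.σ d)
    · have hB : ¬ (C.sq 0 = G.τ (G.σ (G.σ d)) ∧ C.sq 1 = G.σ d) := fun h => hex ⟨hA, h⟩
      rw [if_pos (key.2 (Or.inl hA)), if_pos hA, if_neg hB, add_zero]
    · by_cases hB : C.sq 0 = G.τ (G.σ (G.σ d)) ∧ C.sq 1 = G.σ d
      · rw [if_pos (key.2 (Or.inr hB)), if_neg hA, if_pos hB, zero_add]
      · rw [if_neg (fun h => (key.1 h).elim hA hB), if_neg hA, if_neg hB, add_zero]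
  rw [h1, y2_rev_Chain hi (G.τ (G.σ (G.σ d))) (G.σ d), G.ττ]
  ring

/-- A fair dart gives a quarter of its weight to the opposite pair. -/
private lemma q_ge_Chain {s : G.H l → ℝ} (hi : Cub.Inv s) {e d : D} (he : Cub.Fair s e)
    (hf : G.Fol e d) : Cub.y1 s e / 4 ≤ Cub.y2 s (G.τ (G.σ d)) (G.σ (G.σ d)) := by
  rcases hf with rfl | rfl
  · rw [y2_rev_Chain hi, G.ττ, G.σσσ, G.ττ]
    exact he.2
  · rw [G.σσσ, G.ττ]
    exact he.1

private lemma y1_ge_Chain {s : G.H l → ℝ} (hs : ∀ C, 0 ≤ s C) (hi : Cub.Inv s) {e d : D}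
    (he : Cub.Fair s e) (hf : G.Fol e d) : Cub.y1 s e / 4 ≤ Cub.y1 s d := by
  have h1 : Cub.y1 s e / 4 ≤ Cub.y2 s e d := by
    rcases hf with rfl | rfl
    · exact he.1
    · exact he.2
  have h2 : Cub.y2 s e d ≤ Cub.y1 s d := by
    rw [y2_rev_Chain hi, ← y1_tau_Chain hi d]
    exact y2_le_Chain hs _ _
  exact h1.trans h2

private lemma y1_nonneg_Chain {s : G.H l → ℝ} (hs : ∀ C, 0 ≤ s C) (e : D) :
    0 ≤ Cub.y1 s e := (y2_nonneg_Chain hs e e).trans (y2_le_Chain hs e e)

private lemma three_Chain {s : G.H l → ℝ} (hs : ∀ C, 0 ≤ s C) (hi : Cub.Inv s) {e d f : D}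
    (he : Cub.Fair s e) (hed : G.Fol e d) (hd : Cub.Fair s d) (hdf : G.Fol d f)
    (hf : Cub.Fair s (G.τ f)) :
    Cub.y1 s e ^ 2 / 64 ≤ Cub.xx s d * Cub.xx s (G.τ d) := by
  have h1 := q_ge_Chain hi he hed
  have h2 := y1_ge_Chain hs hi he hed
  have h3 := y1_ge_Chain hs hi hd hdf
  have h4 := q_ge_Chain hi hf hdf.rev
  rw [y1_tau_Chain hi] at h4
  have h0 := y1_nonneg_Chain hs e
  rw [xx_eq_Chain hi, xx_eq_Chain hi]
  generalize Cub.y2 s (G.τ (G.σ d)) (G.σ (G.σ d)) = p at *
  generalize Cub.y2 s (G.τ (G.σ (G.τ d))) (G.σ (G.σ (G.τ d))) = r at *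
  have h5 : Cub.y1 s e / 2 ≤ 2 * p := by linarith
  have h6 : Cub.y1 s e / 32 ≤ 2 * r := by linarith
  have h7 := mul_le_mul h5 h6 (by linarith) (by linarith)
  calc Cub.y1 s e ^ 2 / 64 = Cub.y1 s e / 2 * (Cub.y1 s e / 32) := by ring
    _ ≤ _ := h7

end

/-- If unfair darts have weight at most one sixth, then third darts are well paired. -/
theorem chain (G : Cub D) [Fintype D] {l : ℕ} (s : G.H l → ℝ) (hs : ∀ C, 0 ≤ s C)
    (hi : Cub.Inv s)
    (hU : (open Classical in ∑ C : G.H l, if Cub.Fair s (C.sq 0) then 0 else s C) ≤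
      (∑ C, s C) / 6) :
    (∑ C, s C) ^ 2 / (512 * Fintype.card D) ≤ ∑ d : D, Cub.xx s d * Cub.xx s (G.τ d) := by
  classical
  set S := ∑ C, s C with hS
  have hS0 : 0 ≤ S := Finset.sum_nonneg fun C _ => hs C
  set z : D → ℝ := fun d => Cub.xx s d * Cub.xx s (G.τ d) with hz
  have hx0 : ∀ d, 0 ≤ Cub.xx s d := fun d => by
    rw [xx_eq_Chain hi]
    have := y2_nonneg_Chain hs (G.τ (G.σ d)) (G.σ (G.σ d))
    linarith
  have hz0 : ∀ d, 0 ≤ z d := fun d => mul_nonneg (hx0 _) (hx0 _)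
  set Eg : D → Prop := fun e => ∃ d f, Cub.Fair s e ∧ G.Fol e d ∧ Cub.Fair s d ∧
    G.Fol d f ∧ Cub.Fair s (G.τ f) with hEg
  set a : D → ℝ := fun e => if Eg e then Cub.y1 s e else 0 with ha
  have ha2 : ∀ e, a e ^ 2 / 64 ≤ z (G.σ (G.τ e)) + z (G.σ (G.σ (G.τ e))) := by
    intro e
    by_cases h : Eg e
    · obtain ⟨d, f, h1, h2, h3, h4, h5⟩ := h
      have h6 := three_Chain hs hi h1 h2 h3 h4 h5
      have h7 : a e = Cub.y1 s e := by
        simp only [ha]
        exact if_pos ⟨d, f, h1, h2, h3, h4, h5⟩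
      rw [h7]
      have h8 : z d ≤ z (G.σ (G.τ e)) + z (G.σ (G.σ (G.τ e))) := by
        rcases h2 with rfl | rfl
        · linarith [hz0 (G.σ (G.σ (G.τ e)))]
        · linarith [hz0 (G.σ (G.τ e))]
      exact h6.trans h8
    · have h7 : a e = 0 := by
        simp only [ha]
        exact if_neg h
      rw [h7]
      have h8 := hz0 (G.σ (G.τ e))
      have h9 := hz0 (G.σ (G.σ (G.τ e)))
      norm_num
      linarith
  -- the two sums
  have hσ : Function.Bijective G.σ :=
    Function.bijective_iff_has_inverse.2 ⟨fun d => G.σ (G.σ d), G.σσσ, G.σσσ⟩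
  have hτ : Function.Bijective G.τ := Function.Involutive.bijective G.ττ
  have hsum1 : ∑ e, z (G.σ (G.τ e)) = ∑ d, z d := (hσ.comp hτ).sum_comp z
  have hsum2 : ∑ e, z (G.σ (G.σ (G.τ e))) = ∑ d, z d := (hσ.comp (hσ.comp hτ)).sum_comp z
  have h2Z : (∑ e, a e ^ 2) / 64 ≤ 2 * ∑ d, z d := by
    rw [Finset.sum_div]
    calc ∑ e, a e ^ 2 / 64 ≤ ∑ e, (z (G.σ (G.τ e)) + z (G.σ (G.σ (G.τ e)))) :=
          Finset.sum_le_sum fun e _ => ha2 e
      _ = 2 * ∑ d, z d := by rw [Finset.sum_add_distrib, hsum1, hsum2]; ring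
  -- the weight of good walks
  have hF0 : (∑ C : G.H l, if ¬ Cub.Fair s (C.sq 0) then s C else 0) ≤ S / 6 := by
    refine le_trans (le_of_eq ?_) hU
    refine Finset.sum_congr rfl fun C _ => ?_
    by_cases h : Cub.Fair s (C.sq 0)
    · rw [if_neg (not_not.2 h), if_pos h]
    · rw [if_pos h, if_neg h]
  have hF1 : (∑ C : G.H l, if ¬ Cub.Fair s (C.sq 1) then s C else 0) ≤ S / 6 := by
    refine le_trans (le_of_eq ?_) hF0
    rw [← sum_rot_Chain hi (fun C => ¬ Cub.Fair s (C.sq 0))]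
    refine Finset.sum_congr rfl fun C _ => ?_
    rw [sq_rot_Chain, zero_add]
  have hF2 : (∑ C : G.H l, if ¬ Cub.Fair s (G.τ (C.sq 2)) then s C else 0) ≤ S / 6 := by
    refine le_trans (le_of_eq ?_) hF0
    rw [← sum_rev_Chain hi (fun C => ¬ Cub.Fair s (C.sq 0)),
      ← sum_rot_Chain hi (fun C => ¬ Cub.Fair s (C.rev.sq 0)),
      ← sum_rot_Chain hi (fun C => ¬ Cub.Fair s (C.rot.rev.sq 0))]
    refine Finset.sum_congr rfl fun C _ => ?_
    rw [sq_rev_Chain, sq_rot_Chain, sq_rot_Chain, neg_zero, zero_add]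
    norm_num
  have hgood : S / 2 ≤ ∑ e, a e := by
    have h1 : ∑ e, a e = ∑ C : G.H l, if Eg (C.sq 0) then s C else 0 := by
      have h2 : ∀ e, a e = ∑ C : G.H l, if C.sq 0 = e then (if Eg e then s C else 0) else 0 := by
        intro e
        simp only [ha, Cub.y1]
        by_cases h : Eg e
        · simp only [if_pos h]
        · simp only [if_neg h, ite_self, Finset.sum_const_zero]
      simp only [h2]
      rw [Finset.sum_comm]
      refine Finset.sum_congr rfl fun C _ => ?_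
      rw [Finset.sum_ite_eq Finset.univ (C.sq 0)]
      simp
    have h3 : S ≤ (∑ C : G.H l, if Eg (C.sq 0) then s C else 0) +
        ((∑ C : G.H l, if ¬ Cub.Fair s (C.sq 0) then s C else 0) +
        ((∑ C : G.H l, if ¬ Cub.Fair s (C.sq 1) then s C else 0) +
        ∑ C : G.H l, if ¬ Cub.Fair s (G.τ (C.sq 2)) then s C else 0)) := by
      rw [← Finset.sum_add_distrib, ← Finset.sum_add_distrib, ← Finset.sum_add_distrib, hS]
      refine Finset.sum_le_sum fun C _ => ?_
      have hC := hs C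
      have nn : ∀ (p : Prop) [Decidable p], 0 ≤ (if p then s C else 0) := by
        intro p _
        split_ifs
        · exact hC
        · exact le_rfl
      by_cases h0 : Cub.Fair s (C.sq 0)
      · by_cases h1 : Cub.Fair s (C.sq 1)
        · by_cases h2 : Cub.Fair s (G.τ (C.sq 2))
          · have hg : Eg (C.sq 0) := by
              refine ⟨C.sq 1, C.sq 2, h0, ?_, h1, ?_, h2⟩
              · have := fol_Chain C 0
                rwa [zero_add] at this
              · have := fol_Chain C 1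
                rwa [one_add_one_eq_two] at this
            rw [if_pos hg]
            have := nn (¬ Cub.Fair s (C.sq 0))
            have := nn (¬ Cub.Fair s (C.sq 1))
            have := nn (¬ Cub.Fair s (G.τ (C.sq 2)))
            linarith
          · rw [if_pos h2]
            have := nn (¬ Cub.Fair s (C.sq 0))
            have := nn (¬ Cub.Fair s (C.sq 1))
            have := nn (Eg (C.sq 0))
            linarith
        · rw [if_pos h1]
          have := nn (¬ Cub.Fair s (C.sq 0))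
          have := nn (¬ Cub.Fair s (G.τ (C.sq 2)))
          have := nn (Eg (C.sq 0))
          linarith
      · rw [if_pos h0]
        have := nn (¬ Cub.Fair s (C.sq 1))
        have := nn (¬ Cub.Fair s (G.τ (C.sq 2)))
        have := nn (Eg (C.sq 0))
        linarith
    rw [h1]
    linarith
  have hCS : (∑ e, a e) ^ 2 ≤ Fintype.card D * ∑ e, a e ^ 2 := by
    have := sq_sum_le_card_mul_sum_sq (s := (Finset.univ : Finset D)) (f := a)
    simpa using this
  have hsq : (S / 2) ^ 2 ≤ (∑ e, a e) ^ 2 := pow_le_pow_left₀ (by linarith) hgood 2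
  rcases Nat.eq_zero_or_pos (Fintype.card D) with h0 | hpos
  · rw [h0]
    simp only [Nat.cast_zero, mul_zero, div_zero]
    exact Finset.sum_nonneg fun d _ => hz0 d
  · have hc : (0 : ℝ) < Fintype.card D := by exact_mod_cast hpos
    rw [div_le_iff₀ (by positivity)]
    have h1 : (S / 2) ^ 2 ≤ Fintype.card D * (128 * ∑ d, z d) := by
      refine (hsq.trans hCS).trans (mul_le_mul_of_nonneg_left ?_ hc.le)
      linarith
    calc S ^ 2 = 4 * (S / 2) ^ 2 := by ring
      _ ≤ 4 * (Fintype.card D * (128 * ∑ d, z d)) := by linarith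
      _ = (∑ d, z d) * (512 * Fintype.card D) := by ring

end Pool.Agent.CP51
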