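import Pool.Agent.CP51.Defs

/-!
# The number of contacts of two independent walks (section 4 of the page, second half)
-/

namespace Pool.Agent.CP51

variable {D : Type}

namespace ContactAux

variable {G : Cub D} {l : ℕ}

lemma rot_sq (C : G.H l) (i : ℤ) : C.rot.sq i = C.sq (i + 1) := by
  show C.c ((i : ZMod (C.n.1 + 1)) + 1) = C.c (((i + 1 : ℤ) : ZMod (C.n.1 + 1)))
  push_cast
  rfl

lemma rot_tt (C : G.H l) (i : ℤ) : C.rot.tt i = C.tt (i + 1) := by
  unfold Cub.H.tt
  rw [rot_sq, rot_sq]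

lemma rot_On (C : G.H l) (d : D) : C.rot.On d ↔ C.On d := by
  constructor
  · rintro ⟨i, hi⟩
    exact ⟨i + 1, by rwa [rot_sq] at hi⟩
  · rintro ⟨i, hi⟩
    refine ⟨i - 1, ?_⟩
    rw [rot_sq, sub_add_cancel]
    exact hi

lemma rot_inj : Function.Injective (fun C : G.H l => C.rot) := by
  rintro ⟨n, c, h⟩ ⟨n', c', h'⟩ e
  simp only [Cub.H.rot, Cub.H.mk.injEq] at e
  obtain ⟨rfl, e⟩ := e
  have e2 := eq_of_heq e
  have : c = c' := by
    funext i
    have := congrFun e2 (i - 1)
    simpa using this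
  subst this
  rfl

lemma rot_bij [Fintype D] : Function.Bijective (fun C : G.H l => C.rot) :=
  rot_inj.bijective_of_finite

lemma rot_Dj_left (A B : G.H l) : A.rot.Dj B ↔ A.Dj B := by
  unfold Cub.H.Dj
  simp only [rot_On]

lemma rot_Dj_right (A B : G.H l) : A.Dj B.rot ↔ A.Dj B := by
  unfold Cub.H.Dj
  simp only [rot_On]

open Classical in
/-- The weight of disjoint pairs in contact at times `i`, `j`. -/
noncomputable def P [Fintype D] (s : G.H l → ℝ) (i j : ℤ) : ℝ :=
  ∑ A : G.H l, ∑ B : G.H l,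
    s A * s B * (if A.Dj B ∧ A.tt i = G.τ (B.tt j) then (1 : ℝ) else 0)

lemma P_left [Fintype D] (s : G.H l → ℝ) (hrot : ∀ C, s C.rot = s C) (i j : ℤ) :
    P s (i + 1) j = P s i j := by
  classical
  unfold P
  rw [← rot_bij.sum_comp (fun A : G.H l => ∑ B : G.H l,
    s A * s B * (if A.Dj B ∧ A.tt i = G.τ (B.tt j) then (1 : ℝ) else 0))]
  refine Finset.sum_congr rfl fun A _ => Finset.sum_congr rfl fun B _ => ?_
  simp only [hrot, rot_Dj_left, rot_tt]

lemma P_right [Fintype D] (s : G.H l → ℝ) (hrot : ∀ C, s C.rot = s C) (i j : ℤ) :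
    P s i (j + 1) = P s i j := by
  classical
  unfold P
  refine Finset.sum_congr rfl fun A _ => ?_
  rw [← rot_bij.sum_comp (fun B : G.H l =>
    s A * s B * (if A.Dj B ∧ A.tt i = G.τ (B.tt j) then (1 : ℝ) else 0))]
  refine Finset.sum_congr rfl fun B _ => ?_
  simp only [hrot, rot_Dj_right, rot_tt]

lemma P_const [Fintype D] (s : G.H l → ℝ) (hrot : ∀ C, s C.rot = s C) (i j : ℕ) :
    P s (i : ℤ) (j : ℤ) = P s 0 0 := by
  have h1 : ∀ (i : ℕ) (j : ℤ), P s (i : ℤ) j = P s 0 j := by
    intro i j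
    induction i with
    | zero => simp
    | succ n ih =>
      push_cast
      rw [P_left s hrot, ih]
  have h2 : ∀ (j : ℕ) (i : ℤ), P s i (j : ℤ) = P s i 0 := by
    intro j i
    induction j with
    | zero => simp
    | succ n ih =>
      push_cast
      rw [P_right s hrot, ih]
  rw [h1, h2]

lemma swap2 {α : Type} [Fintype α] (r : Finset ℕ) (f : ℕ → α → α → ℝ) :
    (∑ i ∈ r, ∑ A : α, ∑ B : α, f i A B) = ∑ A : α, ∑ B : α, ∑ i ∈ r, f i A B := by
  rw [Finset.sum_comm]
  refine Finset.sum_congr rfl fun A _ => ?_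
  rw [Finset.sum_comm]

lemma swap4 {α : Type} [Fintype α] (r : Finset ℕ) (f : ℕ → ℕ → α → α → ℝ) :
    (∑ i ∈ r, ∑ j ∈ r, ∑ A : α, ∑ B : α, f i j A B) =
      ∑ A : α, ∑ B : α, ∑ i ∈ r, ∑ j ∈ r, f i j A B := by
  simp only [swap2]

open Classical in
lemma ch_ge {g : ℕ} (hG : G.Girth g) (A B : G.H l) :
    (∑ i ∈ Finset.range g, ∑ j ∈ Finset.range g,
      (if A.tt (i : ℕ) = G.τ (B.tt (j : ℕ)) then (1 : ℝ) else 0)) ≤ (A.ch B : ℝ) := by
  have hA : g ≤ A.len := hG l A
  have hB : g ≤ B.len := hG l B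
  unfold Cub.H.ch
  rw [Finset.card_filter, ← Finset.sum_product']
  push_cast
  refine Finset.sum_le_sum_of_subset_of_nonneg ?_ ?_
  · exact Finset.product_subset_product (Finset.range_mono hA) (Finset.range_mono hB)
  · intro p _ _
    split_ifs <;> norm_num

end ContactAux

open ContactAux

/-- Rotation of both walks. -/
theorem contact (G : Cub D) [Fintype D] {g l : ℕ} (hG : G.Girth g) (s : G.H l → ℝ)
    (hs : ∀ C, 0 ≤ s C) (hrot : ∀ C, s C.rot = s C) (ρ : ℝ) (K : ℕ)
    (hρ : ∀ C, s C ≤ ρ * ∑ B, s B)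
    (hK : ∀ A : G.H l, (open Classical in
      (Finset.univ.filter fun B : G.H l => B.tt 0 = G.τ (A.tt 0) ∧ ¬ A.Dj B).card) ≤ K) :
    (g : ℝ) ^ 2 * ((∑ d : D, Cub.xx s d * Cub.xx s (G.τ d)) - ρ * K * (∑ C, s C) ^ 2) ≤
      (open Classical in
        ∑ A : G.H l, ∑ B : G.H l, s A * s B * (if A.Dj B then (A.ch B : ℝ) else 0)) := by
  classical
  set S : ℝ := ∑ C, s C with hS
  -- the sum over darts as a sum over pairs
  have h1 : (∑ d : D, Cub.xx s d * Cub.xx s (G.τ d)) =
      ∑ A : G.H l, ∑ B : G.H l,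
        s A * s B * (if B.tt 0 = G.τ (A.tt 0) then (1 : ℝ) else 0) := by
    unfold Cub.xx
    calc (∑ d : D, (∑ C : G.H l, if C.tt 0 = d then s C else 0) *
          (∑ C : G.H l, if C.tt 0 = G.τ d then s C else 0))
        = ∑ d : D, ∑ A : G.H l, ∑ B : G.H l,
            (if A.tt 0 = d then s A else 0) * (if B.tt 0 = G.τ d then s B else 0) := by
          refine Finset.sum_congr rfl fun d _ => ?_
          rw [Finset.sum_mul_sum]
      _ = ∑ A : G.H l, ∑ B : G.H l, ∑ d : D,
            (if A.tt 0 = d then s A else 0) * (if B.tt 0 = G.τ d then s B else 0) := by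
          rw [Finset.sum_comm]
          refine Finset.sum_congr rfl fun A _ => ?_
          rw [Finset.sum_comm]
      _ = _ := by
          refine Finset.sum_congr rfl fun A _ => Finset.sum_congr rfl fun B _ => ?_
          rw [Finset.sum_eq_single (A.tt 0)]
          · by_cases h : B.tt 0 = G.τ (A.tt 0) <;> simp [h]
          · intro d _ hd
            rw [if_neg (fun h => hd h.symm), zero_mul]
          · intro h
            exact absurd (Finset.mem_univ _) h
  -- splitting
  have h2 : (∑ A : G.H l, ∑ B : G.H l,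
        s A * s B * (if B.tt 0 = G.τ (A.tt 0) then (1 : ℝ) else 0)) ≤
      P s 0 0 + ρ * K * S ^ 2 := by
    have hb : ∀ A : G.H l, (∑ B : G.H l,
        s A * s B * (if B.tt 0 = G.τ (A.tt 0) then (1 : ℝ) else 0)) ≤
        (∑ B : G.H l, s A * s B * (if A.Dj B ∧ A.tt 0 = G.τ (B.tt 0) then (1 : ℝ) else 0)) +
          s A * (K * (ρ * S)) := by
      intro A
      have hρS : 0 ≤ ρ * S := (hs A).trans (hρ A)
      have hsplit : ∀ B : G.H l,
          s A * s B * (if B.tt 0 = G.τ (A.tt 0) then (1 : ℝ) else 0) =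
          s A * s B * (if A.Dj B ∧ A.tt 0 = G.τ (B.tt 0) then (1 : ℝ) else 0) +
          s A * (if B.tt 0 = G.τ (A.tt 0) ∧ ¬ A.Dj B then s B else 0) := by
        intro B
        have hiff : A.tt 0 = G.τ (B.tt 0) ↔ B.tt 0 = G.τ (A.tt 0) := by
          constructor
          · intro h
            rw [h, G.ττ]
          · intro h
            rw [h, G.ττ]
        by_cases h : B.tt 0 = G.τ (A.tt 0)
        · by_cases h' : A.Dj B
          · have h3 : A.tt 0 = G.τ (B.tt 0) := hiff.2 h
            rw [if_pos h, if_pos ⟨h', h3⟩, if_neg (fun q => q.2 h')]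
            ring
          · rw [if_pos h, if_neg (fun q => h' q.1), if_pos ⟨h, h'⟩]
            ring
        · rw [if_neg h, if_neg (fun q => h (hiff.1 q.2)), if_neg (fun q => h q.1)]
          ring
      simp only [hsplit]
      rw [Finset.sum_add_distrib]
      refine add_le_add le_rfl ?_
      rw [← Finset.mul_sum]
      refine mul_le_mul_of_nonneg_left ?_ (hs A)
      rw [← Finset.sum_filter]
      calc (∑ B ∈ Finset.univ.filter (fun B : G.H l => B.tt 0 = G.τ (A.tt 0) ∧ ¬ A.Dj B), s B)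
          ≤ ∑ B ∈ Finset.univ.filter
              (fun B : G.H l => B.tt 0 = G.τ (A.tt 0) ∧ ¬ A.Dj B), ρ * S :=
            Finset.sum_le_sum fun B _ => hρ B
        _ = ((Finset.univ.filter
              (fun B : G.H l => B.tt 0 = G.τ (A.tt 0) ∧ ¬ A.Dj B)).card : ℝ) * (ρ * S) := by
            rw [Finset.sum_const, nsmul_eq_mul]
        _ ≤ K * (ρ * S) := by
            refine mul_le_mul_of_nonneg_right ?_ hρS
            exact_mod_cast hK A
    calc _ ≤ ∑ A : G.H l, ((∑ B : G.H l,
          s A * s B * (if A.Dj B ∧ A.tt 0 = G.τ (B.tt 0) then (1 : ℝ) else 0)) +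
            s A * (K * (ρ * S))) := Finset.sum_le_sum fun A _ => hb A
      _ = P s 0 0 + ρ * K * S ^ 2 := by
          rw [Finset.sum_add_distrib, ← Finset.sum_mul, ← hS]
          unfold P
          ring
  -- the lower bound for the right hand side
  have h3 : (g : ℝ) ^ 2 * P s 0 0 ≤
      ∑ A : G.H l, ∑ B : G.H l, s A * s B * (if A.Dj B then (A.ch B : ℝ) else 0) := by
    calc (g : ℝ) ^ 2 * P s 0 0
        = ∑ i ∈ Finset.range g, ∑ j ∈ Finset.range g, P s ((i : ℕ) : ℤ) ((j : ℕ) : ℤ) := by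
          simp only [P_const s hrot]
          simp only [Finset.sum_const, Finset.card_range, nsmul_eq_mul]
          ring
      _ = ∑ A : G.H l, ∑ B : G.H l, ∑ i ∈ Finset.range g, ∑ j ∈ Finset.range g,
            s A * s B * (if A.Dj B ∧ A.tt ((i : ℕ) : ℤ) = G.τ (B.tt ((j : ℕ) : ℤ))
              then (1 : ℝ) else 0) := by
          unfold P
          exact swap4 _ _
      _ ≤ _ := by
          refine Finset.sum_le_sum fun A _ => Finset.sum_le_sum fun B _ => ?_
          by_cases h : A.Dj B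
          · simp only [h, true_and, if_true]
            simp only [← Finset.mul_sum]
            exact mul_le_mul_of_nonneg_left (ch_ge hG A B) (mul_nonneg (hs A) (hs B))
          · simp [h]
  have h4 : 0 ≤ (g : ℝ) ^ 2 := by positivity
  rw [h1]
  nlinarith [mul_le_mul_of_nonneg_left h2 h4, h3]

end Pool.Agent.CP51
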