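import Pool.Agent.CP51.Defs

/-!
# Counting non-backtracking walks (Alon-Hoory-Linial, the counting half)
-/

namespace Pool.Agent.CP51

open Finset Classical

variable {D : Type} [Fintype D]

/-- Walks starting at `d`. -/
noncomputable def wk (G : Cub D) (S : Finset D) (r : ℕ) (d : D) : Finset (Fin (r + 1) → D) :=
  (G.walks S r).filter fun p => p 0 = d

lemma wk_zero (G : Cub D) (S : Finset D) {d : D} (hd : d ∈ S) : (wk G S 0 d).card = 1 := by
  rw [card_eq_one]
  refine ⟨fun _ => d, ?_⟩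
  ext p
  simp only [wk, Cub.walks, mem_filter, mem_univ, true_and, mem_singleton]
  constructor
  · rintro ⟨-, h⟩
    funext i
    have : i = 0 := Fin.ext (by omega)
    rw [this, h]
  · rintro rfl
    exact ⟨⟨fun _ => hd, fun i => i.elim0⟩, rfl⟩

lemma wk_succ (G : Cub D) (S : Finset D) (r : ℕ) {d : D} (hd : d ∈ S) :
    (wk G S (r + 1) d).card = ∑ e ∈ S.filter (fun e => G.Fol d e), (wk G S r e).card := by
  have h1 : (wk G S (r + 1) d).card =
      ((S.filter (fun e => G.Fol d e)).biUnion fun e => wk G S r e).card := by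
    refine card_bij (fun p _ => Fin.tail p) ?_ ?_ ?_
    · intro p hp
      simp only [wk, Cub.walks, mem_filter, mem_univ, true_and] at hp
      obtain ⟨⟨hS, hF⟩, h0⟩ := hp
      simp only [mem_biUnion, mem_filter, wk, Cub.walks, mem_univ, true_and]
      refine ⟨p 1, ⟨hS _, ?_⟩, ⟨fun i => hS _, fun i => ?_⟩, rfl⟩
      · have := hF 0
        rw [← h0]
        exact this
      · exact hF i.succ
    · intro p hp q hq hpq
      simp only [wk, Cub.walks, mem_filter, mem_univ, true_and] at hp hq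
      rw [← Fin.cons_self_tail p, ← Fin.cons_self_tail q, hpq, hp.2, hq.2]
    · intro q hq
      simp only [mem_biUnion, mem_filter, wk, Cub.walks, mem_univ, true_and] at hq
      obtain ⟨e, ⟨heS, hde⟩, ⟨hS, hF⟩, h0⟩ := hq
      refine ⟨Fin.cons d q, ?_, Fin.tail_cons _ _⟩
      simp only [mem_filter, wk, Cub.walks, mem_univ, true_and]
      refine ⟨⟨fun i => ?_, fun i => ?_⟩, rfl⟩
      · refine Fin.cases ?_ (fun i => ?_) i
        · exact hd
        · exact hS i
      · refine Fin.cases ?_ (fun i => ?_) i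
        · have : (Fin.cons d q : Fin (r + 2) → D) (Fin.succ 0) = e := by
            rw [Fin.cons_succ, h0]
          rw [this]
          exact hde
        · exact hF i
  rw [h1, card_biUnion]
  intro e _ e' _ hee
  rw [Function.onFun, disjoint_left]
  intro p hp hp'
  simp only [wk, mem_filter] at hp hp'
  exact hee (hp.2.symm.trans hp'.2)

lemma card_walks (G : Cub D) (S : Finset D) (r : ℕ) :
    (G.walks S r).card = ∑ d ∈ S, (wk G S r d).card := by
  rw [card_eq_sum_card_fiberwise (f := fun p : Fin (r + 1) → D => p 0) (t := S)]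
  · rfl
  · intro p hp
    simp only [Cub.walks, coe_filter, mem_univ, true_and, Set.mem_ofPred_eq] at hp
    exact hp.1 0

/-- Summation over a vertex. -/
lemma sum_turn (G : Cub D) (S : Finset D) (h2 : ∀ d ∈ S, G.σ d ∈ S ∨ G.σ (G.σ d) ∈ S)
    (f : D → ℝ) :
    ∑ c ∈ S, (if G.σ c ∈ S ∧ G.σ (G.σ c) ∈ S then (f (G.σ c) + f (G.σ (G.σ c))) / 2 else
      if G.σ c ∈ S then f (G.σ c) else f (G.σ (G.σ c))) = ∑ c ∈ S, f c := by
  set χ : D → ℝ := fun d => if d ∈ S then 1 else 0 with hχ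
  have hb : Function.Bijective G.σ := by
    refine Function.bijective_iff_has_inverse.2 ⟨fun d => G.σ (G.σ d), fun d => G.σσσ d,
      fun d => G.σσσ d⟩
  have hsum : ∀ g : D → ℝ, ∑ c, g (G.σ c) = ∑ c, g c := fun g => hb.sum_comp g
  have hL : ∑ c ∈ S, (if G.σ c ∈ S ∧ G.σ (G.σ c) ∈ S then (f (G.σ c) + f (G.σ (G.σ c))) / 2 else
      if G.σ c ∈ S then f (G.σ c) else f (G.σ (G.σ c))) =
      ∑ c, χ c * χ (G.σ c) * f (G.σ c) * (1 - χ (G.σ (G.σ c)) / 2) +
      ∑ c, χ c * χ (G.σ (G.σ c)) * f (G.σ (G.σ c)) * (1 - χ (G.σ c) / 2) := by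
    rw [← sum_add_distrib, ← sum_filter_add_sum_filter_not univ (fun c => c ∈ S)]
    rw [sum_eq_zero (s := univ.filter fun c => ¬ c ∈ S) (fun c hc => ?_), add_zero]
    · refine sum_congr (by ext c; simp) fun c hc => ?_
      replace hc : c ∈ S := by simpa using hc
      have := h2 c hc
      simp only [hχ, if_pos hc]
      by_cases ha : G.σ c ∈ S
      · by_cases hb : G.σ (G.σ c) ∈ S
        · rw [if_pos ⟨ha, hb⟩, if_pos ha, if_pos hb]; ring
        · rw [if_neg (fun h => hb h.2), if_pos ha, if_pos ha, if_neg hb]; ring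
      · have hb : G.σ (G.σ c) ∈ S := this.resolve_left ha
        rw [if_neg (fun h => ha h.1), if_neg ha, if_neg ha, if_pos hb]; ring
    · rw [mem_filter] at hc
      simp only [hχ, if_neg hc.2]; ring
  have hR : ∑ c ∈ S, f c = ∑ c, χ c * f c := by
    rw [← sum_filter_add_sum_filter_not univ (fun c => c ∈ S)]
    rw [sum_eq_zero (s := univ.filter fun c => ¬ c ∈ S) (fun c hc => ?_), add_zero]
    · refine sum_congr (by ext c; simp) fun c hc => ?_
      replace hc : c ∈ S := by simpa using hc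
      simp only [hχ, if_pos hc, one_mul]
    · rw [mem_filter] at hc
      simp only [hχ, if_neg hc.2]; ring
  rw [hL, hR]
  have e1 : ∑ c, χ c * χ (G.σ c) * f (G.σ c) * (1 - χ (G.σ (G.σ c)) / 2) =
      ∑ e, χ (G.σ (G.σ e)) * χ e * f e * (1 - χ (G.σ e) / 2) := by
    rw [← hsum (fun e => χ (G.σ (G.σ e)) * χ e * f e * (1 - χ (G.σ e) / 2))]
    refine sum_congr rfl fun c _ => ?_
    rw [G.σσσ]
  have e2 : ∑ c, χ c * χ (G.σ (G.σ c)) * f (G.σ (G.σ c)) * (1 - χ (G.σ c) / 2) =
      ∑ e, χ (G.σ e) * χ e * f e * (1 - χ (G.σ (G.σ e)) / 2) := by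
    rw [← hsum (fun e => χ (G.σ e) * χ e * f e * (1 - χ (G.σ (G.σ e)) / 2)),
      ← hsum (fun c => χ (G.σ (G.σ c)) * χ (G.σ c) * f (G.σ c) *
        (1 - χ (G.σ (G.σ (G.σ c))) / 2))]
    refine sum_congr rfl fun c _ => ?_
    simp only [G.σσσ]
  rw [e1, e2, ← sum_add_distrib]
  refine sum_congr rfl fun c _ => ?_
  by_cases hc : c ∈ S
  · have := h2 c hc
    simp only [hχ, if_pos hc]
    by_cases ha : G.σ c ∈ S
    · by_cases hb : G.σ (G.σ c) ∈ S
      · rw [if_pos ha, if_pos hb]; ring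
      · rw [if_pos ha, if_neg hb]; ring
    · have hb : G.σ (G.σ c) ∈ S := this.resolve_left ha
      rw [if_neg ha, if_pos hb]; ring
  · simp only [hχ, if_neg hc]; ring

lemma wk_pos (G : Cub D) (S : Finset D) (hτ : ∀ d ∈ S, G.τ d ∈ S)
    (h2 : ∀ d ∈ S, G.σ d ∈ S ∨ G.σ (G.σ d) ∈ S) (r : ℕ) :
    ∀ d ∈ S, 0 < (wk G S r d).card := by
  induction r with
  | zero => intro d hd; rw [wk_zero G S hd]; exact one_pos
  | succ r ih =>
    intro d hd
    rw [wk_succ G S r hd]
    rcases h2 _ (hτ d hd) with h | h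
    · exact sum_pos' (fun _ _ => Nat.zero_le _)
        ⟨_, mem_filter.2 ⟨h, Or.inl rfl⟩, ih _ h⟩
    · exact sum_pos' (fun _ _ => Nat.zero_le _)
        ⟨_, mem_filter.2 ⟨h, Or.inr rfl⟩, ih _ h⟩

lemma log_step (G : Cub D) (S : Finset D) (hτ : ∀ d ∈ S, G.τ d ∈ S)
    (h2 : ∀ d ∈ S, G.σ d ∈ S ∨ G.σ (G.σ d) ∈ S) (r : ℕ) (c : D) (hc : c ∈ S) :
    (if G.σ c ∈ S ∧ G.σ (G.σ c) ∈ S then (1 : ℝ) else 0) +
      (if G.σ c ∈ S ∧ G.σ (G.σ c) ∈ S then
        (Real.logb 2 (wk G S r (G.σ c)).card + Real.logb 2 (wk G S r (G.σ (G.σ c))).card) / 2 else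
        if G.σ c ∈ S then Real.logb 2 (wk G S r (G.σ c)).card else
          Real.logb 2 (wk G S r (G.σ (G.σ c))).card) ≤
      Real.logb 2 (wk G S (r + 1) (G.τ c)).card := by
  have hτc := hτ c hc
  have hne : G.σ c ≠ G.σ (G.σ c) := fun h => G.σne (G.σ c) h.symm
  rw [wk_succ G S r hτc]
  have hfol : ∀ e, G.Fol (G.τ c) e ↔ e = G.σ c ∨ e = G.σ (G.σ c) := by
    intro e
    unfold Cub.Fol
    rw [G.ττ]
  by_cases ha : G.σ c ∈ S
  · by_cases hb : G.σ (G.σ c) ∈ S
    · rw [if_pos ⟨ha, hb⟩, if_pos ⟨ha, hb⟩]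
      have hs : S.filter (fun e => G.Fol (G.τ c) e) = {G.σ c, G.σ (G.σ c)} := by
        ext e
        simp only [mem_filter, hfol, mem_insert, mem_singleton]
        constructor
        · exact fun h => h.2
        · rintro (rfl | rfl)
          · exact ⟨ha, Or.inl rfl⟩
          · exact ⟨hb, Or.inr rfl⟩
      rw [hs, sum_pair hne]
      have pa : (0 : ℝ) < (wk G S r (G.σ c)).card := by exact_mod_cast wk_pos G S hτ h2 r _ ha
      have pb : (0 : ℝ) < (wk G S r (G.σ (G.σ c))).card := by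
        exact_mod_cast wk_pos G S hτ h2 r _ hb
      push_cast
      set a := ((wk G S r (G.σ c)).card : ℝ)
      set b := ((wk G S r (G.σ (G.σ c))).card : ℝ)
      have h4 : Real.logb 2 (4 * (a * b)) ≤ Real.logb 2 ((a + b) ^ 2) :=
        Real.logb_le_logb_of_le (by norm_num) (by positivity) (by nlinarith [sq_nonneg (a - b)])
      rw [Real.logb_mul (by norm_num) (by positivity), Real.logb_mul pa.ne' pb.ne',
        Real.logb_pow] at h4
      have h44 : Real.logb 2 4 = 2 := by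
        rw [show (4 : ℝ) = 2 ^ (2 : ℕ) by norm_num, Real.logb_pow, Real.logb_self_eq_one
          (by norm_num)]
        norm_num
      rw [h44] at h4
      push_cast at h4
      linarith
    · have hs : S.filter (fun e => G.Fol (G.τ c) e) = {G.σ c} := by
        ext e
        simp only [mem_filter, hfol, mem_singleton]
        constructor
        · rintro ⟨h, rfl | rfl⟩
          · rfl
          · exact absurd h hb
        · rintro rfl
          exact ⟨ha, Or.inl rfl⟩
      rw [if_neg (fun h => hb h.2), if_neg (fun h => hb h.2), if_pos ha, hs, sum_singleton,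
        zero_add]
  · have hb : G.σ (G.σ c) ∈ S := (h2 c hc).resolve_left ha
    have hs : S.filter (fun e => G.Fol (G.τ c) e) = {G.σ (G.σ c)} := by
      ext e
      simp only [mem_filter, hfol, mem_singleton]
      constructor
      · rintro ⟨h, rfl | rfl⟩
        · exact absurd h ha
        · rfl
      · rintro rfl
        exact ⟨hb, Or.inr rfl⟩
    rw [if_neg (fun h => ha h.1), if_neg (fun h => ha h.1), if_neg ha, hs, sum_singleton,
      zero_add]

lemma sum_log (G : Cub D) (S : Finset D) (hτ : ∀ d ∈ S, G.τ d ∈ S)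
    (h2 : ∀ d ∈ S, G.σ d ∈ S ∨ G.σ (G.σ d) ∈ S) (r : ℕ) :
    (r : ℝ) * ((S.filter fun d => G.σ d ∈ S ∧ G.σ (G.σ d) ∈ S).card : ℝ) ≤
      ∑ d ∈ S, Real.logb 2 (wk G S r d).card := by
  induction r with
  | zero =>
    rw [Nat.cast_zero, zero_mul]
    refine (sum_eq_zero fun d hd => ?_).ge
    rw [wk_zero G S hd]; simp
  | succ r ih =>
    have hτS : ∑ d ∈ S, Real.logb 2 (wk G S (r + 1) d).card =
        ∑ c ∈ S, Real.logb 2 (wk G S (r + 1) (G.τ c)).card := by
      refine sum_bij' (fun d _ => G.τ d) (fun d _ => G.τ d) (fun d hd => hτ d hd)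
        (fun d hd => hτ d hd) (fun d _ => G.ττ d) (fun d _ => G.ττ d) (fun d _ => ?_)
      rw [G.ττ]
    rw [hτS]
    have h := sum_le_sum (fun c hc => log_step G S hτ h2 r c hc)
    rw [sum_add_distrib, sum_turn G S h2 (fun d => Real.logb 2 (wk G S r d).card), sum_boole] at h
    push_cast
    linarith

theorem coreB (G : Cub D) (S : Finset D) (hS : S.Nonempty) (hτ : ∀ d ∈ S, G.τ d ∈ S)
    (h2 : ∀ d ∈ S, G.σ d ∈ S ∨ G.σ (G.σ d) ∈ S) (r : ℕ) :
    (S.card : ℝ) * 2 ^ ((r : ℝ) *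
      (((S.filter fun d => G.σ d ∈ S ∧ G.σ (G.σ d) ∈ S).card : ℝ) / S.card)) ≤
      ((G.walks S r).card : ℝ) := by
  have hn : (0 : ℝ) < S.card := by exact_mod_cast hS.card_pos
  have hpos : ∀ d ∈ S, (0 : ℝ) < (wk G S r d).card := fun d hd => by
    exact_mod_cast wk_pos G S hτ h2 r d hd
  have hgm := Real.geom_mean_le_arith_mean_weighted S (fun _ => (1 : ℝ) / S.card)
    (fun d => ((wk G S r d).card : ℝ)) (fun _ _ => by positivity)
    (by rw [sum_const, nsmul_eq_mul]; field_simp) (fun d hd => (hpos d hd).le)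
  rw [← mul_sum] at hgm
  have hcard : ((G.walks S r).card : ℝ) = ∑ d ∈ S, ((wk G S r d).card : ℝ) := by
    rw [card_walks G S r]; push_cast; rfl
  have hprod : ∏ d ∈ S, ((wk G S r d).card : ℝ) ^ ((1 : ℝ) / S.card) =
      2 ^ ((∑ d ∈ S, Real.logb 2 (wk G S r d).card) / S.card) := by
    rw [sum_div, Real.rpow_sum_of_pos (by norm_num)]
    refine prod_congr rfl fun d hd => ?_
    rw [div_eq_mul_one_div (Real.logb 2 _), Real.rpow_mul (by norm_num),
      Real.rpow_logb (by norm_num) (by norm_num) (hpos d hd)]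
  rw [hprod] at hgm
  rw [hcard]
  have h3 : (2 : ℝ) ^ ((r : ℝ) *
      (((S.filter fun d => G.σ d ∈ S ∧ G.σ (G.σ d) ∈ S).card : ℝ) / S.card)) ≤
      2 ^ ((∑ d ∈ S, Real.logb 2 (wk G S r d).card) / S.card) := by
    refine Real.rpow_le_rpow_of_exponent_le (by norm_num) ?_
    rw [← mul_div_assoc]
    exact div_le_div_of_nonneg_right (sum_log G S hτ h2 r) hn.le
  calc (S.card : ℝ) * 2 ^ ((r : ℝ) *
      (((S.filter fun d => G.σ d ∈ S ∧ G.σ (G.σ d) ∈ S).card : ℝ) / S.card)) ≤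
      S.card * (1 / S.card * ∑ d ∈ S, ((wk G S r d).card : ℝ)) :=
        mul_le_mul_of_nonneg_left (h3.trans hgm) hn.le
    _ = ∑ d ∈ S, ((wk G S r d).card : ℝ) := by field_simp

end Pool.Agent.CP51
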