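import Pool.Agent.CP51.CoreA
import Pool.Agent.CP51.CoreB

/-!
# Many walks avoiding a small set (section 1 of the page, first half)
-/

namespace Pool.Agent.CP51

variable {D : Type}

/-- Alon-Hoory-Linial: outside every set `X` of at most `M` vertices there is a symmetric set
of darts with at least `|S| 2 ^ (r (1 - 4 M / N))` non-backtracking walks with `r` steps. -/
theorem core (G : Cub D) [Fintype D] (N M : ℕ) (hD : Fintype.card D = 3 * N)
    (X : Finset D) (hX : ∀ d ∈ X, G.σ d ∈ X) (hXM : X.card ≤ 3 * M) (hM : 4 * M < N) :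
    ∃ S : Finset D, S.Nonempty ∧ (∀ d ∈ S, G.τ d ∈ S) ∧ (∀ d ∈ S, d ∉ X) ∧
      ∀ r : ℕ, (S.card : ℝ) * 2 ^ ((r : ℝ) * (1 - 4 * M / N)) ≤ ((G.walks S r).card : ℝ) := by
  classical
  obtain ⟨S, hS, hτ, hSX, h2, h3⟩ := coreA G N M hD X hX hXM hM
  refine ⟨S, hS, hτ, hSX, fun r => ?_⟩
  have hn : (0 : ℝ) < S.card := by exact_mod_cast hS.card_pos
  refine le_trans (mul_le_mul_of_nonneg_left ?_ hn.le) (coreB G S hS hτ h2 r)
  refine Real.rpow_le_rpow_of_exponent_le (by norm_num)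
    (mul_le_mul_of_nonneg_left ?_ (Nat.cast_nonneg r))
  rw [le_div_iff₀ hn]
  convert (mul_comm _ _).trans_le h3 using 2

end Pool.Agent.CP51
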