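import Pool.Agent.CP51.Defs

/-!
# Many walks avoiding a small set: a dense symmetric set of darts (helper11)
-/

namespace Pool.Agent.CP51

variable {D : Type}

open Classical in
/-- darts of `W` whose reversal is in `W` -/
noncomputable def innA (G : Cub D) (W : Finset D) : Finset D := W.filter fun d => G.τ d ∈ W

open Classical in
private lemma mem_innA (G : Cub D) (W : Finset D) (d : D) :
    d ∈ innA G W ↔ d ∈ W ∧ G.τ d ∈ W := by
  simp [innA]

private lemma innA_tau (G : Cub D) (W : Finset D) {d : D} (h : d ∈ innA G W) :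
    G.τ d ∈ innA G W := by
  rw [mem_innA] at *
  rw [G.ττ]
  exact ⟨h.2, h.1⟩

open Classical in
private lemma tri_card (G : Cub D) (d : D) : ({d, G.σ d, G.σ (G.σ d)} : Finset D).card = 3 := by
  rw [Finset.card_eq_three]
  refine ⟨_, _, _, (G.σne d).symm, ?_, (G.σne (G.σ d)).symm, rfl⟩
  intro h
  have h1 := congrArg G.σ h
  rw [G.σσσ] at h1
  exact G.σne d h1

open Classical in
/-- the comparison step -/
private lemma step_card (G : Cub D) (W : Finset D) (hW : ∀ d ∈ W, G.σ d ∈ W) (d : D)
    (hd : d ∈ innA G W) (h1 : G.σ d ∉ innA G W) (h2 : G.σ (G.σ d) ∉ innA G W) :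
    ∃ W' : Finset D, (∀ e ∈ W', G.σ e ∈ W') ∧ W' ⊆ W ∧ W'.card + 3 = W.card ∧
      (innA G W).card ≤ (innA G W').card + 2 := by
  set T : Finset D := {d, G.σ d, G.σ (G.σ d)} with hT
  have hdW : d ∈ W := ((mem_innA G W d).1 hd).1
  have hTW : T ⊆ W := by
    intro e he
    simp only [hT, Finset.mem_insert, Finset.mem_singleton] at he
    rcases he with rfl | rfl | rfl
    · exact hdW
    · exact hW _ hdW
    · exact hW _ (hW _ hdW)
  refine ⟨W \ T, ?_, Finset.sdiff_subset, ?_, ?_⟩
  · intro e he
    rw [Finset.mem_sdiff] at he ⊢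
    refine ⟨hW _ he.1, fun h => he.2 ?_⟩
    simp only [hT, Finset.mem_insert, Finset.mem_singleton] at h ⊢
    rcases h with h | h | h
    · right; right
      rw [← h, G.σσσ]
    · left
      have := congrArg (fun x => G.σ (G.σ x)) h
      simpa [G.σσσ] using this
    · right; left
      have := congrArg (fun x => G.σ (G.σ x)) h
      simpa [G.σσσ] using this
  · rw [Finset.card_sdiff_of_subset hTW, tri_card]
    have := Finset.card_le_card hTW
    rw [tri_card] at this
    omega
  · have hsub : innA G W ⊆ innA G (W \ T) ∪ {d, G.τ d} := by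
      intro e he
      rw [Finset.mem_union]
      by_cases h3 : e = d
      · right; simp [h3]
      by_cases h4 : e = G.τ d
      · right; simp [h4]
      left
      rw [mem_innA, Finset.mem_sdiff, Finset.mem_sdiff]
      have hτe := innA_tau G W he
      have hnot : ∀ x ∈ innA G W, x ≠ d → x ∉ T := by
        intro x hx hxd hxT
        simp only [hT, Finset.mem_insert, Finset.mem_singleton] at hxT
        rcases hxT with rfl | rfl | rfl
        · exact hxd rfl
        · exact h1 hx
        · exact h2 hx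
      refine ⟨⟨((mem_innA G W e).1 he).1, hnot e he h3⟩,
        ⟨((mem_innA G W e).1 he).2, hnot _ hτe ?_⟩⟩
      intro h
      apply h4
      rw [← h, G.ττ]
    calc (innA G W).card ≤ (innA G (W \ T) ∪ {d, G.τ d}).card := Finset.card_le_card hsub
      _ ≤ (innA G (W \ T)).card + ({d, G.τ d} : Finset D).card := Finset.card_union_le _ _
      _ ≤ (innA G (W \ T)).card + 2 := by
        have := Finset.card_insert_le d ({G.τ d} : Finset D)
        simp only [Finset.card_singleton] at this
        omega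

open Classical in
private lemma three_card (G : Cub D) (W : Finset D) (hW : ∀ d ∈ W, G.σ d ∈ W) (S : Finset D)
    (hS : S ⊆ W) :
    3 * S.card ≤ 2 * W.card + (S.filter fun d => G.σ d ∈ S ∧ G.σ (G.σ d) ∈ S).card := by
  have hinj : Function.Injective G.σ := by
    intro a b h
    have := congrArg (fun x => G.σ (G.σ x)) h
    simpa [G.σσσ] using this
  have e0 : S.card = ∑ d ∈ W, if d ∈ S then 1 else 0 := by
    rw [← Finset.sum_filter, Finset.sum_const, smul_eq_mul, mul_one]
    congr 1
    ext d
    rw [Finset.mem_filter]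
    exact ⟨fun h => ⟨hS h, h⟩, fun h => h.2⟩
  have hshift : ∀ f : D → ℕ, ∑ d ∈ W, f (G.σ d) = ∑ d ∈ W, f d := by
    intro f
    refine Finset.sum_bij (fun d _ => G.σ d) (fun d hd => hW d hd)
      (fun a _ b _ h => hinj h) ?_ (fun d _ => rfl)
    intro b hb
    exact ⟨G.σ (G.σ b), hW _ (hW _ hb), G.σσσ b⟩
  have e1 : S.card = ∑ d ∈ W, if G.σ d ∈ S then 1 else 0 := by
    rw [e0]
    exact (hshift fun d => if d ∈ S then 1 else 0).symm
  have e2 : S.card = ∑ d ∈ W, if G.σ (G.σ d) ∈ S then 1 else 0 := by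
    rw [e1]
    exact (hshift fun d => if G.σ d ∈ S then 1 else 0).symm
  have e3 : (S.filter fun d => G.σ d ∈ S ∧ G.σ (G.σ d) ∈ S).card =
      ∑ d ∈ W, if d ∈ S ∧ G.σ d ∈ S ∧ G.σ (G.σ d) ∈ S then 1 else 0 := by
    rw [← Finset.sum_filter, Finset.sum_const, smul_eq_mul, mul_one]
    congr 1
    ext d
    simp only [Finset.mem_filter]
    exact ⟨fun h => ⟨hS h.1, h.1, h.2⟩, fun h => h.2⟩
  have e4 : 2 * W.card = ∑ d ∈ W, 2 := by
    rw [Finset.sum_const, smul_eq_mul, mul_comm]
  have h3 : 3 * S.card = S.card + S.card + S.card := by ring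
  rw [h3, e3, e4]
  nth_rewrite 1 [e0]
  nth_rewrite 1 [e1]
  nth_rewrite 1 [e2]
  rw [← Finset.sum_add_distrib, ← Finset.sum_add_distrib, ← Finset.sum_add_distrib]
  refine Finset.sum_le_sum fun d _ => ?_
  by_cases a : d ∈ S <;> by_cases b : G.σ d ∈ S <;> by_cases c : G.σ (G.σ d) ∈ S <;>
    simp [a, b, c]

open Classical in
/-- A set of darts of degrees two and three, almost all of them three, outside `X`. -/
theorem coreA (G : Cub D) [Fintype D] (N M : ℕ) (hD : Fintype.card D = 3 * N)
    (X : Finset D) (hX : ∀ d ∈ X, G.σ d ∈ X) (hXM : X.card ≤ 3 * M) (hM : 4 * M < N) :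
    ∃ S : Finset D, S.Nonempty ∧ (∀ d ∈ S, G.τ d ∈ S) ∧ (∀ d ∈ S, d ∉ X) ∧
      (∀ d ∈ S, G.σ d ∈ S ∨ G.σ (G.σ d) ∈ S) ∧
      (S.card : ℝ) * (1 - 4 * M / N) ≤
        ((S.filter fun d => G.σ d ∈ S ∧ G.σ (G.σ d) ∈ S).card : ℝ) := by
  set K : ℤ := Fintype.card D + 1 with hK
  set F : Finset (Finset D) := Finset.univ.filter fun W => (∀ d ∈ W, G.σ d ∈ W) ∧
    ∀ d ∈ W, d ∉ X with hF
  set W0 : Finset D := Finset.univ.filter fun d => d ∉ X with hW0
  have hW0F : W0 ∈ F := by
    simp only [hF, hW0, Finset.mem_filter, Finset.mem_univ, true_and]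
    refine ⟨fun d hd h => hd ?_, fun d hd => hd⟩
    have := hX _ (hX _ h)
    rwa [G.σσσ] at this
  obtain ⟨W, hWF, hmax⟩ := Finset.exists_max_image F
    (fun W => (3 * ((innA G W).card : ℤ) - 2 * W.card) * K - W.card) ⟨W0, hW0F⟩
  have hWσ : ∀ d ∈ W, G.σ d ∈ W := ((Finset.mem_filter.1 hWF).2).1
  have hWX : ∀ d ∈ W, d ∉ X := ((Finset.mem_filter.1 hWF).2).2
  have hcardW : ∀ W : Finset D, (W.card : ℤ) < K := by
    intro W
    have := Finset.card_le_univ W
    omega
  -- the potential of `W` is at least the one of `W0`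
  have hφ : ∀ W' ∈ F, 3 * ((innA G W').card : ℤ) - 2 * W'.card ≤
      3 * ((innA G W).card : ℤ) - 2 * W.card := by
    intro W' hW'
    by_contra hlt
    push Not at hlt
    have h1 := hmax W' hW'
    have h2 := hcardW W'
    have h3 : (0 : ℤ) ≤ W.card := by positivity
    have hKpos : (0 : ℤ) < K := by have := hcardW W; omega
    nlinarith
  have h0 : (3 * (N : ℤ) - 12 * M) ≤ 3 * ((innA G W).card : ℤ) - 2 * W.card := by
    refine le_trans ?_ (hφ W0 hW0F)
    have hc0 : W0.card + X.card = 3 * N := by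
      rw [← hD, ← Finset.card_univ, hW0]
      have := Finset.card_filter_add_card_filter_not (s := (Finset.univ : Finset D))
        (fun d => d ∈ X)
      have h4 : (Finset.univ.filter fun d => d ∈ X) = X := by ext; simp
      rw [h4] at this
      omega
    have hτinj : Function.Injective G.τ := by
      intro a b h
      have := congrArg G.τ h
      simpa [G.ττ] using this
    have hc1 : 3 * N ≤ (innA G W0).card + 2 * X.card := by
      have hsub : (Finset.univ : Finset D) ⊆ innA G W0 ∪ (X ∪ X.image G.τ) := by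
        intro d _
        simp only [Finset.mem_union, mem_innA, hW0, Finset.mem_filter, Finset.mem_univ,
          true_and, Finset.mem_image]
        by_cases h5 : d ∈ X
        · right; left; exact h5
        by_cases h6 : G.τ d ∈ X
        · right; right; exact ⟨_, h6, G.ττ d⟩
        · left; exact ⟨h5, h6⟩
      have h7 := Finset.card_le_card hsub
      rw [Finset.card_univ, hD] at h7
      have h8 := Finset.card_union_le (innA G W0) (X ∪ X.image G.τ)
      have h9 := Finset.card_union_le X (X.image G.τ)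
      have h10 : (X.image G.τ).card = X.card := Finset.card_image_of_injective _ hτinj
      omega
    omega
  have hWN : W.card ≤ 3 * N := by rw [← hD]; exact Finset.card_le_univ W
  set S := innA G W with hS
  have hSW : S ⊆ W := Finset.filter_subset _ _
  have h3 := three_card G W hWσ S hSW
  have hNM : 4 * M < N := hM
  refine ⟨S, ?_, fun d hd => innA_tau G W hd, fun d hd => hWX d (hSW hd), ?_, ?_⟩
  · rw [Finset.nonempty_iff_ne_empty]
    intro h
    rw [h] at h0
    simp at h0
    omega
  · intro d hd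
    by_contra hcon
    push Not at hcon
    obtain ⟨W', hW'σ, hW'W, hc, hi⟩ := step_card G W hWσ d hd hcon.1 hcon.2
    have hW'F : W' ∈ F := by
      simp only [hF, Finset.mem_filter, Finset.mem_univ, true_and]
      exact ⟨hW'σ, fun e he => hWX e (hW'W he)⟩
    have h1 := hmax W' hW'F
    have hKpos : (0 : ℤ) < K := by have := hcardW W; omega
    have hi' : S.card ≤ (innA G W').card + 2 := hi
    have h2 : (3 * (S.card : ℤ) - 2 * W.card) ≤
        3 * ((innA G W').card : ℤ) - 2 * W'.card := by omega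
    have h4 := mul_le_mul_of_nonneg_right h2 hKpos.le
    omega
  · set s3 := (S.filter fun d => G.σ d ∈ S ∧ G.σ (G.σ d) ∈ S).card with hs3
    have hN : (0 : ℝ) < N := by
      have : 0 < N := by omega
      exact_mod_cast this
    have r1 : 3 * (N : ℝ) - 12 * M ≤ 3 * S.card - 2 * W.card := by exact_mod_cast h0
    have r2 : 3 * (S.card : ℝ) ≤ 2 * W.card + s3 := by exact_mod_cast h3
    have r3 : (W.card : ℝ) ≤ 3 * N := by exact_mod_cast hWN
    have r4 : 4 * (M : ℝ) < N := by exact_mod_cast hM
    have r5 : (0 : ℝ) ≤ M := by positivity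
    have r6 : (1 : ℝ) - 4 * M / N = (N - 4 * M) / N := by field_simp
    rw [r6, mul_div_assoc', div_le_iff₀ hN]
    -- s (N - 4M) ≤ s3 N
    have r7 : (3 * (S.card : ℝ) - 2 * W.card) * N ≤ s3 * N := by
      apply mul_le_mul_of_nonneg_right _ hN.le
      linarith
    refine le_trans ?_ r7
    nlinarith [mul_nonneg (sub_nonneg.2 r3) (sub_nonneg.2 r4.le),
      mul_nonneg r5 (sub_nonneg.2 r1), mul_nonneg r5 (sub_nonneg.2 r4.le)]

end Pool.Agent.CP51
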