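import Pool.Agent.CP51.Defs

/-!
# From pairs of walks to closed walks (section 1 of the page, second half)
-/

namespace Pool.Agent.CP51

variable {D : Type}

namespace CountAux

lemma σinj (G : Cub D) {a b : D} (h : G.σ a = G.σ b) : a = b := by
  have := congrArg G.σ (congrArg G.σ h)
  rwa [G.σσσ, G.σσσ] at this

lemma τinj (G : Cub D) {a b : D} (h : G.τ a = G.τ b) : a = b := by
  have := congrArg G.τ h
  rwa [G.ττ, G.ττ] at this

/-- Two different darts leaving the vertex at which `d` arrives. -/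
lemma fol_turn (G : Cub D) {d e f : D} (he : G.Fol d e) (hf : G.Fol d f) (hne : e ≠ f) :
    G.Fol (G.τ e) f := by
  rcases he with rfl | rfl <;> rcases hf with rfl | rfl
  · exact absurd rfl hne
  · left; rw [G.ττ]
  · right; rw [G.ττ, G.σσσ]
  · exact absurd rfl hne

/-- `d` and `e` arrive at the same vertex, `f` leaves it. -/
lemma fol_join (G : Cub D) {d e f : D} (hd : G.Fol d f) (he : G.Fol e f) (hne : d ≠ e) :
    G.Fol d (G.τ e) := by
  have h1 := fol_turn G hd.rev he.rev (fun h => hne (τinj G h))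
  rwa [G.ττ] at h1

lemma prev_unique (G : Cub D) {d d' e f : D} (h1 : G.Fol d e) (h2 : G.Fol d f)
    (h3 : G.Fol d' e) (h4 : G.Fol d' f) (hne : e ≠ f) : d = d' := by
  apply τinj G
  rcases h1 with h1 | h1 <;> rcases h2 with h2 | h2 <;> rcases h3 with h3 | h3 <;>
    rcases h4 with h4 | h4
  all_goals first
    | exact absurd (h1.trans h2.symm) hne
    | exact absurd (h3.trans h4.symm) hne
    | exact σinj G (h1.symm.trans h3)
    | exact σinj G (h2.symm.trans h4)
    | skip
  · exfalso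
    have a : G.σ (G.τ d) = G.σ (G.σ (G.τ d')) := h1.symm.trans h3
    have b : G.σ (G.σ (G.τ d)) = G.σ (G.τ d') := h2.symm.trans h4
    have c := σinj G a
    rw [c] at b
    have h := σinj G b
    have h' := congrArg G.σ h
    rw [G.σσσ] at h'
    exact G.σne _ h'.symm
  · exfalso
    have a : G.σ (G.σ (G.τ d)) = G.σ (G.τ d') := h1.symm.trans h3
    have b : G.σ (G.τ d) = G.σ (G.σ (G.τ d')) := h2.symm.trans h4
    have c := σinj G b
    rw [c] at a
    have h := σinj G a
    have h' := congrArg G.σ h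
    rw [G.σσσ] at h'
    exact G.σne _ h'.symm

lemma next_unique (G : Cub D) {d e f f' : D} (h1 : G.Fol d f) (h2 : G.Fol e f)
    (h3 : G.Fol d f') (h4 : G.Fol e f') (hne : d ≠ e) : f = f' := by
  apply τinj G
  exact prev_unique G h1.rev h2.rev h3.rev h4.rev (fun h => hne (τinj G h))

/-- The turn. -/
noncomputable def bit (G : Cub D) (d e : D) : Bool :=
  open Classical in decide (e = G.σ (G.τ d))

lemma bit_next (G : Cub D) {d e e' : D} (h1 : G.Fol d e) (h2 : G.Fol d e')
    (hb : bit G d e = bit G d e') : e = e' := by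
  classical
  unfold bit at hb
  rcases h1 with h1 | h1 <;> rcases h2 with h2 | h2
  · rw [h1, h2]
  · have : e' = G.σ (G.τ d) := by
      simpa [h1] using hb
    rw [h1, this]
  · have : e = G.σ (G.τ d) := by
      simpa [h2] using hb
    rw [h2, this]
  · rw [h1, h2]

lemma bit_prev (G : Cub D) {d d' e : D} (h1 : G.Fol d e) (h2 : G.Fol d' e)
    (hb : bit G d e = bit G d' e) : d = d' := by
  classical
  unfold bit at hb
  apply τinj G
  have hb' : (e = G.σ (G.τ d)) ↔ (e = G.σ (G.τ d')) := by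
    simpa using hb
  by_cases h : e = G.σ (G.τ d)
  · exact σinj G (h.symm.trans (hb'.1 h))
  · have h' : ¬ e = G.σ (G.τ d') := fun h'' => h (hb'.2 h'')
    have a1 := h1.resolve_left h
    have a2 := h2.resolve_left h'
    exact σinj G (σinj G (a1.symm.trans a2))

/-- A closed walk from a function on the natural numbers. -/
def mkH (G : Cub D) (l N : ℕ) (hN : 0 < N) (hl : N ≤ l) (f : ℕ → D)
    (h1 : ∀ t, t + 1 < N → G.Fol (f t) (f (t + 1))) (h2 : G.Fol (f (N - 1)) (f 0)) :
    G.H l where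
  n := ⟨N - 1, by omega⟩
  c := fun z => f z.val
  fol := fun z => by
    have hz : z.val < N - 1 + 1 := ZMod.val_lt z
    have hv : (z + 1).val = (z.val + 1) % (N - 1 + 1) := by
      rw [ZMod.val_add, ZMod.val_one_eq_one_mod, Nat.add_mod_mod]
    by_cases h : z.val + 1 < N
    · rw [hv, Nat.mod_eq_of_lt (by omega)]
      exact h1 _ h
    · have hz' : z.val + 1 = N - 1 + 1 := by omega
      rw [hv, hz', Nat.mod_self]
      have : z.val = N - 1 := by omega
      rw [this]
      exact h2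

lemma mkH_len (G : Cub D) (l N : ℕ) (hN : 0 < N) (hl : N ≤ l) (f : ℕ → D) (h1 h2) :
    (mkH G l N hN hl f h1 h2).len = N := by
  show N - 1 + 1 = N
  omega

lemma mkH_sq (G : Cub D) (l N : ℕ) (hN : 0 < N) (hl : N ≤ l) (f : ℕ → D) (h1 h2) (t : ℕ)
    (ht : t < N) : (mkH G l N hN hl f h1 h2).sq (t : ℤ) = f t := by
  show f (ZMod.val (((t : ℤ) : ZMod (N - 1 + 1)))) = f t
  rw [Int.cast_natCast, ZMod.val_natCast_of_lt (by omega)]

lemma mkH_mem (G : Cub D) (l N : ℕ) (hN : 0 < N) (hl : N ≤ l) (f : ℕ → D) (h1 h2)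
    (S : Finset D) (hS : ∀ t < N, f t ∈ S) (i : ℤ) : (mkH G l N hN hl f h1 h2).sq i ∈ S := by
  show f (ZMod.val ((i : ZMod (N - 1 + 1)))) ∈ S
  apply hS
  have := ZMod.val_lt (i : ZMod (N - 1 + 1))
  omega

/-- The closed walk of two walks which differ exactly inside `[u, v]`. -/
lemma closed_of_pair (G : Cub D) (S : Finset D) (hτ : ∀ d ∈ S, G.τ d ∈ S) (r : ℕ)
    (P Q : ℕ → D) (hP : ∀ t < r, G.Fol (P t) (P (t + 1)))
    (hQ : ∀ t < r, G.Fol (Q t) (Q (t + 1))) (hPS : ∀ t ≤ r, P t ∈ S) (hQS : ∀ t ≤ r, Q t ∈ S)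
    (u v : ℕ) (hu : 1 ≤ u) (huv : u ≤ v) (hv : v < r) (h1 : P (u - 1) = Q (u - 1))
    (h2 : P (v + 1) = Q (v + 1)) (hne1 : P u ≠ Q u) (hne2 : P v ≠ Q v) :
    ∃ C : G.H (2 * r), C.len = 2 * (v - u + 1) ∧
      (∀ t < v - u + 1, C.sq ((t : ℕ) : ℤ) = P (u + t)) ∧
      (∀ t < v - u + 1, C.sq ((v - u + 1 + t : ℕ) : ℤ) = G.τ (Q (v - t))) ∧
      ∀ i, C.sq i ∈ S := by
  set a := v - u + 1 with ha
  set f : ℕ → D := fun t => if t < a then P (u + t) else G.τ (Q (v - (t - a))) with hf
  have hN : 0 < 2 * a := by omega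
  have hl : 2 * a ≤ 2 * r := by omega
  have k1 : ∀ t, t + 1 < 2 * a → G.Fol (f t) (f (t + 1)) := by
    intro t ht
    rcases lt_trichotomy (t + 1) a with h | h | h
    · have e1 : f t = P (u + t) := by simp only [hf]; rw [if_pos (by omega)]
      have e2 : f (t + 1) = P (u + t + 1) := by
        simp only [hf]; rw [if_pos (by omega)]; congr 1
      rw [e1, e2]
      exact hP _ (by omega)
    · have e1 : f t = P v := by
        simp only [hf]; rw [if_pos (by omega)]; congr 1; omega
      have e2 : f (t + 1) = G.τ (Q v) := by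
        simp only [hf]; rw [if_neg (by omega)]; congr 2; omega
      rw [e1, e2]
      have q1 := hP v hv
      have q2 := hQ v hv
      rw [← h2] at q2
      exact fol_join G q1 q2 hne2
    · have e1 : f t = G.τ (Q (v - (t - a))) := by
        simp only [hf]; rw [if_neg (by omega)]
      have e2 : f (t + 1) = G.τ (Q (v - (t - a) - 1)) := by
        simp only [hf]; rw [if_neg (by omega)]; congr 2; omega
      rw [e1, e2]
      have q2 := hQ (v - (t - a) - 1) (by omega)
      rw [show v - (t - a) - 1 + 1 = v - (t - a) by omega] at q2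
      exact q2.rev
  have k2 : G.Fol (f (2 * a - 1)) (f 0) := by
    have e1 : f (2 * a - 1) = G.τ (Q u) := by
      simp only [hf]; rw [if_neg (by omega)]; congr 2; omega
    have e2 : f 0 = P u := by
      simp only [hf]; rw [if_pos (by omega)]; rfl
    rw [e1, e2]
    have q1 := hP (u - 1) (by omega)
    have q2 := hQ (u - 1) (by omega)
    rw [show u - 1 + 1 = u by omega] at q1 q2
    rw [← h1] at q2
    exact fol_turn G q2 q1 (fun h => hne1 h.symm)
  refine ⟨mkH G (2 * r) (2 * a) hN hl f k1 k2, mkH_len .., ?_, ?_, ?_⟩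
  · intro t ht
    rw [mkH_sq G (2 * r) (2 * a) hN hl f k1 k2 t (by omega)]
    simp only [hf]; rw [if_pos ht]
  · intro t ht
    rw [mkH_sq G (2 * r) (2 * a) hN hl f k1 k2 (a + t) (by omega)]
    simp only [hf]; rw [if_neg (by omega)]; congr 2; omega
  · apply mkH_mem
    intro t ht
    simp only [hf]
    split_ifs with h
    · exact hPS _ (by omega)
    · exact hτ _ (hQS _ (by omega))

/-- The data of a pair of walks with the same ends. -/
structure Enc (G : Cub D) (S : Finset D) (r k : ℕ) (P Q : ℕ → D) (u : ℕ) (C : G.H (2 * r))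
    (b : Fin k → Bool) : Prop where
  ex : ∃ a : ℕ, 1 ≤ a ∧ 1 ≤ u ∧ u + a ≤ r ∧ C.len = 2 * a ∧
    (∀ t < u, P t = Q t) ∧ (∀ t, u + a ≤ t → t ≤ r → P t = Q t) ∧
    P u ≠ Q u ∧ P (u + a - 1) ≠ Q (u + a - 1) ∧
    (∀ t < a, C.sq (t : ℤ) = P (u + t)) ∧
    (∀ t < a, C.sq ((a + t : ℕ) : ℤ) = G.τ (Q (u + a - 1 - t))) ∧
    (∀ i, C.sq i ∈ S) ∧ k + 1 ≤ r + 1 ∧ r ≤ k + a ∧
    ∀ w : Fin k, b w = if w.1 + 1 < u then bit G (P w) (P (w.1 + 1)) else
      bit G (P (w.1 + (a + 1))) (P (w.1 + (a + 1) + 1))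

lemma exists_enc (G : Cub D) {g h0 : ℕ} (hG : G.Girth g) (hh : 2 * h0 ≤ g)
    (S : Finset D) (hτ : ∀ d ∈ S, G.τ d ∈ S) (r : ℕ)
    (P Q : ℕ → D) (hP : ∀ t < r, G.Fol (P t) (P (t + 1)))
    (hQ : ∀ t < r, G.Fol (Q t) (Q (t + 1))) (hPS : ∀ t ≤ r, P t ∈ S) (hQS : ∀ t ≤ r, Q t ∈ S)
    (h0' : P 0 = Q 0) (hr' : P r = Q r) (hne : ∃ t ≤ r, P t ≠ Q t) :
    ∃ u < r, ∃ (C : G.H (2 * r)) (b : Fin (r - h0) → Bool),
      Enc G S r (r - h0) P Q u C b := by
  classical
  set u := Nat.find hne with hu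
  have hu1 : u ≤ r ∧ P u ≠ Q u := Nat.find_spec hne
  have hu2 : ∀ t < u, P t = Q t := by
    intro t ht
    by_contra h
    exact Nat.find_min hne ht ⟨by omega, h⟩
  set v := Nat.findGreatest (fun t => P t ≠ Q t) r with hv
  have hv1 : P v ≠ Q v := by
    have := Nat.findGreatest_spec (P := fun t => P t ≠ Q t) hu1.1 hu1.2
    exact this
  have hv0 : v ≤ r := Nat.findGreatest_le r
  have huv : u ≤ v := by
    by_contra h
    exact hv1 (hu2 v (by omega))
  have hv2 : ∀ t, v < t → t ≤ r → P t = Q t := by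
    intro t h1 h2
    by_contra h
    exact Nat.findGreatest_is_greatest (P := fun t => P t ≠ Q t) h1 h2 h
  have hu0 : 1 ≤ u := by
    rcases Nat.eq_zero_or_pos u with h | h
    · exact absurd (h ▸ h0') hu1.2
    · exact h
  have hvr : v < r := by
    rcases Nat.lt_or_ge v r with h | h
    · exact h
    · have : v = r := by omega
      exact absurd (this ▸ hr') hv1
  obtain ⟨C, c1, c2, c3, c4⟩ := closed_of_pair G S hτ r P Q hP hQ hPS hQS u v hu0 huv hvr
    (hu2 _ (by omega)) (hv2 _ (by omega) (by omega)) hu1.2 hv1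
  have hg := hG _ C
  rw [c1] at hg
  refine ⟨u, by omega, C, fun w => if w.1 + 1 < u then bit G (P w) (P (w.1 + 1)) else
      bit G (P (w.1 + (v - u + 1 + 1))) (P (w.1 + (v - u + 1 + 1) + 1)), ⟨⟨v - u + 1, by omega,
      hu0, by omega, c1, hu2, fun t h1 h2 => hv2 t (by omega) h2, hu1.2, ?_, c2, ?_, c4,
      by omega, by omega, fun w => rfl⟩⟩⟩
  · rw [show u + (v - u + 1) - 1 = v by omega]; exact hv1
  · intro t ht
    rw [c3 t ht]
    congr 2
    omega

lemma enc_inj (G : Cub D) (S : Finset D) (r k : ℕ) (P Q P' Q' : ℕ → D)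
    (hP : ∀ t < r, G.Fol (P t) (P (t + 1))) (hQ : ∀ t < r, G.Fol (Q t) (Q (t + 1)))
    (hP' : ∀ t < r, G.Fol (P' t) (P' (t + 1))) (hQ' : ∀ t < r, G.Fol (Q' t) (Q' (t + 1)))
    (u : ℕ) (C : G.H (2 * r)) (b : Fin k → Bool) (h : Enc G S r k P Q u C b)
    (h' : Enc G S r k P' Q' u C b) : (∀ t ≤ r, P t = P' t) ∧ ∀ t ≤ r, Q t = Q' t := by
  obtain ⟨a, ha, hu, hua, hl, e1, e2, n1, n2, s1, s2, -, hk, hka, hb⟩ := h.ex
  obtain ⟨a', ha', -, hua', hl', e1', e2', n1', n2', s1', s2', -, -, -, hb'⟩ := h'.ex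
  obtain rfl : a = a' := by omega
  have m1 : ∀ t, u ≤ t → t < u + a → P t = P' t := by
    intro t h1 h2
    have x1 := s1 (t - u) (by omega)
    have x2 := s1' (t - u) (by omega)
    rw [x1, show u + (t - u) = t by omega] at x2
    exact x2
  have m2 : ∀ t, u ≤ t → t < u + a → Q t = Q' t := by
    intro t h1 h2
    have x1 := s2 (u + a - 1 - t) (by omega)
    have x2 := s2' (u + a - 1 - t) (by omega)
    rw [x1, show u + a - 1 - (u + a - 1 - t) = t by omega] at x2
    exact τinj G x2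
  have pu : P (u - 1) = P' (u - 1) := by
    have q1 := hP (u - 1) (by omega)
    have q2 := hQ (u - 1) (by omega)
    have q3 := hP' (u - 1) (by omega)
    have q4 := hQ' (u - 1) (by omega)
    rw [show u - 1 + 1 = u by omega] at q1 q2 q3 q4
    rw [← e1 (u - 1) (by omega)] at q2
    rw [← e1' (u - 1) (by omega)] at q4
    rw [← m1 u le_rfl (by omega)] at q3
    rw [← m2 u le_rfl (by omega)] at q4
    exact prev_unique G q1 q2 q3 q4 n1
  have pv : P (u + a) = P' (u + a) := by
    have q1 := hP (u + a - 1) (by omega)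
    have q2 := hQ (u + a - 1) (by omega)
    have q3 := hP' (u + a - 1) (by omega)
    have q4 := hQ' (u + a - 1) (by omega)
    rw [show u + a - 1 + 1 = u + a by omega] at q1 q2 q3 q4
    rw [← e2 (u + a) le_rfl hua] at q2
    rw [← e2' (u + a) le_rfl hua] at q4
    rw [← m1 (u + a - 1) (by omega) (by omega)] at q3
    rw [← m2 (u + a - 1) (by omega) (by omega)] at q4
    exact next_unique G q1 q2 q3 q4 n2
  have low : ∀ j, j + 1 ≤ u → P (u - 1 - j) = P' (u - 1 - j) := by
    intro j
    induction j with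
    | zero => intro _; simpa using pu
    | succ j ih =>
      intro hj
      have ih' := ih (by omega)
      have q1 := hP (u - 1 - (j + 1)) (by omega)
      have q2 := hP' (u - 1 - (j + 1)) (by omega)
      rw [show u - 1 - (j + 1) + 1 = u - 1 - j by omega] at q1 q2
      rw [← ih'] at q2
      have b1 := hb ⟨u - 1 - (j + 1), by omega⟩
      have b2 := hb' ⟨u - 1 - (j + 1), by omega⟩
      rw [if_pos (by simp only []; omega)] at b1 b2
      simp only [] at b1 b2
      rw [show u - 1 - (j + 1) + 1 = u - 1 - j by omega] at b1 b2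
      rw [← ih'] at b2
      exact bit_prev G q1 q2 (b1.symm.trans b2)
  have high : ∀ j, u + a + j ≤ r → P (u + a + j) = P' (u + a + j) := by
    intro j
    induction j with
    | zero => intro _; simpa using pv
    | succ j ih =>
      intro hj
      have ih' := ih (by omega)
      have q1 := hP (u + a + j) (by omega)
      have q2 := hP' (u + a + j) (by omega)
      rw [← ih'] at q2
      have b1 := hb ⟨u - 1 + j, by omega⟩
      have b2 := hb' ⟨u - 1 + j, by omega⟩
      rw [if_neg (by simp only []; omega)] at b1 b2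
      simp only [] at b1 b2
      rw [show u - 1 + j + (a + 1) = u + a + j by omega] at b1 b2
      rw [← ih'] at b2
      exact bit_next G q1 q2 (b1.symm.trans b2)
  have allP : ∀ t ≤ r, P t = P' t := by
    intro t ht
    rcases Nat.lt_or_ge t u with h1 | h1
    · have := low (u - 1 - t) (by omega)
      rwa [show u - 1 - (u - 1 - t) = t by omega] at this
    · rcases Nat.lt_or_ge t (u + a) with h2 | h2
      · exact m1 t h1 h2
      · have := high (t - (u + a)) (by omega)
        rwa [show u + a + (t - (u + a)) = t by omega] at this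
  refine ⟨allP, ?_⟩
  intro t ht
  rcases Nat.lt_or_ge t u with h1 | h1
  · rw [← e1 t h1, ← e1' t h1]; exact allP t ht
  · rcases Nat.lt_or_ge t (u + a) with h2 | h2
    · exact m2 t h1 h2
    · rw [← e2 t h2 ht, ← e2' t h2 ht]; exact allP t ht

/-- Extension of a walk to all natural numbers. -/
def ex {r : ℕ} (p : Fin (r + 1) → D) (t : ℕ) : D := p ⟨min t r, by omega⟩

lemma ex_eq {r : ℕ} (p : Fin (r + 1) → D) (t : Fin (r + 1)) : ex p t.1 = p t := by
  unfold ex
  congr 1
  apply Fin.ext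
  simp only []
  omega

lemma ex_fol (G : Cub D) {r : ℕ} (p : Fin (r + 1) → D)
    (h : ∀ i : Fin r, G.Fol (p i.castSucc) (p i.succ)) (t : ℕ) (ht : t < r) :
    G.Fol (ex p t) (ex p (t + 1)) := by
  have h1 := h ⟨t, ht⟩
  rw [← ex_eq p (Fin.castSucc ⟨t, ht⟩), ← ex_eq p (Fin.succ ⟨t, ht⟩)] at h1
  exact h1

open Classical in
/-- The number of pairs with the same ends. -/
lemma pairs_ge {r : ℕ} (W : Finset (Fin (r + 1) → D)) (S : Finset D)
    (hW : ∀ p ∈ W, p 0 ∈ S ∧ p (Fin.last r) ∈ S) :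
    (W.card : ℝ) ^ 2 ≤ (S.card : ℝ) ^ 2 *
      (((W ×ˢ W).filter fun x => x.1 0 = x.2 0 ∧
        x.1 (Fin.last r) = x.2 (Fin.last r)).card : ℝ) := by
  set A : Finset (D × D) := S ×ˢ S with hA
  set F : D × D → Finset (Fin (r + 1) → D) := fun ab =>
    W.filter fun p => (p 0, p (Fin.last r)) = ab with hF
  have h1 : W.card = ∑ ab ∈ A, (F ab).card := by
    apply Finset.card_eq_sum_card_fiberwise
    intro p hp
    simp only [hA, Finset.coe_product, Set.mem_prod, Finset.mem_coe]
    exact hW p hp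
  have h2 : ((W ×ˢ W).filter fun x => x.1 0 = x.2 0 ∧
        x.1 (Fin.last r) = x.2 (Fin.last r)).card = ∑ ab ∈ A, (F ab).card ^ 2 := by
    rw [Finset.card_eq_sum_card_fiberwise (f := fun x => (x.1 0, x.1 (Fin.last r))) (t := A)]
    · apply Finset.sum_congr rfl
      intro ab _
      rw [sq, ← Finset.card_product]
      congr 1
      ext ⟨p, q⟩
      simp only [hF, Finset.mem_filter, Finset.mem_product]
      constructor
      · rintro ⟨⟨⟨hp, hq⟩, e1, e2⟩, e3⟩
        exact ⟨⟨hp, e3⟩, hq, by rw [← e1, ← e2]; exact e3⟩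
      · rintro ⟨⟨hp, e3⟩, hq, e4⟩
        rw [← e4] at e3
        simp only [Prod.mk.injEq] at e3
        exact ⟨⟨⟨hp, hq⟩, e3.1, e3.2⟩, by rw [e3.1, e3.2]; exact e4⟩
    · intro x hx
      simp only [Finset.coe_filter, Finset.mem_product, Set.mem_ofPred_eq] at hx
      simp only [hA, Finset.coe_product, Set.mem_prod, Finset.mem_coe]
      exact hW _ hx.1.1
  have h3 := sq_sum_le_card_mul_sum_sq (s := A) (f := fun ab => ((F ab).card : ℝ))
  have h4 : (A.card : ℝ) = (S.card : ℝ) ^ 2 := by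
    rw [hA, Finset.card_product]; push_cast; ring
  rw [h2, h1, ← h4]
  push_cast
  exact h3

end CountAux

open CountAux in
/-- Pairs of different walks with `r` steps inside `S` with the same first and the same last
dart give many closed walks of length at most `2 r` inside `S`. -/
theorem count_closed (G : Cub D) [Fintype D] {g h0 : ℕ} (hG : G.Girth g) (hh : 2 * h0 ≤ g)
    (S : Finset D) (hS : S.Nonempty) (hτ : ∀ d ∈ S, G.τ d ∈ S) (r : ℕ) (hr : h0 ≤ r)
    (hT : 2 * (S.card : ℝ) ^ 2 ≤ ((G.walks S r).card : ℝ)) :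
    ((G.walks S r).card : ℝ) ^ 2 / (2 * (S.card : ℝ) ^ 2) ≤
      r * 2 ^ (r - h0) *
        (open Classical in
          ((Finset.univ.filter fun C : G.H (2 * r) => ∀ i : ℤ, C.sq i ∈ S).card : ℝ)) := by
  classical
  set W := G.walks S r with hW
  have hmem : ∀ p, p ∈ W ↔ (∀ i, p i ∈ S) ∧ ∀ i : Fin r, G.Fol (p i.castSucc) (p i.succ) := by
    intro p
    rw [hW, Cub.walks]
    simp only [Finset.mem_filter, Finset.mem_univ, true_and]
  set HS : Finset (G.H (2 * r)) := Finset.univ.filter fun C => ∀ i : ℤ, C.sq i ∈ S with hHS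
  set E := (W ×ˢ W).filter fun x => x.1 0 = x.2 0 ∧ x.1 (Fin.last r) = x.2 (Fin.last r) with hE
  have hE1 : (W.card : ℝ) ^ 2 ≤ (S.card : ℝ) ^ 2 * (E.card : ℝ) := by
    apply pairs_ge
    intro p hp
    exact ⟨((hmem p).1 hp).1 _, ((hmem p).1 hp).1 _⟩
  set E' := E.filter fun x => x.1 ≠ x.2 with hE'
  have hE2 : E.card ≤ E'.card + W.card := by
    rw [← Finset.card_filter_add_card_filter_not (s := E) (fun x => x.1 ≠ x.2)]
    apply Nat.add_le_add_left
    apply Finset.card_le_card_of_injOn (fun x => x.1)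
    · intro x hx
      simp only [hE, Finset.coe_filter, Finset.mem_filter, Finset.mem_product,
        Set.mem_ofPred_eq] at hx
      exact hx.1.1.1
    · intro x hx y hy hxy
      simp only [Finset.coe_filter, Set.mem_ofPred_eq, not_not] at hx hy
      have a1 := hx.2
      have a2 := hy.2
      simp only [] at hxy
      exact Prod.ext hxy (by rw [← a1, ← a2]; exact hxy)
  have hE3 : E'.card ≤ r * 2 ^ (r - h0) * HS.card := by
    have key : ∀ x ∈ E', ∃ z : Fin r × ((Fin (r - h0) → Bool) × G.H (2 * r)),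
        z.2.2 ∈ HS ∧ Enc G S r (r - h0) (ex x.1) (ex x.2) z.1.1 z.2.2 z.2.1 := by
      intro x hx
      simp only [hE', hE, Finset.mem_filter, Finset.mem_product] at hx
      obtain ⟨⟨⟨hp, hq⟩, e1, e2⟩, hne⟩ := hx
      have wp := (hmem _).1 hp
      have wq := (hmem _).1 hq
      have hd : ∃ t ≤ r, ex x.1 t ≠ ex x.2 t := by
        by_contra hcon
        push Not at hcon
        apply hne
        funext i
        have := hcon i.1 (by omega)
        rwa [ex_eq, ex_eq] at this
      obtain ⟨u, hu, C, b, hen⟩ := exists_enc G hG hh S hτ r (ex x.1) (ex x.2)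
        (ex_fol G _ wp.2) (ex_fol G _ wq.2) (fun t _ => wp.1 _) (fun t _ => wq.1 _)
        (by
          have a1 := ex_eq x.1 0
          have a2 := ex_eq x.2 0
          simp only [Fin.val_zero] at a1 a2
          rw [a1, a2]; exact e1)
        (by
          have a1 := ex_eq x.1 (Fin.last r)
          have a2 := ex_eq x.2 (Fin.last r)
          simp only [Fin.val_last] at a1 a2
          rw [a1, a2]; exact e2) hd
      refine ⟨⟨⟨u, hu⟩, b, C⟩, ?_, hen⟩
      obtain ⟨a, -, -, -, -, -, -, -, -, -, -, hs, -⟩ := hen.ex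
      simp only [hHS, Finset.mem_filter, Finset.mem_univ, true_and]
      exact hs
    rcases E'.eq_empty_or_nonempty with h | ⟨x0, hx0⟩
    · rw [h]; simp
    have : Nonempty (Fin r × ((Fin (r - h0) → Bool) × G.H (2 * r))) :=
      ⟨(key x0 hx0).choose⟩
    choose! φ hφ1 hφ2 using key
    have hcard : ((Finset.univ : Finset (Fin r)) ×ˢ
        ((Finset.univ : Finset (Fin (r - h0) → Bool)) ×ˢ HS)).card
        = r * 2 ^ (r - h0) * HS.card := by
      rw [Finset.card_product, Finset.card_product]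
      simp only [Finset.card_univ, Fintype.card_fin, Fintype.card_fun, Fintype.card_bool]
      ring
    rw [← hcard]
    apply Finset.card_le_card_of_injOn φ
    · intro x hx
      simp only [Finset.coe_product, Set.mem_prod, Finset.coe_univ, Set.mem_univ, true_and,
        Finset.mem_coe]
      exact hφ1 x hx
    · intro x hx y hy hxy
      have e1 := hφ2 x hx
      have e2 := hφ2 y hy
      rw [← hxy] at e2
      simp only [hE', hE, Finset.coe_filter, Finset.mem_filter, Finset.mem_product,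
        Set.mem_ofPred_eq] at hx hy
      have wx1 := (hmem _).1 hx.1.1.1
      have wx2 := (hmem _).1 hx.1.1.2
      have wy1 := (hmem _).1 hy.1.1.1
      have wy2 := (hmem _).1 hy.1.1.2
      obtain ⟨q1, q2⟩ := enc_inj G S r (r - h0) _ _ _ _ (ex_fol G _ wx1.2) (ex_fol G _ wx2.2)
        (ex_fol G _ wy1.2) (ex_fol G _ wy2.2) _ _ _ e1 e2
      apply Prod.ext
      · funext i
        have := q1 i.1 (by omega)
        rwa [ex_eq, ex_eq] at this
      · funext i
        have := q2 i.1 (by omega)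
        rwa [ex_eq, ex_eq] at this
  have hs0 : (0 : ℝ) < (S.card : ℝ) ^ 2 := by
    have := hS.card_pos
    positivity
  have hT0 : (0 : ℝ) ≤ (W.card : ℝ) := Nat.cast_nonneg _
  have r2 : (E.card : ℝ) ≤ (E'.card : ℝ) + (W.card : ℝ) := by exact_mod_cast hE2
  have r3 : (E'.card : ℝ) ≤ r * 2 ^ (r - h0) * (HS.card : ℝ) := by exact_mod_cast hE3
  refine le_trans ?_ r3
  rw [div_le_iff₀ (by positivity)]
  nlinarith [mul_le_mul_of_nonneg_left r2 hs0.le, mul_le_mul_of_nonneg_right hT hT0]

end Pool.Agent.CP51
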