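import Pool.Agent.CP51.Defs

/-!
# Pairs of walks with the same ends: the closed walk between them

Two different walks with `r` steps with the same first and the same last dart differ first at
time `a` and last at time `b`; running along the first from `a` to `b` and back along the second
gives a closed non-backtracking walk of length `2 (b - a + 1) ≤ 2 r`.
-/

namespace Pool.Agent.CP51

variable {D : Type}

private lemma sinj_CountPairs (G : Cub D) {x y : D} (h : G.σ x = G.σ y) : x = y := by
  have := congrArg (fun z => G.σ (G.σ z)) h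
  simpa [G.σσσ] using this

private lemma tinj_CountPairs (G : Cub D) {x y : D} (h : G.τ x = G.τ y) : x = y := by
  have := congrArg (fun z => G.τ z) h
  simpa [G.ττ] using this

private lemma sse_CountPairs (G : Cub D) {x y : D} (h : G.σ (G.σ x) = y) : x = G.σ y := by
  rw [← h, G.σσσ]

private lemma back_CountPairs (G : Cub D) {x y z : D} (h1 : G.Fol x z) (h2 : G.Fol y z)
    (hne : x ≠ y) : G.Fol x (G.τ y) := by
  have hne' : G.τ x ≠ G.τ y := fun h => hne (tinj_CountPairs G h)
  unfold Cub.Fol at *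
  generalize G.τ x = u at *
  generalize G.τ y = v at *
  rcases h1 with h1 | h1 <;> rcases h2 with h2 | h2
  · exact absurd (sinj_CountPairs G (h1.symm.trans h2)) hne'
  · right
    have : u = G.σ v := sinj_CountPairs G (h1.symm.trans h2)
    rw [this, G.σσσ]
  · left
    exact (sinj_CountPairs G (h2.symm.trans h1))
  · exact absurd (sinj_CountPairs G (sinj_CountPairs G (h1.symm.trans h2))) hne'

private lemma fwd_CountPairs (G : Cub D) {u x y : D} (h1 : G.Fol u x) (h2 : G.Fol u y)
    (hne : x ≠ y) : G.Fol (G.τ y) x := by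
  have h := back_CountPairs G (Cub.Fol.rev h2) (Cub.Fol.rev h1)
    (fun h => hne (tinj_CountPairs G h).symm)
  rwa [G.ττ] at h

private lemma pred_CountPairs (G : Cub D) {u u' x y : D} (h1 : G.Fol u x) (h2 : G.Fol u y)
    (h3 : G.Fol u' x) (h4 : G.Fol u' y) (hne : x ≠ y) : u = u' := by
  apply tinj_CountPairs G
  unfold Cub.Fol at *
  generalize G.τ u = v at *
  generalize G.τ u' = v' at *
  rcases h1 with h1 | h1 <;> rcases h2 with h2 | h2
  · exact absurd (h1.trans h2.symm) hne
  · rcases h3 with h3 | h3 <;> rcases h4 with h4 | h4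
    · exact absurd (h3.trans h4.symm) hne
    · exact sinj_CountPairs G (h1.symm.trans h3)
    · exfalso
      have e1 : v = G.σ v' := sinj_CountPairs G (h1.symm.trans h3)
      have e2 : G.σ v = v' := sinj_CountPairs G (h2.symm.trans h4)
      rw [← e2] at e1
      have e3 : G.σ v = v := by
        have := congrArg G.σ e1
        rw [G.σσσ] at this
        exact this
      exact G.σne v e3
    · exact absurd (h3.trans h4.symm) hne
  · rcases h3 with h3 | h3 <;> rcases h4 with h4 | h4
    · exact absurd (h3.trans h4.symm) hne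
    · exfalso
      have e1 : G.σ v = v' := sinj_CountPairs G (h1.symm.trans h3)
      have e2 : v = G.σ v' := sinj_CountPairs G (h2.symm.trans h4)
      rw [← e1] at e2
      have e3 : G.σ v = v := by
        have := congrArg G.σ e2
        rw [G.σσσ] at this
        exact this
      exact G.σne v e3
    · exact sinj_CountPairs G (h2.symm.trans h4)
    · exact absurd (h3.trans h4.symm) hne
  · exact absurd (h1.trans h2.symm) hne

private lemma succ_CountPairs (G : Cub D) {x y z z' : D} (h1 : G.Fol x z) (h2 : G.Fol y z)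
    (h3 : G.Fol x z') (h4 : G.Fol y z') (hne : x ≠ y) : z = z' :=
  tinj_CountPairs G (pred_CountPairs G (Cub.Fol.rev h1) (Cub.Fol.rev h2) (Cub.Fol.rev h3)
    (Cub.Fol.rev h4) fun h => hne (tinj_CountPairs G h))

private lemma fdet_CountPairs (G : Cub D) {x y y' : D} (h1 : G.Fol x y) (h2 : G.Fol x y')
    (h : y = G.σ (G.τ x) ↔ y' = G.σ (G.τ x)) : y = y' := by
  rcases h1 with h1 | h1
  · rw [h1, ← h.1 h1]
  · rcases h2 with h2 | h2
    · rw [h2, ← h.2 h2]
    · rw [h1, h2]

private lemma bdet_CountPairs (G : Cub D) {x x' y : D} (h1 : G.Fol x y) (h2 : G.Fol x' y)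
    (h : y = G.σ (G.τ x) ↔ y = G.σ (G.τ x')) : x = x' := by
  rcases h1 with h1 | h1
  · exact tinj_CountPairs G (sinj_CountPairs G (h1.symm.trans (h.1 h1)))
  · rcases h2 with h2 | h2
    · exact tinj_CountPairs G (sinj_CountPairs G ((h.2 h2).symm.trans h2))
    · exact tinj_CountPairs G (sinj_CountPairs G (sinj_CountPairs G (h1.symm.trans h2)))

/-- A closed walk from a cyclic sequence. -/
theorem mk_closed (G : Cub D) (w : ℕ → D) (m l : ℕ) (hm : 1 ≤ m) (hml : m ≤ l)
    (h1 : ∀ t, t + 1 < m → G.Fol (w t) (w (t + 1))) (h2 : G.Fol (w (m - 1)) (w 0)) :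
    ∃ C : G.H l, C.len = m ∧ (∀ t : ℕ, t < m → C.sq (t : ℤ) = w t) ∧
      ∀ i : ℤ, ∃ t : ℕ, t < m ∧ C.sq i = w t := by
  obtain ⟨k, rfl⟩ : ∃ k, m = k + 1 := ⟨m - 1, by omega⟩
  have hv : ∀ z : ZMod (k + 1), (z + 1).val = (z.val + 1) % (k + 1) := by
    intro z
    rw [ZMod.val_add, ZMod.val_one_eq_one_mod]
    simp
  refine ⟨⟨⟨k, by omega⟩, fun z => w z.val, ?_⟩, rfl, ?_, ?_⟩
  · intro z
    have hz : z.val < k + 1 := ZMod.val_lt z
    change G.Fol (w z.val) (w (z + 1).val)
    rw [hv z]
    by_cases h : z.val + 1 < k + 1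
    · rw [Nat.mod_eq_of_lt h]
      exact h1 _ h
    · have e : z.val + 1 = k + 1 := by omega
      rw [e, Nat.mod_self]
      have e2 : z.val = k + 1 - 1 := by omega
      rw [e2]
      exact h2
  · intro t ht
    change w (((t : ℤ) : ZMod (k + 1)).val) = w t
    rw [Int.cast_natCast, ZMod.val_natCast, Nat.mod_eq_of_lt ht]
  · intro i
    exact ⟨((i : ℤ) : ZMod (k + 1)).val, ZMod.val_lt _, rfl⟩

/-- The closed walk `C` lies between `P` and `Q` and starts at time `a`. -/
def Betw (G : Cub D) {l : ℕ} (r : ℕ) (P Q : ℕ → D) (a : ℕ) (C : G.H l) : Prop :=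
  ∃ n, C.len = 2 * n ∧ 1 ≤ n ∧ 1 ≤ a ∧ a + n ≤ r ∧ (∀ t < n, C.sq (t : ℤ) = P (a + t)) ∧
    (∀ t < n, C.sq ((n + t : ℕ) : ℤ) = G.τ (Q (a + n - 1 - t))) ∧ (∀ t < a, P t = Q t) ∧
    (∀ t, a + n ≤ t → t ≤ r → P t = Q t) ∧ P a ≠ Q a ∧ P (a + n - 1) ≠ Q (a + n - 1)

private lemma ex_CountPairs (G : Cub D) {r : ℕ} {P Q : ℕ → D}
    (hP : ∀ t < r, G.Fol (P t) (P (t + 1))) (hQ : ∀ t < r, G.Fol (Q t) (Q (t + 1)))
    (h0 : P 0 = Q 0) (hl : P r = Q r) (hne : ∃ t, t ≤ r ∧ P t ≠ Q t) (S : D → Prop)
    (hSP : ∀ t ≤ r, S (P t)) (hSQ : ∀ t ≤ r, S (G.τ (Q t))) :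
    ∃ a < r, ∃ C : G.H (2 * r), Betw G r P Q a C ∧ ∀ i : ℤ, S (C.sq i) := by
  classical
  let a := Nat.find hne
  have ha : a ≤ r ∧ P a ≠ Q a := Nat.find_spec hne
  have hal : ∀ t < a, P t = Q t := by
    intro t ht
    by_contra h
    exact Nat.find_min hne ht ⟨by omega, h⟩
  let b := Nat.findGreatest (fun t => P t ≠ Q t) r
  have hb : P b ≠ Q b := Nat.findGreatest_spec (P := fun t => P t ≠ Q t) ha.1 ha.2
  have hbr : b ≤ r := Nat.findGreatest_le r
  have hab : a ≤ b := Nat.le_findGreatest ha.1 ha.2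
  have hbl : ∀ t, b < t → t ≤ r → P t = Q t := by
    intro t h1 h2
    by_contra h
    exact Nat.findGreatest_is_greatest h1 h2 h
  clear_value a b
  have ha0 : a ≠ 0 := by
    rintro rfl
    exact ha.2 h0
  have hbr' : b ≠ r := by
    rintro rfl
    exact hb hl
  obtain ⟨n, hn⟩ : ∃ n, b + 1 = a + n := ⟨b + 1 - a, by omega⟩
  have hn1 : 1 ≤ n := by omega
  obtain ⟨C, hC1, hC2, hC3⟩ := mk_closed G
    (fun t => if t < n then P (a + t) else G.τ (Q (a + n - 1 - (t - n)))) (2 * n) (2 * r)
    (by omega) (by omega)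
    (by
      intro t ht
      by_cases h1 : t + 1 < n
      · rw [if_pos (by omega), if_pos h1]
        exact hP (a + t) (by omega)
      · by_cases h2 : t < n
        · rw [if_pos h2, if_neg h1]
          have e1 : a + t = b := by omega
          have e2 : a + n - 1 - (t + 1 - n) = b := by omega
          rw [e1, e2]
          refine back_CountPairs G (z := P (b + 1)) (hP b (by omega)) ?_ hb
          rw [hbl (b + 1) (by omega) (by omega)]
          exact hQ b (by omega)
        · rw [if_neg h2, if_neg h1]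
          have e1 : a + n - 1 - (t - n) = a + n - 1 - (t + 1 - n) + 1 := by omega
          rw [e1]
          exact Cub.Fol.rev (hQ _ (by omega)))
    (by
      rw [if_neg (by omega), if_pos (by omega)]
      have e1 : a + n - 1 - (2 * n - 1 - n) = a := by omega
      rw [e1, Nat.add_zero]
      obtain ⟨a', rfl⟩ : ∃ a', a = a' + 1 := ⟨a - 1, by omega⟩
      refine fwd_CountPairs G (u := P a') (hP a' (by omega)) ?_ ha.2
      rw [hal a' (by omega)]
      exact hQ a' (by omega))
  refine ⟨a, by omega, C, ⟨n, hC1, hn1, by omega, by omega, ?_, ?_, hal, ?_, ha.2, ?_⟩, ?_⟩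
  · intro t ht
    rw [hC2 t (by omega), if_pos ht]
  · intro t ht
    rw [hC2 (n + t) (by omega), if_neg (by omega)]
    have e1 : n + t - n = t := by omega
    rw [e1]
  · intro t h1 h2
    exact hbl t (by omega) h2
  · have e1 : a + n - 1 = b := by omega
    rw [e1]
    exact hb
  · intro i
    obtain ⟨t, ht, h⟩ := hC3 i
    rw [h]
    by_cases h1 : t < n
    · rw [if_pos h1]
      exact hSP _ (by omega)
    · rw [if_neg h1]
      exact hSQ _ (by omega)

private lemma det_CountPairs (G : Cub D) {l r : ℕ} {P Q P' Q' : ℕ → D} {a : ℕ} {C : G.H l}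
    (hP : ∀ t < r, G.Fol (P t) (P (t + 1))) (hQ : ∀ t < r, G.Fol (Q t) (Q (t + 1)))
    (hP' : ∀ t < r, G.Fol (P' t) (P' (t + 1))) (hQ' : ∀ t < r, G.Fol (Q' t) (Q' (t + 1)))
    (h : Betw G r P Q a C) (h' : Betw G r P' Q' a C)
    (hc : ∀ t < r, (t + 1 < a ∨ a + C.len / 2 ≤ t) →
      (P (t + 1) = G.σ (G.τ (P t)) ↔ P' (t + 1) = G.σ (G.τ (P' t)))) :
    ∀ t ≤ r, P t = P' t ∧ Q t = Q' t := by
  obtain ⟨n, e1, e2, e3, e4, e5, e6, e7, e8, e9, e10⟩ := h
  obtain ⟨n', f1, -, -, -, f5, f6, f7, f8, f9, f10⟩ := h'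
  obtain rfl : n = n' := by omega
  have hlen : C.len / 2 = n := by omega
  rw [hlen] at hc
  have hPm : ∀ t < n, P (a + t) = P' (a + t) := fun t ht => (e5 t ht).symm.trans (f5 t ht)
  have hQm' : ∀ t < n, Q (a + n - 1 - t) = Q' (a + n - 1 - t) := fun t ht =>
    tinj_CountPairs G ((e6 t ht).symm.trans (f6 t ht))
  have hQm : ∀ t < n, Q (a + t) = Q' (a + t) := by
    intro t ht
    have := hQm' (n - 1 - t) (by omega)
    rwa [show a + n - 1 - (n - 1 - t) = a + t by omega] at this
  obtain ⟨a', rfl⟩ : ∃ a', a = a' + 1 := ⟨a - 1, by omega⟩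
  obtain ⟨b, hb⟩ : ∃ b, b = a' + n := ⟨_, rfl⟩
  have hs : P a' = P' a' := by
    refine pred_CountPairs G (hP a' (by omega)) (y := Q (a' + 1)) ?_ ?_ ?_ e9
    · rw [e7 a' (by omega)]
      exact hQ a' (by omega)
    · rw [show P (a' + 1) = P' (a' + 1) from hPm 0 (by omega)]
      exact hP' a' (by omega)
    · rw [show Q (a' + 1) = Q' (a' + 1) from hQm 0 (by omega), f7 a' (by omega)]
      exact hQ' a' (by omega)
  have hPb : P b = P' b := by
    have := hPm (n - 1) (by omega)
    rwa [show a' + 1 + (n - 1) = b by omega] at this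
  have hQb : Q b = Q' b := by
    have := hQm (n - 1) (by omega)
    rwa [show a' + 1 + (n - 1) = b by omega] at this
  have hnb : P b ≠ Q b := by
    rwa [show a' + 1 + n - 1 = b by omega] at e10
  have hu : P (b + 1) = P' (b + 1) := by
    refine succ_CountPairs G (hP b (by omega)) (y := Q b) ?_ ?_ ?_ hnb
    · rw [e8 (b + 1) (by omega) (by omega)]
      exact hQ b (by omega)
    · rw [hPb]
      exact hP' b (by omega)
    · rw [hQb, f8 (b + 1) (by omega) (by omega)]
      exact hQ' b (by omega)
  have hup : ∀ k, b + 1 + k ≤ r → P (b + 1 + k) = P' (b + 1 + k) := by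
    intro k
    induction k with
    | zero => intro _; exact hu
    | succ k ih =>
      intro hk
      have h1 := ih (by omega)
      refine fdet_CountPairs G (x := P (b + 1 + k)) (hP _ (by omega)) ?_ ?_
      · rw [h1]
        exact hP' _ (by omega)
      · have := hc (b + 1 + k) (by omega) (Or.inr (by omega))
        rw [h1] at this ⊢
        exact this
  have hdn : ∀ k, k ≤ a' → P (a' - k) = P' (a' - k) := by
    intro k
    induction k with
    | zero => intro _; exact hs
    | succ k ih =>
      intro hk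
      have h1 := ih (by omega)
      obtain ⟨j, hj⟩ : ∃ j, a' - k = j + 1 := ⟨a' - k - 1, by omega⟩
      rw [show a' - (k + 1) = j by omega]
      rw [hj] at h1
      refine bdet_CountPairs G (y := P (j + 1)) (hP _ (by omega)) ?_ ?_
      · rw [h1]
        exact hP' _ (by omega)
      · have := hc j (by omega) (Or.inl (by omega))
        rw [h1] at this ⊢
        exact this
  have hPP : ∀ t ≤ r, P t = P' t := by
    intro t ht
    by_cases h1 : t ≤ a'
    · have := hdn (a' - t) (by omega)
      rwa [show a' - (a' - t) = t by omega] at this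
    · by_cases h2 : t ≤ b
      · have := hPm (t - (a' + 1)) (by omega)
        rwa [show a' + 1 + (t - (a' + 1)) = t by omega] at this
      · have := hup (t - (b + 1)) (by omega)
        rwa [show b + 1 + (t - (b + 1)) = t by omega] at this
  intro t ht
  refine ⟨hPP t ht, ?_⟩
  by_cases h1 : t ≤ a'
  · rw [← e7 t (by omega), ← f7 t (by omega)]
    exact hPP t ht
  · by_cases h2 : t ≤ b
    · have := hQm (t - (a' + 1)) (by omega)
      rwa [show a' + 1 + (t - (a' + 1)) = t by omega] at this
    · rw [← e8 t (by omega) ht, ← f8 t (by omega) ht]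
      exact hPP t ht

/-- The number of pairs of different walks in `S` with the same ends is at most
`r 2 ^ (r - h0)` times the number of closed walks in `S` of length at most `2 r`. -/
theorem pairs_le (G : Cub D) [Fintype D] {g h0 : ℕ} (hG : G.Girth g) (hh : 2 * h0 ≤ g)
    (S : Finset D) (hτ : ∀ d ∈ S, G.τ d ∈ S) (r : ℕ) (hr : h0 ≤ r) :
    (open Classical in
      ((G.walks S r ×ˢ G.walks S r).filter fun pq : (Fin (r + 1) → D) × (Fin (r + 1) → D) =>
        pq.1 ≠ pq.2 ∧ pq.1 0 = pq.2 0 ∧ pq.1 (Fin.last r) = pq.2 (Fin.last r)).card) ≤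
    r * 2 ^ (r - h0) *
      (open Classical in
        (Finset.univ.filter fun C : G.H (2 * r) => ∀ i : ℤ, C.sq i ∈ S).card) := by
  classical
  let sq : (Fin (r + 1) → D) → ℕ → D := fun p t => p ⟨min t r, by omega⟩
  have hsq : ∀ (p : Fin (r + 1) → D) (i : Fin (r + 1)), p i = sq p i.1 := by
    intro p i
    have : (⟨min i.1 r, by omega⟩ : Fin (r + 1)) = i := by
      apply Fin.ext
      simp
      omega
    change p i = p _
    rw [this]
  have hwalk : ∀ p ∈ G.walks S r, (∀ t < r, G.Fol (sq p t) (sq p (t + 1))) ∧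
      ∀ t ≤ r, sq p t ∈ S := by
    intro p hp
    rw [Cub.walks, Finset.mem_filter] at hp
    refine ⟨fun t ht => ?_, fun t _ => hp.2.1 _⟩
    have h := hp.2.2 ⟨t, ht⟩
    rw [hsq p, hsq p] at h
    exact h
  have h0' : ∀ p : Fin (r + 1) → D, p 0 = sq p 0 := fun p => hsq p 0
  have hl' : ∀ p : Fin (r + 1) → D, p (Fin.last r) = sq p r := fun p => hsq p (Fin.last r)
  let T := (G.walks S r ×ˢ G.walks S r).filter fun pq =>
        pq.1 ≠ pq.2 ∧ pq.1 0 = pq.2 0 ∧ pq.1 (Fin.last r) = pq.2 (Fin.last r)
  let CS := Finset.univ.filter fun C : G.H (2 * r) => ∀ i : ℤ, C.sq i ∈ S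
  have hsub : T ⊆ (Finset.range r ×ˢ CS).biUnion
      fun aC => T.filter fun pq => Betw G r (sq pq.1) (sq pq.2) aC.1 aC.2 := by
    intro pq hpq
    have hpq' := hpq
    simp only [T, Finset.mem_filter, Finset.mem_product] at hpq'
    obtain ⟨⟨h1, h2⟩, h3, h4, h5⟩ := hpq'
    obtain ⟨k1, k2⟩ := hwalk _ h1
    obtain ⟨k3, k4⟩ := hwalk _ h2
    have hne : ∃ t, t ≤ r ∧ sq pq.1 t ≠ sq pq.2 t := by
      by_contra hcon
      push Not at hcon
      apply h3
      funext i
      rw [hsq pq.1, hsq pq.2]
      exact hcon _ (by omega)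
    obtain ⟨a, ha, C, hC, hCS⟩ := ex_CountPairs G k1 k3 (by rw [← h0', ← h0']; exact h4)
      (by rw [← hl', ← hl']; exact h5) hne (fun d => d ∈ S) k2 (fun t ht => hτ _ (k4 t ht))
    rw [Finset.mem_biUnion]
    refine ⟨(a, C), ?_, ?_⟩
    · rw [Finset.mem_product]
      refine ⟨Finset.mem_range.2 ha, ?_⟩
      simp only [CS, Finset.mem_filter, Finset.mem_univ, true_and]
      exact hCS
    · rw [Finset.mem_filter]
      exact ⟨hpq, hC⟩
  have hfib : ∀ aC ∈ Finset.range r ×ˢ CS,
      (T.filter fun pq => Betw G r (sq pq.1) (sq pq.2) aC.1 aC.2).card ≤ 2 ^ (r - h0) := by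
    rintro ⟨a, C⟩ haC
    simp only
    rcases (T.filter fun pq => Betw G r (sq pq.1) (sq pq.2) a C).eq_empty_or_nonempty with
      he | ⟨pq0, hpq0⟩
    · rw [he, Finset.card_empty]
      exact Nat.zero_le _
    have hB0 := (Finset.mem_filter.1 hpq0).2
    obtain ⟨n, hn1, hn2, hn3, hn4, -⟩ := hB0
    have hgn : h0 ≤ n := by
      have := hG _ C
      omega
    let F : Finset ℕ := Finset.range r \ Finset.Icc (a - 1) (a + n - 1)
    have hF : F.card ≤ r - h0 := by
      have h1 : Finset.Icc (a - 1) (a + n - 1) ⊆ Finset.range r := by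
        intro t ht
        rw [Finset.mem_Icc] at ht
        rw [Finset.mem_range]
        omega
      rw [Finset.card_sdiff_of_subset h1, Finset.card_range, Nat.card_Icc]
      omega
    have hinj : (T.filter fun pq => Betw G r (sq pq.1) (sq pq.2) a C).card ≤
        F.powerset.card := by
      refine Finset.card_le_card_of_injOn
        (fun pq => F.filter fun t => sq pq.1 (t + 1) = G.σ (G.τ (sq pq.1 t))) ?_ ?_
      · intro pq _
        simp only [Finset.coe_powerset, Set.mem_preimage, Set.mem_powerset_iff,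
          Finset.coe_subset]
        exact Finset.filter_subset _ _
      · intro pq hpq pq' hpq' he
        simp only at he
        have hm := Finset.mem_filter.1 (Finset.mem_coe.1 hpq)
        have hm' := Finset.mem_filter.1 (Finset.mem_coe.1 hpq')
        have hT := hm.1
        have hT' := hm'.1
        simp only [T, Finset.mem_filter, Finset.mem_product] at hT hT'
        have hd := det_CountPairs G (hwalk _ hT.1.1).1 (hwalk _ hT.1.2).1
          (hwalk _ hT'.1.1).1 (hwalk _ hT'.1.2).1 hm.2 hm'.2 (by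
            intro t ht hta
            have hlen : C.len / 2 = n := by omega
            rw [hlen] at hta
            have htF : t ∈ F := by
              simp only [F, Finset.mem_sdiff, Finset.mem_range, Finset.mem_Icc]
              omega
            have h1 := Finset.ext_iff.1 he t
            simp only [Finset.mem_filter, htF, true_and] at h1
            exact h1)
        apply Prod.ext
        · funext i
          rw [hsq pq.1, hsq pq'.1]
          exact (hd _ (by omega)).1
        · funext i
          rw [hsq pq.2, hsq pq'.2]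
          exact (hd _ (by omega)).2
    refine hinj.trans ?_
    rw [Finset.card_powerset]
    exact Nat.pow_le_pow_right (by norm_num) hF
  have h1 := (Finset.card_le_card hsub).trans
    (Finset.card_biUnion_le_card_mul _ _ _ hfib)
  rw [Finset.card_product, Finset.card_range] at h1
  calc T.card ≤ r * CS.card * 2 ^ (r - h0) := h1
    _ = r * 2 ^ (r - h0) * CS.card := by ring

end Pool.Agent.CP51
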