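import Mathlib

/-!
# Disjoint cycles in cubic multigraphs: definitions
-/

namespace Pool.Agent.CP51

/-- A cubic multigraph (loops and parallel edges allowed) given by its darts: `τ` reverses a
dart, `σ` turns a dart around its tail. -/
structure Cub (D : Type) where
  τ : D → D
  σ : D → D
  ττ : ∀ d, τ (τ d) = d
  τne : ∀ d, τ d ≠ d
  σσσ : ∀ d, σ (σ (σ d)) = d
  σne : ∀ d, σ d ≠ d

variable {D : Type}

namespace Cub

/-- `d` and `e` have the same tail. -/
def Sv (G : Cub D) (d e : D) : Prop := e = d ∨ e = G.σ d ∨ e = G.σ (G.σ d)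

/-- `e` follows `d` in a non-backtracking walk. -/
def Fol (G : Cub D) (d e : D) : Prop := e = G.σ (G.τ d) ∨ e = G.σ (G.σ (G.τ d))

/-- If `e` follows `d`, this is the third dart at the vertex between `d` and `e`. -/
noncomputable def th (G : Cub D) (d e : D) : D :=
  open Classical in if e = G.σ (G.τ d) then G.σ (G.σ (G.τ d)) else G.σ (G.τ d)

/-- Closed non-backtracking walks of length `n + 1 ≤ l` (rooted and oriented). -/
structure H (G : Cub D) (l : ℕ) where
  n : Fin l
  c : ZMod (n.1 + 1) → D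
  fol : ∀ i, G.Fol (c i) (c (i + 1))

noncomputable instance (G : Cub D) (l : ℕ) [Fintype D] : Fintype (G.H l) := by
  classical
  exact Fintype.ofInjective
    (fun C : G.H l => (⟨C.n, C.c⟩ : Σ n : Fin l, (ZMod (n.1 + 1) → D)))
    (by
      rintro ⟨n, c, h⟩ ⟨n', c', h'⟩ e
      simp only [Sigma.mk.injEq] at e
      obtain ⟨rfl, e⟩ := e
      obtain rfl := eq_of_heq e
      rfl)

noncomputable instance (G : Cub D) (l : ℕ) : DecidableEq (G.H l) := Classical.decEq _

variable {G : Cub D} {l : ℕ}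

/-- The length. -/
def H.len (C : G.H l) : ℕ := C.n.1 + 1

/-- The periodic sequence of darts. -/
def H.sq (C : G.H l) (i : ℤ) : D := C.c i

lemma Fol.rev {d e : D} (h : G.Fol d e) : G.Fol (G.τ e) (G.τ d) := by
  rcases h with rfl | rfl
  · right; rw [G.ττ, G.σσσ]
  · left; rw [G.ττ, G.σσσ]

/-- Rotation by one step. -/
def H.rot (C : G.H l) : G.H l := ⟨C.n, fun i => C.c (i + 1), fun i => C.fol (i + 1)⟩

/-- Reversal. -/
def H.rev (C : G.H l) : G.H l :=
  ⟨C.n, fun i => G.τ (C.c (-i)), fun i => by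
    have h := C.fol (-(i + 1))
    rw [show -(i + 1) + 1 = -i by ring] at h
    exact h.rev⟩

/-- The dart `d` leaves a vertex of `C`. -/
def H.On (C : G.H l) (d : D) : Prop := ∃ i : ℤ, G.Sv (C.sq i) d

/-- Vertex-disjoint. -/
def H.Dj (A B : G.H l) : Prop := ∀ d, ¬ (A.On d ∧ B.On d)

/-- The third dart at the head of the `i`-th dart. -/
noncomputable def H.tt (C : G.H l) (i : ℤ) : D := G.th (C.sq i) (C.sq (i + 1))

/-- The number of edges joining `A` and `B` (for simple disjoint `A`, `B`). -/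
noncomputable def H.ch (A B : G.H l) : ℕ :=
  open Classical in
  ((Finset.range A.len ×ˢ Finset.range B.len).filter
    (fun p => A.tt (p.1 : ℕ) = G.τ (B.tt (p.2 : ℕ)))).card

/-- Every vertex is visited at most once per period. -/
def H.Simple (C : G.H l) : Prop :=
  ∀ i j : ℤ, G.Sv (C.sq i) (C.sq j) → (C.len : ℤ) ∣ i - j

/-- No closed non-backtracking walk has length less than `g`. -/
def Girth (G : Cub D) (g : ℕ) : Prop := ∀ (l : ℕ) (C : G.H l), g ≤ C.len

/-- Non-backtracking walks with `r` steps inside `S`. -/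
noncomputable def walks (G : Cub D) [Fintype D] (S : Finset D) (r : ℕ) :
    Finset (Fin (r + 1) → D) :=
  open Classical in
  Finset.univ.filter fun p => (∀ i, p i ∈ S) ∧ ∀ i : Fin r, G.Fol (p i.castSucc) (p i.succ)

/-- A nonempty set of edges (symmetric set of darts) in which no vertex has degree one. -/
def TS (G : Cub D) (A : Finset D) : Prop :=
  A.Nonempty ∧ (∀ d ∈ A, G.τ d ∈ A) ∧ ∀ d ∈ A, G.σ d ∈ A ∨ G.σ (G.σ d) ∈ A

/-- `k` disjoint such sets. -/
def Pack (G : Cub D) (k : ℕ) : Prop :=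
  ∃ A : Fin k → Finset D, (∀ i, G.TS (A i)) ∧ ∀ i j, i ≠ j → Disjoint (A i) (A j)

/-! ### Marginals of a weight on closed walks -/

section weights

variable [Fintype D]

/-- Weight of the walks with first dart `e`. -/
noncomputable def y1 (s : G.H l → ℝ) (e : D) : ℝ :=
  open Classical in ∑ C : G.H l, if C.sq 0 = e then s C else 0

/-- Weight of the walks with first darts `e`, `f`. -/
noncomputable def y2 (s : G.H l → ℝ) (e f : D) : ℝ :=
  open Classical in ∑ C : G.H l, if C.sq 0 = e ∧ C.sq 1 = f then s C else 0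

/-- Weight of the walks whose third dart at the first vertex is `d`. -/
noncomputable def xx (s : G.H l → ℝ) (d : D) : ℝ :=
  open Classical in ∑ C : G.H l, if C.tt 0 = d then s C else 0

/-- `e` is fair for `s`: both followers get at least a quarter of the weight. -/
def Fair (s : G.H l → ℝ) (e : D) : Prop :=
  y1 s e / 4 ≤ y2 s e (G.σ (G.τ e)) ∧ y1 s e / 4 ≤ y2 s e (G.σ (G.σ (G.τ e)))

/-- Invariance under rotation and reversal. -/
def Inv (s : G.H l → ℝ) : Prop := (∀ C, s C.rot = s C) ∧ ∀ C, s C.rev = s C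

end weights

end Cub

/-- A finite multigraph: darts `D`, vertices `V`, reversal `τ`, tail `π`. -/
structure MG (D V : Type) where
  τ : D → D
  π : D → V
  ττ : ∀ d, τ (τ d) = d
  τne : ∀ d, τ d ≠ d

namespace MG

variable {V : Type}

/-- A nonempty set of edges in which no vertex has degree one. -/
def TS (M : MG D V) (A : Finset D) : Prop :=
  A.Nonempty ∧ (∀ d ∈ A, M.τ d ∈ A) ∧ ∀ d ∈ A, ∃ e ∈ A, e ≠ d ∧ M.π e = M.π d

/-- `k` disjoint such sets. -/
def Pack (M : MG D V) (k : ℕ) : Prop :=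
  ∃ A : Fin k → Finset D, (∀ i, M.TS (A i)) ∧ ∀ i j, i ≠ j → Disjoint (A i) (A j)

end MG

end Pool.Agent.CP51
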