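import Pool.Agent.CP51.Defs

/-!
# Deleting a family of disjoint cycles
-/

namespace Pool.Agent.CP51

variable {D : Type}

namespace Del

open Cub

lemma svSymm (G : Cub D) {d e : D} (h : G.Sv d e) : G.Sv e d := by
  rcases h with rfl | rfl | rfl
  · exact Or.inl rfl
  · right; right; rw [G.σσσ]
  · right; left; rw [G.σσσ]

lemma svTrans (G : Cub D) {d e f : D} (h : G.Sv d e) (h' : G.Sv e f) : G.Sv d f := by
  rcases h with rfl | rfl | rfl <;> rcases h' with rfl | rfl | rfl
  · exact Or.inl rfl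
  · exact Or.inr (Or.inl rfl)
  · exact Or.inr (Or.inr rfl)
  · exact Or.inr (Or.inl rfl)
  · exact Or.inr (Or.inr rfl)
  · left; rw [G.σσσ]
  · exact Or.inr (Or.inr rfl)
  · left; rw [G.σσσ]
  · right; left; rw [G.σσσ]

lemma svRefl (G : Cub D) (d : D) : G.Sv d d := Or.inl rfl

lemma σσne (G : Cub D) (d : D) : G.σ (G.σ d) ≠ d := by
  intro h
  have h1 := G.σσσ d
  rw [h] at h1
  exact G.σne d h1

lemma τinj (G : Cub D) {d e : D} (h : G.τ d = G.τ e) : d = e := by
  rw [← G.ττ d, h, G.ττ]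

lemma sq_fol {G : Cub D} {l : ℕ} (C : G.H l) (i : ℤ) : G.Fol (C.sq i) (C.sq (i + 1)) := by
  have h := C.fol (i : ZMod (C.n.1 + 1))
  unfold H.sq
  rw [Int.cast_add, Int.cast_one]
  exact h

/-- The dart `τ (C i)` has the same tail as `C (i+1)`. -/
lemma sv_tau {G : Cub D} {l : ℕ} (C : G.H l) (i : ℤ) : G.Sv (C.sq (i + 1)) (G.τ (C.sq i)) := by
  apply svSymm
  rcases sq_fol C i with h | h
  · right; left; exact h
  · right; right; exact h

lemma sv_tt {G : Cub D} {l : ℕ} (C : G.H l) (i : ℤ) : G.Sv (C.sq (i + 1)) (C.tt i) := by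
  refine svTrans G (sv_tau C i) ?_
  unfold H.tt Cub.th
  split_ifs
  · exact Or.inr (Or.inr rfl)
  · exact Or.inr (Or.inl rfl)

lemma On_sv {G : Cub D} {l : ℕ} (C : G.H l) {d e : D} (h : C.On d) (h' : G.Sv d e) : C.On e := by
  obtain ⟨i, hi⟩ := h
  exact ⟨i, svTrans G hi h'⟩

lemma On_sq {G : Cub D} {l : ℕ} (C : G.H l) (i : ℤ) : C.On (C.sq i) := ⟨i, Or.inl rfl⟩

lemma On_tau {G : Cub D} {l : ℕ} (C : G.H l) (i : ℤ) : C.On (G.τ (C.sq i)) := ⟨i + 1, sv_tau C i⟩

lemma On_tt {G : Cub D} {l : ℕ} (C : G.H l) (i : ℤ) : C.On (C.tt i) := ⟨i + 1, sv_tt C i⟩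

lemma len_pos {G : Cub D} {l : ℕ} (C : G.H l) : 0 < C.len := Nat.succ_pos _

/-- Every dart of the period is one of the first `len`. -/
lemma sq_mod {G : Cub D} {l : ℕ} (C : G.H l) (i : ℤ) :
    ∃ a ∈ Finset.range C.len, C.sq i = C.sq ((a : ℕ) : ℤ) ∧
      C.sq (i + 1) = C.sq ((a : ℕ) + 1 : ℤ) := by
  have h0 : (0 : ℤ) < (C.len : ℤ) := by exact_mod_cast len_pos C
  refine ⟨(i % (C.len : ℤ)).toNat, ?_, ?_⟩
  · rw [Finset.mem_range]
    have h1 := Int.emod_lt_of_pos i h0
    have h2 := Int.emod_nonneg i h0.ne'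
    omega
  · have h2 := Int.emod_nonneg i h0.ne'
    have h3 : (((i % (C.len : ℤ)).toNat : ℕ) : ℤ) = i % (C.len : ℤ) := Int.toNat_of_nonneg h2
    have h4 : ((i % (C.len : ℤ) : ℤ) : ZMod (C.n.1 + 1)) = (i : ZMod (C.n.1 + 1)) := by
      rw [ZMod.intCast_eq_intCast_iff]
      unfold H.len
      push_cast
      exact Int.mod_modEq i _
    rw [h3]
    unfold H.sq
    rw [Int.cast_add, Int.cast_add, h4]
    exact ⟨rfl, rfl⟩

lemma tt_mod {G : Cub D} {l : ℕ} (C : G.H l) (i : ℤ) :
    ∃ a ∈ Finset.range C.len, C.tt i = C.tt ((a : ℕ) : ℤ) := by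
  obtain ⟨a, ha, h1, h2⟩ := sq_mod C i
  refine ⟨a, ha, ?_⟩
  unfold H.tt
  rw [h1, h2]

lemma range_inj {n a b : ℕ} (ha : a ∈ Finset.range n) (hb : b ∈ Finset.range n)
    (h : (n : ℤ) ∣ (a : ℤ) - b) : a = b := by
  rw [Finset.mem_range] at ha hb
  obtain ⟨c, hc⟩ := h
  have h1 : c = 0 := by
    rcases lt_trichotomy c 0 with h2 | h2 | h2
    · exfalso
      have : (n : ℤ) * c ≤ n * (-1) := by
        apply mul_le_mul_of_nonneg_left _ (by positivity)
        omega
      omega
    · exact h2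
    · exfalso
      have : (n : ℤ) * 1 ≤ n * c := by
        apply mul_le_mul_of_nonneg_left _ (by positivity)
        omega
      omega
  subst h1
  omega

open Classical in
/-- The darts at the tail of `d`. -/
noncomputable def orb (G : Cub D) (d : D) : Finset D := {d, G.σ d, G.σ (G.σ d)}

lemma mem_orb {G : Cub D} {d e : D} : e ∈ orb G d ↔ G.Sv d e := by
  classical
  unfold orb Cub.Sv
  simp only [Finset.mem_insert, Finset.mem_singleton]

lemma orb_card (G : Cub D) (d : D) : (orb G d).card = 3 := by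
  classical
  rw [orb, Finset.card_eq_three]
  exact ⟨d, G.σ d, G.σ (G.σ d), (G.σne d).symm, (σσne G d).symm, (G.σne (G.σ d)).symm, rfl⟩

lemma orb_eq {G : Cub D} {d e : D} (h : G.Sv d e) : orb G d = orb G e := by
  ext x
  rw [mem_orb, mem_orb]
  exact ⟨fun h' => svTrans G (svSymm G h) h', fun h' => svTrans G h h'⟩

open Classical in
lemma cardV (G : Cub D) [Fintype D] (S : D → Prop) (hS : ∀ d e, S d → G.Sv d e → S e) :
    3 * Fintype.card {v : Finset D // ∃ d, ¬ S d ∧ v = orb G d} +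
      (Finset.univ.filter S).card ≤ Fintype.card D := by
  have h1 : (Finset.univ.biUnion
      (fun v : {v : Finset D // ∃ d, ¬ S d ∧ v = orb G d} => v.1)).card =
      3 * Fintype.card {v : Finset D // ∃ d, ¬ S d ∧ v = orb G d} := by
    rw [Finset.card_biUnion]
    · rw [Finset.sum_congr rfl (g := fun _ => 3), Finset.sum_const, smul_eq_mul, mul_comm,
        Finset.card_univ]
      rintro ⟨v, d, hd, rfl⟩ -
      exact orb_card G d
    · rintro ⟨v, d, hd, rfl⟩ - ⟨w, e, he, rfl⟩ - hne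
      show Disjoint (orb G d) (orb G e)
      rw [Finset.disjoint_left]
      intro x hx hx'
      apply hne
      rw [Subtype.mk.injEq]
      exact orb_eq (svTrans G (mem_orb.mp hx) (svSymm G (mem_orb.mp hx')))
  rw [← h1, ← Finset.card_union_of_disjoint]
  · exact Finset.card_le_univ _
  · rw [Finset.disjoint_left]
    intro x hx hx'
    rw [Finset.mem_biUnion] at hx
    obtain ⟨⟨v, d, hd, rfl⟩, -, hx⟩ := hx
    rw [Finset.mem_filter] at hx'
    exact hd (hS x d hx'.2 (svSymm G (mem_orb.mp hx)))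

section fam

variable {G : Cub D} {l m : ℕ} {F : Fin m → G.H l}

lemma eq_of_On (hF : ∀ i j, i ≠ j → (F i).Dj (F j)) {i j : Fin m} {d : D} (hi : (F i).On d)
    (hj : (F j).On d) : i = j := by
  by_contra h
  exact hF i j h d ⟨hi, hj⟩

lemma pow_sv (G : Cub D) (d : D) (t : Fin 3) : G.Sv d (G.σ^[t.1] d) := by
  fin_cases t
  · exact Or.inl rfl
  · exact Or.inr (Or.inl rfl)
  · exact Or.inr (Or.inr rfl)

lemma pow_inj (G : Cub D) (d : D) {t t' : Fin 3} (h : G.σ^[t.1] d = G.σ^[t'.1] d) : t = t' := by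
  have h1 := G.σne d
  have h2 := σσne G d
  have h3 := G.σne (G.σ d)
  fin_cases t <;> fin_cases t' <;> first | rfl | (exfalso; simp at h; tauto)

/-- The pairs (member, position). -/
def pos (F : Fin m → G.H l) : Finset (Σ _ : Fin m, ℕ) :=
  Finset.univ.sigma fun i => Finset.range (F i).len

lemma mem_pos {x : Σ _ : Fin m, ℕ} : x ∈ pos F ↔ x.2 ∈ Finset.range (F x.1).len := by
  simp [pos]

lemma card_pos (F : Fin m → G.H l) : (pos F).card = ∑ i, (F i).len := by
  rw [pos, Finset.card_sigma]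
  exact Finset.sum_congr rfl fun i _ => Finset.card_range _

lemma pos_inj (hF : ∀ i j, i ≠ j → (F i).Dj (F j)) (hs : ∀ i, (F i).Simple)
    {x y : Σ _ : Fin m, ℕ} (hx : x ∈ pos F) (hy : y ∈ pos F) {c : ℤ} {d : D}
    (h1 : G.Sv ((F x.1).sq (x.2 + c)) d) (h2 : G.Sv ((F y.1).sq (y.2 + c)) d) : x = y := by
  obtain ⟨i, a⟩ := x
  obtain ⟨j, b⟩ := y
  have hij : i = j := eq_of_On hF ⟨_, h1⟩ ⟨_, h2⟩
  subst hij
  have h3 := hs i _ _ (svTrans G h1 (svSymm G h2))
  have h4 : ((F i).len : ℤ) ∣ (a : ℤ) - b := by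
    have h5 : ((a : ℤ) + c) - (b + c) = a - b := by ring
    rw [← h5]
    exact h3
  rw [mem_pos] at hx hy
  have h6 := range_inj hx hy h4
  simp only at h6
  rw [h6]

open Classical in
lemma cardS (hF : ∀ i j, i ≠ j → (F i).Dj (F j)) (hs : ∀ i, (F i).Simple) [Fintype D] :
    3 * ∑ i, (F i).len ≤ (Finset.univ.filter (fun d => ∃ i, (F i).On d)).card := by
  have h : (pos F ×ˢ (Finset.univ : Finset (Fin 3))).card ≤
      (Finset.univ.filter (fun d => ∃ i, (F i).On d)).card := by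
    refine Finset.card_le_card_of_injOn
      (fun x => G.σ^[x.2.1] ((F x.1.1).sq ((x.1.2 : ℤ) + 0))) ?_ ?_
    · intro x _
      simp only [Finset.coe_filter, Finset.mem_univ, true_and, Set.mem_ofPred_eq]
      exact ⟨x.1.1, _, pow_sv G _ x.2⟩
    · rintro ⟨x, t⟩ hx ⟨y, t'⟩ hy hxy
      simp only at hxy
      simp only [Finset.coe_product, Set.mem_prod, Finset.mem_coe, Finset.mem_univ,
        and_true] at hx hy
      have h1 := pow_sv G ((F x.1).sq ((x.2 : ℤ) + 0)) t
      have h2 := pow_sv G ((F y.1).sq ((y.2 : ℤ) + 0)) t'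
      rw [← hxy] at h2
      have h3 : x = y := pos_inj hF hs hx hy h1 h2
      subst h3
      rw [pow_inj G _ hxy]
  rw [Finset.card_product, card_pos, Finset.card_univ, Fintype.card_fin, mul_comm] at h
  exact h

open Classical in
/-- The third darts. -/
noncomputable def third (F : Fin m → G.H l) : Finset D :=
  (pos F).image fun x => (F x.1).tt ((x.2 : ℕ) : ℤ)

open Classical in
/-- The darts on the walks. -/
noncomputable def cyc (C : G.H l) : Finset D :=
  ((Finset.range C.len).image fun a => C.sq ((a : ℕ) : ℤ)) ∪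
    ((Finset.range C.len).image fun a => G.τ (C.sq ((a : ℕ) : ℤ)))

lemma mem_cyc {C : G.H l} {d : D} : d ∈ cyc C ↔ ∃ i : ℤ, d = C.sq i ∨ d = G.τ (C.sq i) := by
  classical
  unfold cyc
  rw [Finset.mem_union, Finset.mem_image, Finset.mem_image]
  constructor
  · rintro (⟨a, -, rfl⟩ | ⟨a, -, rfl⟩)
    · exact ⟨a, Or.inl rfl⟩
    · exact ⟨a, Or.inr rfl⟩
  · rintro ⟨i, h⟩
    obtain ⟨a, ha, h1, -⟩ := sq_mod C i
    rw [h1] at h
    rcases h with rfl | rfl
    · exact Or.inl ⟨a, ha, rfl⟩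
    · exact Or.inr ⟨a, ha, rfl⟩

lemma cyc_card (C : G.H l) : (cyc C).card ≤ 2 * C.len := by
  classical
  unfold cyc
  refine (Finset.card_union_le _ _).trans ?_
  have h1 := Finset.card_image_le (s := Finset.range C.len) (f := fun a => C.sq ((a : ℕ) : ℤ))
  have h2 := Finset.card_image_le (s := Finset.range C.len)
    (f := fun a => G.τ (C.sq ((a : ℕ) : ℤ)))
  rw [Finset.card_range] at h1 h2
  omega

/-- A dart at a vertex of `C` lies on `C` or is a third dart. -/
lemma On_cases {C : G.H l} {d : D} (h : C.On d) :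
    (∃ i : ℤ, d = C.sq i ∨ d = G.τ (C.sq i)) ∨ ∃ i : ℤ, d = C.tt i := by
  obtain ⟨i, hi⟩ := h
  have e : i = (i - 1) + 1 := by ring
  rw [e] at hi
  have h1 := svTrans G (svSymm G (sv_tau C (i - 1))) hi
  rcases h1 with h1 | h1 | h1
  · exact Or.inl ⟨i - 1, Or.inr h1⟩
  · rcases sq_fol C (i - 1) with h2 | h2
    · exact Or.inl ⟨i - 1 + 1, Or.inl (by rw [h2, h1])⟩
    · refine Or.inr ⟨i - 1, ?_⟩
      unfold H.tt Cub.th
      rw [if_neg, h1]
      rw [h2]
      exact G.σne _
  · rcases sq_fol C (i - 1) with h2 | h2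
    · refine Or.inr ⟨i - 1, ?_⟩
      unfold H.tt Cub.th
      rw [if_pos h2, h1]
    · exact Or.inl ⟨i - 1 + 1, Or.inl (by rw [h2, h1])⟩

lemma tt_inj (hF : ∀ i j, i ≠ j → (F i).Dj (F j)) (hs : ∀ i, (F i).Simple) {i j : Fin m}
    {a b : ℕ} (ha : a ∈ Finset.range (F i).len) (hb : b ∈ Finset.range (F j).len)
    (h : (F i).tt (a : ℤ) = (F j).tt (b : ℤ)) : i = j ∧ a = b := by
  have h1 : (⟨i, a⟩ : Σ _ : Fin m, ℕ) ∈ pos F := mem_pos.mpr ha
  have h2 : (⟨j, b⟩ : Σ _ : Fin m, ℕ) ∈ pos F := mem_pos.mpr hb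
  have h3 := pos_inj hF hs h1 h2 (c := 1) (sv_tt (F i) a) (by rw [h]; exact sv_tt (F j) b)
  rw [Sigma.mk.injEq] at h3
  exact ⟨h3.1, eq_of_heq h3.2⟩

open Classical in
/-- The pairs of positions joined by an edge. -/
noncomputable def qq (F : Fin m → G.H l) : Finset (Σ _ : Fin m, Σ _ : Fin m, ℕ × ℕ) :=
  Finset.univ.sigma fun i => (Finset.univ.filter (fun j => i < j)).sigma fun j =>
    (Finset.range (F i).len ×ˢ Finset.range (F j).len).filter
      (fun p => (F i).tt (p.1 : ℕ) = G.τ ((F j).tt (p.2 : ℕ)))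

lemma card_qq (F : Fin m → G.H l) : (qq F).card =
    ∑ i, ∑ j ∈ Finset.univ.filter (fun j => i < j), (F i).ch (F j) := by
  classical
  rw [qq, Finset.card_sigma]
  refine Finset.sum_congr rfl fun i _ => ?_
  rw [Finset.card_sigma]
  refine Finset.sum_congr rfl fun j _ => ?_
  unfold H.ch
  congr

lemma mem_qq {x : Σ _ : Fin m, Σ _ : Fin m, ℕ × ℕ} (hx : x ∈ qq F) :
    x.1 < x.2.1 ∧ x.2.2.1 ∈ Finset.range (F x.1).len ∧
      x.2.2.2 ∈ Finset.range (F x.2.1).len ∧
      (F x.1).tt (x.2.2.1 : ℤ) = G.τ ((F x.2.1).tt (x.2.2.2 : ℤ)) := by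
  classical
  obtain ⟨i, j, a, b⟩ := x
  rw [qq, Finset.mem_sigma, Finset.mem_sigma, Finset.mem_filter, Finset.mem_filter,
    Finset.mem_product] at hx
  exact ⟨hx.2.1.2, hx.2.2.1.1, hx.2.2.1.2, hx.2.2.2⟩

lemma third_mem {i : Fin m} {a : ℕ} (ha : a ∈ Finset.range (F i).len) :
    (F i).tt (a : ℤ) ∈ third F := by
  classical
  rw [third, Finset.mem_image]
  exact ⟨⟨i, a⟩, mem_pos.mpr ha, rfl⟩

open Classical in
lemma card_inter (hF : ∀ i j, i ≠ j → (F i).Dj (F j)) (hs : ∀ i, (F i).Simple) :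
    2 * (qq F).card ≤ (third F ∩ (third F).image G.τ).card := by
  have h1 : ((qq F).image fun x => (F x.1).tt (x.2.2.1 : ℤ)).card = (qq F).card := by
    apply Finset.card_image_of_injOn
    intro x hx y hy hxy
    obtain ⟨a1, a2, a3, a4⟩ := mem_qq (Finset.mem_coe.mp hx)
    obtain ⟨b1, b2, b3, b4⟩ := mem_qq (Finset.mem_coe.mp hy)
    simp only at hxy
    have c1 := tt_inj hF hs a2 b2 hxy
    rw [a4, b4] at hxy
    have c2 := tt_inj hF hs a3 b3 (τinj G hxy)
    obtain ⟨i, j, a, b⟩ := x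
    obtain ⟨i', j', a', b'⟩ := y
    simp only at c1 c2
    obtain ⟨rfl, rfl⟩ := c1
    obtain ⟨rfl, rfl⟩ := c2
    rfl
  have h2 : ((qq F).image fun x => (F x.2.1).tt (x.2.2.2 : ℤ)).card = (qq F).card := by
    apply Finset.card_image_of_injOn
    intro x hx y hy hxy
    obtain ⟨a1, a2, a3, a4⟩ := mem_qq (Finset.mem_coe.mp hx)
    obtain ⟨b1, b2, b3, b4⟩ := mem_qq (Finset.mem_coe.mp hy)
    simp only at hxy
    have c2 := tt_inj hF hs a3 b3 hxy
    rw [← hxy, ← a4] at b4
    have c1 := tt_inj hF hs a2 b2 b4.symm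
    obtain ⟨i, j, a, b⟩ := x
    obtain ⟨i', j', a', b'⟩ := y
    simp only at c1 c2
    obtain ⟨rfl, rfl⟩ := c1
    obtain ⟨rfl, rfl⟩ := c2
    rfl
  have h3 : Disjoint ((qq F).image fun x => (F x.1).tt (x.2.2.1 : ℤ))
      ((qq F).image fun x => (F x.2.1).tt (x.2.2.2 : ℤ)) := by
    rw [Finset.disjoint_left]
    intro d hd hd'
    rw [Finset.mem_image] at hd hd'
    obtain ⟨x, hx, rfl⟩ := hd
    obtain ⟨y, hy, hxy⟩ := hd'
    obtain ⟨a1, a2, a3, a4⟩ := mem_qq hx
    obtain ⟨b1, b2, b3, b4⟩ := mem_qq hy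
    have c1 := tt_inj hF hs b3 a2 hxy
    rw [hxy, a4, G.ττ] at b4
    have c2 := tt_inj hF hs b2 a3 b4
    rw [c1.1, c2.1] at b1
    exact absurd a1 (not_lt.mpr b1.le)
  have h4 : ((qq F).image fun x => (F x.1).tt (x.2.2.1 : ℤ)) ∪
      ((qq F).image fun x => (F x.2.1).tt (x.2.2.2 : ℤ)) ⊆
      third F ∩ (third F).image G.τ := by
    intro d hd
    rw [Finset.mem_union, Finset.mem_image, Finset.mem_image] at hd
    rw [Finset.mem_inter, Finset.mem_image]
    rcases hd with ⟨x, hx, rfl⟩ | ⟨x, hx, rfl⟩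
    · obtain ⟨a1, a2, a3, a4⟩ := mem_qq hx
      exact ⟨third_mem a2, _, third_mem a3, a4.symm⟩
    · obtain ⟨a1, a2, a3, a4⟩ := mem_qq hx
      exact ⟨third_mem a3, _, third_mem a2, by rw [a4, G.ττ]⟩
  have h5 := Finset.card_le_card h4
  rw [Finset.card_union_of_disjoint h3, h1, h2] at h5
  omega

open Classical in
lemma cardU (hF : ∀ i j, i ≠ j → (F i).Dj (F j)) (hs : ∀ i, (F i).Simple) [Fintype D] :
    (Finset.univ.filter (fun d => (∃ i, (F i).On d) ∨ ∃ i, (F i).On (G.τ d))).card +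
      2 * ∑ i, ∑ j ∈ Finset.univ.filter (fun j => i < j), (F i).ch (F j) ≤
      4 * ∑ i, (F i).len := by
  have hτ : ∀ s : Finset D, (s.image G.τ).card ≤ s.card := fun s => Finset.card_image_le
  have h1 : Finset.univ.filter (fun d => (∃ i, (F i).On d) ∨ ∃ i, (F i).On (G.τ d)) ⊆
      (Finset.univ.biUnion fun i => cyc (F i)) ∪ (third F ∪ (third F).image G.τ) := by
    have key : ∀ d, (∃ i, (F i).On d) → d ∈ (Finset.univ.biUnion fun i => cyc (F i)) ∨
        d ∈ third F := by
      rintro d ⟨i, hi⟩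
      rcases On_cases hi with h | ⟨c, h⟩
      · left
        rw [Finset.mem_biUnion]
        exact ⟨i, Finset.mem_univ _, mem_cyc.mpr h⟩
      · right
        obtain ⟨a, ha, h2⟩ := tt_mod (F i) c
        rw [third, Finset.mem_image]
        exact ⟨⟨i, a⟩, mem_pos.mpr ha, by rw [h, h2]⟩
    intro d hd
    rw [Finset.mem_filter] at hd
    rw [Finset.mem_union, Finset.mem_union]
    rcases hd.2 with h | h
    · rcases key d h with h2 | h2
      · exact Or.inl h2
      · exact Or.inr (Or.inl h2)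
    · rcases key _ h with h2 | h2
      · left
        rw [Finset.mem_biUnion] at h2 ⊢
        obtain ⟨i, -, h2⟩ := h2
        refine ⟨i, Finset.mem_univ _, ?_⟩
        rw [mem_cyc] at h2 ⊢
        obtain ⟨c, h2⟩ := h2
        refine ⟨c, ?_⟩
        rcases h2 with h2 | h2
        · right
          rw [← h2, G.ττ]
        · left
          exact τinj G h2
      · right; right
        rw [Finset.mem_image]
        exact ⟨_, h2, G.ττ d⟩
  have h2 : (Finset.univ.biUnion fun i => cyc (F i)).card ≤ 2 * ∑ i, (F i).len := by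
    refine Finset.card_biUnion_le.trans ?_
    rw [Finset.mul_sum]
    exact Finset.sum_le_sum fun i _ => cyc_card (F i)
  have h3 : (third F).card ≤ ∑ i, (F i).len := by
    rw [← card_pos]
    exact Finset.card_image_le
  have h4 : 2 * ∑ i, ∑ j ∈ Finset.univ.filter (fun j => i < j), (F i).ch (F j) ≤
      (third F ∩ (third F).image G.τ).card := by
    rw [← card_qq]
    exact card_inter hF hs
  have h5 := Finset.card_union_add_card_inter (third F) ((third F).image G.τ)
  have h6 := Finset.card_le_card h1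
  have h7 := Finset.card_union_le (Finset.univ.biUnion fun i => cyc (F i))
    (third F ∪ (third F).image G.τ)
  have h8 := hτ (third F)
  omega

lemma cyc_ts (C : G.H l) : G.TS (cyc C) := by
  refine ⟨⟨C.sq 0, mem_cyc.mpr ⟨0, Or.inl rfl⟩⟩, ?_, ?_⟩
  · intro d hd
    rw [mem_cyc] at hd ⊢
    obtain ⟨i, h | h⟩ := hd
    · exact ⟨i, Or.inr (by rw [h])⟩
    · exact ⟨i, Or.inl (by rw [h, G.ττ])⟩
  · intro d hd
    rw [mem_cyc] at hd
    obtain ⟨i, h | h⟩ := hd
    · have h1 := sq_fol C (i - 1)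
      rw [sub_add_cancel] at h1
      rcases h1 with h1 | h1
      · right
        rw [mem_cyc]
        refine ⟨i - 1, Or.inr ?_⟩
        rw [h, h1, G.σσσ]
      · left
        rw [mem_cyc]
        refine ⟨i - 1, Or.inr ?_⟩
        rw [h, h1, G.σσσ]
    · rcases sq_fol C i with h1 | h1
      · left
        rw [mem_cyc]
        exact ⟨i + 1, Or.inl (by rw [h1, h])⟩
      · right
        rw [mem_cyc]
        exact ⟨i + 1, Or.inl (by rw [h1, h])⟩

lemma cyc_on {C : G.H l} {d : D} (hd : d ∈ cyc C) : C.On d := by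
  rw [mem_cyc] at hd
  obtain ⟨i, h | h⟩ := hd
  · rw [h]; exact On_sq C i
  · rw [h]; exact On_tau C i

end fam

end Del

open Del

/-- Deleting the vertices of a family of disjoint simple closed walks lowers the excess by at
most (sum of the lengths) - (number of edges between members). -/
theorem delete (G : Cub D) [Fintype D] {l : ℕ} (P : ℕ) (hD : Fintype.card D = 6 * P) (m : ℕ)
    (F : Fin m → G.H l) (hF : ∀ i j, i ≠ j → (F i).Dj (F j)) (hs : ∀ i, (F i).Simple) (p : ℕ)
    (hc : p + ∑ i, (F i).len ≤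
      P + ∑ i, ∑ j ∈ Finset.univ.filter (fun j => i < j), (F i).ch (F j)) :
    ∃ (D' V' : Type) (_ : Fintype D') (_ : Fintype V') (M : MG D' V'),
      2 * (Fintype.card V' + p) ≤ Fintype.card D' ∧ ∀ k, M.Pack k → G.Pack (k + m) := by
  classical
  have hV := cardV G (fun d => ∃ i, (F i).On d)
    (fun d e h h' => h.imp fun i hi => On_sv (F i) hi h')
  have hS := cardS hF hs
  have hU := cardU hF hs
  have hcomp : ∀ d, ¬ ((∃ i, (F i).On d) ∨ ∃ i, (F i).On (G.τ d)) →
      ¬ ((∃ i, (F i).On (G.τ d)) ∨ ∃ i, (F i).On (G.τ (G.τ d))) := by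
    intro d hd h
    rw [G.ττ] at h
    exact hd h.symm
  refine ⟨{d : D // ¬ ((∃ i, (F i).On d) ∨ ∃ i, (F i).On (G.τ d))},
    {v : Finset D // ∃ d, ¬ (∃ i, (F i).On d) ∧ v = orb G d}, inferInstance, inferInstance,
    { τ := fun d => ⟨G.τ d.1, hcomp d.1 d.2⟩
      π := fun d => ⟨orb G d.1, d.1, fun h => d.2 (Or.inl h), rfl⟩
      ττ := fun d => Subtype.ext (G.ττ d.1)
      τne := fun d h => G.τne d.1 (congrArg Subtype.val h) }, ?_, ?_⟩
  · have h1 : Fintype.card {d : D // ¬ ((∃ i, (F i).On d) ∨ ∃ i, (F i).On (G.τ d))} +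
        (Finset.univ.filter (fun d => (∃ i, (F i).On d) ∨ ∃ i, (F i).On (G.τ d))).card =
        6 * P := by
      rw [← hD, Fintype.card_subtype_compl, Fintype.card_subtype]
      exact Nat.sub_add_cancel (Finset.card_le_univ _)
    rw [hD] at hV
    have hV' : 3 * Fintype.card {v : Finset D // ∃ d, ¬ (∃ i, (F i).On d) ∧ v = orb G d} +
        (Finset.univ.filter (fun d => ∃ i, (F i).On d)).card ≤ 6 * P := by
      convert hV
    have hS' : 3 * ∑ i, (F i).len ≤ (Finset.univ.filter (fun d => ∃ i, (F i).On d)).card := by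
      convert hS
    omega
  · rintro k ⟨A, hA, hdj⟩
    have hoff : ∀ i, ∀ d ∈ (A i).map (Function.Embedding.subtype _),
        ¬ ∃ j, (F j).On d := by
      intro i d hd
      rw [Finset.mem_map] at hd
      obtain ⟨e, -, rfl⟩ := hd
      exact fun h => e.2 (Or.inl h)
    refine ⟨Fin.addCases (fun i => (A i).map (Function.Embedding.subtype _))
      (fun j => cyc (F j)), ?_, ?_⟩
    · intro i
      refine Fin.addCases (fun i => ?_) (fun j => ?_) i
      · simp only [Fin.addCases_left]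
        obtain ⟨⟨a, ha⟩, h2, h3⟩ := hA i
        refine ⟨⟨a.1, Finset.mem_map.mpr ⟨a, ha, rfl⟩⟩, ?_, ?_⟩
        · intro d hd
          rw [Finset.mem_map] at hd ⊢
          obtain ⟨e, he, rfl⟩ := hd
          exact ⟨_, h2 e he, rfl⟩
        · intro d hd
          rw [Finset.mem_map] at hd
          obtain ⟨e, he, rfl⟩ := hd
          obtain ⟨f, hf, hne, hπ⟩ := h3 e he
          have h4 : orb G f.1 = orb G e.1 := congrArg Subtype.val hπ
          have h5 : f.1 ∈ orb G e.1 := by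
            rw [← h4, mem_orb]
            exact svRefl G _
          rw [mem_orb] at h5
          rcases h5 with h5 | h5 | h5
          · exact absurd (Subtype.ext h5) hne
          · left
            rw [Finset.mem_map]
            exact ⟨f, hf, h5⟩
          · right
            rw [Finset.mem_map]
            exact ⟨f, hf, h5⟩
      · simp only [Fin.addCases_right]
        exact cyc_ts (F j)
    · intro i j
      refine Fin.addCases (fun i => ?_) (fun i => ?_) i <;>
        refine Fin.addCases (fun j => ?_) (fun j => ?_) j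
      · intro hij
        simp only [Fin.addCases_left]
        rw [Finset.disjoint_map]
        exact hdj i j fun h => hij (by rw [h])
      · intro _
        simp only [Fin.addCases_left, Fin.addCases_right]
        rw [Finset.disjoint_left]
        exact fun d hd hd' => hoff i d hd ⟨j, cyc_on hd'⟩
      · intro _
        simp only [Fin.addCases_left, Fin.addCases_right]
        rw [Finset.disjoint_left]
        exact fun d hd hd' => hoff j d hd' ⟨i, cyc_on hd⟩
      · intro hij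
        simp only [Fin.addCases_right]
        rw [Finset.disjoint_left]
        exact fun d hd hd' => hF i j (fun h => hij (by rw [h])) d ⟨cyc_on hd, cyc_on hd'⟩

end Pool.Agent.CP51
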