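import Pool.Agent.CP51.Defs

/-!
# Unfair darts are rare (section 3 (a) of the page)
-/

namespace Pool.Agent.CP51

variable {D : Type}

open Classical in
/-- The weights: `1` after a fair dart, `1/2` and `3/2` after an unfair one. -/
private noncomputable def phiFair {G : Cub D} [Fintype D] {l : ℕ} (s : G.H l → ℝ)
    (e f : D) : ℝ :=
  if Cub.Fair s e then 1 else if Cub.y2 s e f < Cub.y1 s e / 4 then 1 / 2 else 3 / 2

open Classical in
private noncomputable def psiFair {G : Cub D} [Fintype D] {l : ℕ} (s : G.H l → ℝ)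
    (e f : D) : ℝ :=
  (if f = G.σ (G.τ e) then phiFair s e f else 0) +
    (if f = G.σ (G.σ (G.τ e)) then phiFair s e f else 0)

private lemma phi_posFair {G : Cub D} [Fintype D] {l : ℕ} (s : G.H l → ℝ) (e f : D) :
    0 < phiFair s e f := by
  unfold phiFair
  split_ifs <;> norm_num

private lemma phi_le_psiFair {G : Cub D} [Fintype D] {l : ℕ} (s : G.H l → ℝ) (e f : D)
    (h : G.Fol e f) : phiFair s e f ≤ psiFair s e f := by
  unfold psiFair
  have h0 := phi_posFair s e f
  rcases h with h | h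
  · rw [if_pos h]
    split_ifs <;> linarith
  · rw [if_pos h]
    split_ifs <;> linarith

private lemma psi_nonnegFair {G : Cub D} [Fintype D] {l : ℕ} (s : G.H l → ℝ) (e f : D) :
    0 ≤ psiFair s e f := by
  unfold psiFair
  have h0 := phi_posFair s e f
  split_ifs <;> linarith

private lemma sum_folFair {G : Cub D} [Fintype D] {l : ℕ} (s : G.H l → ℝ) (e : D)
    (h : D → ℝ) :
    (open Classical in ∑ C : G.H l, if C.sq 0 = e then s C * h (C.sq 1) else 0) =
      Cub.y2 s e (G.σ (G.τ e)) * h (G.σ (G.τ e)) +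
        Cub.y2 s e (G.σ (G.σ (G.τ e))) * h (G.σ (G.σ (G.τ e))) := by
  classical
  unfold Cub.y2
  rw [Finset.sum_mul, Finset.sum_mul, ← Finset.sum_add_distrib]
  refine Finset.sum_congr rfl fun C _ => ?_
  by_cases h0 : C.sq 0 = e
  · have hf : G.Fol (C.sq 0) (C.sq 1) := by
      have := C.fol (0 : ℤ)
      simpa [Cub.H.sq] using this
    have hne : G.σ (G.σ (G.τ e)) ≠ G.σ (G.τ e) := G.σne _
    rw [h0] at hf
    rcases hf with hf | hf
    · simp [h0, hf, hne.symm]
    · simp [h0, hf, hne]
  · simp [h0]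

private lemma y1_eqFair {G : Cub D} [Fintype D] {l : ℕ} (s : G.H l → ℝ) (e : D) :
    Cub.y1 s e = Cub.y2 s e (G.σ (G.τ e)) + Cub.y2 s e (G.σ (G.σ (G.τ e))) := by
  classical
  have h := sum_folFair s e (fun _ => 1)
  simp only [mul_one] at h
  rw [← h]
  rfl

private lemma y1_nonnegFair {G : Cub D} [Fintype D] {l : ℕ} (s : G.H l → ℝ)
    (hs : ∀ C, 0 ≤ s C) (e : D) : 0 ≤ Cub.y1 s e := by
  classical
  unfold Cub.y1
  refine Finset.sum_nonneg fun C _ => ?_
  split_ifs
  · exact hs C
  · exact le_rfl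

private lemma sum_psiFair {G : Cub D} [Fintype D] {l : ℕ} (s : G.H l → ℝ)
    (hs : ∀ C, 0 ≤ s C) (e : D) : ∑ f, psiFair s e f = 2 := by
  classical
  unfold psiFair
  rw [Finset.sum_add_distrib]
  simp only [Finset.sum_ite_eq', Finset.mem_univ, if_true]
  have h1 := y1_eqFair s e
  have h2 := y1_nonnegFair s hs e
  unfold phiFair
  by_cases hF : Cub.Fair s e
  · simp only [hF, if_true]
    norm_num
  · simp only [hF, if_false]
    unfold Cub.Fair at hF
    rw [not_and_or, not_le, not_le] at hF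
    rcases hF with hF | hF
    · rw [if_pos hF, if_neg (by linarith)]
      norm_num
    · rw [if_pos hF, if_neg (by linarith)]
      norm_num

private lemma sum_chainFair [Fintype D] (ψ : D → D → ℝ) (h : ∀ e, ∑ f, ψ e f = 2) (w : ℕ) :
    ∑ p : Fin (w + 1) → D, ∏ i : Fin w, ψ (p i.castSucc) (p i.succ) =
      Fintype.card D * 2 ^ w := by
  induction w with
  | zero => simp
  | succ w ih =>
    rw [← (Fin.snocEquiv (fun _ : Fin (w + 2) => D)).sum_comp, Fintype.sum_prod_type,
      Finset.sum_comm]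
    have h1 : ∀ (q : Fin (w + 1) → D) (f : D),
        ∏ i : Fin (w + 1), ψ ((Fin.snocEquiv (fun _ : Fin (w + 2) => D)) (f, q) i.castSucc)
          ((Fin.snocEquiv (fun _ : Fin (w + 2) => D)) (f, q) i.succ) =
        (∏ i : Fin w, ψ (q i.castSucc) (q i.succ)) * ψ (q (Fin.last w)) f := by
      intro q f
      rw [Fin.prod_univ_castSucc]
      congr 1
      · refine Finset.prod_congr rfl fun i _ => ?_
        simp only [Fin.snocEquiv_apply]
        rw [Fin.snoc_castSucc, Fin.succ_castSucc, Fin.snoc_castSucc]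
      · simp only [Fin.snocEquiv_apply]
        rw [Fin.snoc_castSucc, Fin.succ_last, Fin.snoc_last]
    simp only [h1]
    simp only [← Finset.mul_sum, h]
    rw [← Finset.sum_mul, ih]
    ring

private noncomputable def rotEquivFair (G : Cub D) (l : ℕ) : G.H l ≃ G.H l where
  toFun := Cub.H.rot
  invFun C := ⟨C.n, fun i => C.c (i - 1), fun i => by
    have := C.fol (i - 1)
    rwa [show i - 1 + 1 = i + 1 - 1 by ring] at this⟩
  left_inv C := by
    obtain ⟨n, c, h⟩ := C
    have : (fun i => c (i - 1 + 1)) = c := funext fun i => by rw [sub_add_cancel]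
    simp only [Cub.H.rot, Cub.H.mk.injEq, heq_eq_eq, true_and]
    exact this
  right_inv C := by
    obtain ⟨n, c, h⟩ := C
    have : (fun i => c (i + 1 - 1)) = c := funext fun i => by rw [add_sub_cancel_right]
    simp only [Cub.H.rot, Cub.H.mk.injEq, heq_eq_eq, true_and]
    exact this

private lemma rot_sqFair {G : Cub D} {l : ℕ} (C : G.H l) (i : ℤ) :
    C.rot.sq i = C.sq (i + 1) := by
  change C.c ((i : ZMod (C.n.1 + 1)) + 1) = C.c (((i + 1 : ℤ)) : ZMod (C.n.1 + 1))
  push_cast
  rfl

private lemma shiftFair {G : Cub D} [Fintype D] {l : ℕ} (s : G.H l → ℝ)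
    (hrot : ∀ C, s C.rot = s C) (g : D → D → ℝ) (i : ℕ) :
    ∑ C : G.H l, s C * g (C.sq i) (C.sq (i + 1)) =
      ∑ C : G.H l, s C * g (C.sq 0) (C.sq 1) := by
  induction i with
  | zero => simp
  | succ i ih =>
    rw [← ih, ← (rotEquivFair G l).sum_comp (fun C => s C * g (C.sq i) (C.sq (i + 1)))]
    refine Finset.sum_congr rfl fun C _ => ?_
    change _ = s C.rot * g (C.rot.sq i) (C.rot.sq (i + 1))
    rw [hrot, rot_sqFair, rot_sqFair]
    push_cast
    rfl

private lemma window_leFair {G : Cub D} [Fintype D] {l : ℕ} (F : G.H l → ℝ) (w Mw : ℕ)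
    (hw : ∀ p : ℕ → D, (open Classical in
      (Finset.univ.filter fun C : G.H l => ∀ i ≤ w, C.sq i = p i).card) ≤ Mw)
    (K : (Fin (w + 1) → D) → ℝ) (hK : ∀ p, 0 ≤ K p)
    (hF : ∀ C : G.H l, F C ≤ K fun i => C.sq (i.1 : ℤ)) :
    ∑ C : G.H l, F C ≤ Mw * ∑ p, K p := by
  classical
  calc ∑ C : G.H l, F C ≤ ∑ C : G.H l, K fun i => C.sq (i.1 : ℤ) :=
        Finset.sum_le_sum fun C _ => hF C
    _ = ∑ p : Fin (w + 1) → D, ∑ C ∈ Finset.univ.filter
          (fun C : G.H l => (fun i : Fin (w + 1) => C.sq (i.1 : ℤ)) = p), K p := by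
        rw [← Finset.sum_fiberwise (s := (Finset.univ : Finset (G.H l)))
          (g := fun C : G.H l => (fun i : Fin (w + 1) => C.sq (i.1 : ℤ)))]
        refine Finset.sum_congr rfl fun p _ => Finset.sum_congr rfl fun C hC => ?_
        rw [(Finset.mem_filter.1 hC).2]
    _ ≤ ∑ p : Fin (w + 1) → D, Mw * K p := by
        refine Finset.sum_le_sum fun p _ => ?_
        rw [Finset.sum_const, nsmul_eq_mul]
        refine mul_le_mul_of_nonneg_right ?_ (hK p)
        have h1 := hw (fun i => if h : i < w + 1 then p ⟨i, h⟩ else p 0)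
        have h2 : (Finset.univ.filter
            (fun C : G.H l => (fun i : Fin (w + 1) => C.sq (i.1 : ℤ)) = p)).card ≤ Mw := by
          refine le_trans (Finset.card_le_card ?_) h1
          intro C hC
          rw [Finset.mem_filter] at hC ⊢
          refine ⟨Finset.mem_univ _, fun i hi => ?_⟩
          rw [dif_pos (Nat.lt_succ_of_le hi), ← hC.2]
        exact_mod_cast h2
    _ = Mw * ∑ p, K p := by rw [Finset.mul_sum]

private lemma log_phiFair {G : Cub D} [Fintype D] {l : ℕ} (s : G.H l → ℝ)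
    (hs : ∀ C, 0 ≤ s C) :
    0.18 * (open Classical in ∑ C : G.H l, if Cub.Fair s (C.sq 0) then 0 else s C) ≤
      ∑ C : G.H l, s C * Real.logb 2 (phiFair s (C.sq 0) (C.sq 1)) := by
  classical
  rw [← Finset.sum_fiberwise (s := (Finset.univ : Finset (G.H l)))
      (g := fun C : G.H l => C.sq 0) (f := fun C => s C * Real.logb 2 _),
    ← Finset.sum_fiberwise (s := (Finset.univ : Finset (G.H l)))
      (g := fun C : G.H l => C.sq 0) (f := fun C => if Cub.Fair s (C.sq 0) then 0 else s C),
    Finset.mul_sum]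
  refine Finset.sum_le_sum fun e _ => ?_
  rw [Finset.sum_filter, Finset.sum_filter]
  have h1 : (∑ C : G.H l, if C.sq 0 = e then
      s C * Real.logb 2 (phiFair s (C.sq 0) (C.sq 1)) else 0) =
      ∑ C : G.H l, if C.sq 0 = e then s C * Real.logb 2 (phiFair s e (C.sq 1)) else 0 := by
    refine Finset.sum_congr rfl fun C _ => ?_
    by_cases h : C.sq 0 = e
    · simp [h]
    · simp [h]
  have h2 : (∑ C : G.H l, if C.sq 0 = e then
      (if Cub.Fair s (C.sq 0) then 0 else s C) else 0) =
      if Cub.Fair s e then 0 else Cub.y1 s e := by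
    by_cases hF : Cub.Fair s e
    · rw [if_pos hF]
      refine Finset.sum_eq_zero fun C _ => ?_
      by_cases h : C.sq 0 = e
      · simp [h, hF]
      · simp [h]
    · rw [if_neg hF]
      unfold Cub.y1
      refine Finset.sum_congr rfl fun C _ => ?_
      by_cases h : C.sq 0 = e
      · simp [h, hF]
      · simp [h]
  rw [h1, h2, sum_folFair s e (fun f => Real.logb 2 (phiFair s e f))]
  have h3 := y1_eqFair s e
  have h4 := y1_nonnegFair s hs e
  have hlog : (0.58 : ℝ) ≤ Real.logb 2 (3 / 2) := by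
    rw [Real.le_logb_iff_rpow_le (by norm_num) (by norm_num)]
    have : (2 : ℝ) ^ (0.58 : ℝ) ≤ 3 / 2 := by
      have h5 : (2 : ℝ) ^ (0.58 : ℝ) = ((2 : ℝ) ^ (29 : ℕ)) ^ ((1 : ℝ) / 50) := by
        rw [← Real.rpow_natCast, ← Real.rpow_mul (by norm_num)]
        norm_num
      rw [h5]
      have h6 : ((3 / 2 : ℝ)) = ((3 / 2 : ℝ) ^ (50 : ℕ)) ^ ((1 : ℝ) / 50) := by
        rw [← Real.rpow_natCast, ← Real.rpow_mul (by norm_num)]
        norm_num
      rw [h6]
      exact Real.rpow_le_rpow (by norm_num) (by norm_num) (by norm_num)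
    exact this
  have hhalf : Real.logb 2 (1 / 2) = -1 := by
    rw [one_div, Real.logb_inv, Real.logb_self_eq_one (by norm_num)]
  by_cases hF : Cub.Fair s e
  · simp [phiFair, hF]
  · rw [if_neg hF]
    simp only [phiFair, hF, if_false]
    unfold Cub.Fair at hF
    rw [not_and_or, not_le, not_le] at hF
    rcases hF with hF | hF
    · rw [if_pos hF, if_neg (by linarith), hhalf]
      nlinarith
    · rw [if_pos hF, if_neg (by linarith), hhalf]
      nlinarith

/-- Exponential weights and Jensen: the weight of the walks whose first dart is unfair. -/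
theorem unfair_small (G : Cub D) [Fintype D] {l : ℕ} (s : G.H l → ℝ) (hs : ∀ C, 0 ≤ s C)
    (hS : 0 < ∑ C, s C) (hrot : ∀ C, s C.rot = s C) (w Mw : ℕ)
    (hw : ∀ p : ℕ → D, (open Classical in
      (Finset.univ.filter fun C : G.H l => ∀ i ≤ w, C.sq i = p i).card) ≤ Mw)
    (ρ : ℝ) (hρ0 : 0 < ρ) (hρ : ∀ C, s C ≤ ρ * ∑ B, s B) :
    0.18 * w * (open Classical in ∑ C : G.H l, if Cub.Fair s (C.sq 0) then 0 else s C) ≤
      (∑ C, s C) * Real.logb 2 (ρ * Mw * Fintype.card D * 2 ^ w) := by
  classical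
  set S := ∑ C, s C with hSdef
  set A : ℝ := ρ * Mw * Fintype.card D * 2 ^ w with hA
  have hC0 : ∃ C : G.H l, 0 < s C := by
    by_contra hcon
    push Not at hcon
    exact absurd hS (not_lt.2 (Finset.sum_nonpos fun C _ => hcon C))
  obtain ⟨C0, -⟩ := hC0
  have hMw : 0 < Mw := by
    refine lt_of_lt_of_le ?_ (hw fun i => C0.sq i)
    refine Finset.card_pos.2 ⟨C0, ?_⟩
    rw [Finset.mem_filter]
    exact ⟨Finset.mem_univ _, fun i _ => rfl⟩
  have hD : 0 < Fintype.card D := Fintype.card_pos_iff.2 ⟨C0.sq 0⟩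
  have hA0 : 0 < A := by
    have h1 : (0 : ℝ) < Mw := by exact_mod_cast hMw
    have h2 : (0 : ℝ) < Fintype.card D := by exact_mod_cast hD
    positivity
  -- the product along the window
  set P : G.H l → ℝ := fun C => ∏ i ∈ Finset.range w,
    phiFair s (C.sq (i : ℤ)) (C.sq ((i : ℤ) + 1)) with hP
  have hPpos : ∀ C, 0 < P C := fun C => Finset.prod_pos fun i _ => phi_posFair _ _ _
  have hPsum : ∑ C, P C ≤ Mw * (Fintype.card D * 2 ^ w) := by
    rw [← sum_chainFair (psiFair s) (sum_psiFair s hs) w]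
    refine window_leFair P w Mw hw _
      (fun p => Finset.prod_nonneg fun i _ => psi_nonnegFair _ _ _) fun C => ?_
    rw [hP]
    simp only
    rw [Finset.prod_range]
    refine Finset.prod_le_prod (fun i _ => (phi_posFair _ _ _).le) fun i _ => ?_
    have hf : G.Fol (C.sq (i.1 : ℤ)) (C.sq ((i.1 : ℤ) + 1)) := by
      have := C.fol ((i.1 : ℤ) : ZMod (C.n.1 + 1))
      simpa [Cub.H.sq] using this
    have := phi_le_psiFair s _ _ hf
    simpa using this
  have hsP : ∑ C, s C * P C ≤ S * A := by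
    calc ∑ C, s C * P C ≤ ∑ C, (ρ * S) * P C :=
          Finset.sum_le_sum fun C _ => mul_le_mul_of_nonneg_right (hρ C) (hPpos C).le
      _ = (ρ * S) * ∑ C, P C := (Finset.mul_sum _ _ _).symm
      _ ≤ (ρ * S) * (Mw * (Fintype.card D * 2 ^ w)) :=
          mul_le_mul_of_nonneg_left hPsum (by positivity)
      _ = S * A := by rw [hA]; ring
  have hlog2 : 0 < Real.log 2 := Real.log_pos (by norm_num)
  have hmain : ∑ C, s C * Real.logb 2 (P C) ≤ S * Real.logb 2 A := by
    have h1 : ∀ C, s C * Real.log (P C) ≤ s C * Real.log A + (s C * P C / A - s C) := by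
      intro C
      have h2 := Real.log_le_sub_one_of_pos (div_pos (hPpos C) hA0)
      rw [Real.log_div (hPpos C).ne' hA0.ne'] at h2
      have h3 := mul_le_mul_of_nonneg_left h2 (hs C)
      have h4 : s C * (P C / A - 1) = s C * P C / A - s C := by ring
      nlinarith
    have h2 : ∑ C, s C * Real.log (P C) ≤ S * Real.log A := by
      calc ∑ C, s C * Real.log (P C)
          ≤ ∑ C, (s C * Real.log A + (s C * P C / A - s C)) :=
            Finset.sum_le_sum fun C _ => h1 C
        _ = S * Real.log A + ((∑ C, s C * P C) / A - S) := by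
            rw [Finset.sum_add_distrib, Finset.sum_sub_distrib, ← Finset.sum_mul,
              Finset.sum_div]
        _ ≤ S * Real.log A := by
            have : (∑ C, s C * P C) / A ≤ S := by
              rw [div_le_iff₀ hA0]
              exact hsP
            linarith
    simp only [Real.logb]
    have h3 : ∑ C, s C * (Real.log (P C) / Real.log 2) =
        (∑ C, s C * Real.log (P C)) / Real.log 2 := by
      rw [Finset.sum_div]
      exact Finset.sum_congr rfl fun C _ => by ring
    rw [h3, show S * (Real.log A / Real.log 2) = S * Real.log A / Real.log 2 by ring]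
    exact div_le_div_of_nonneg_right h2 hlog2.le
  refine le_trans ?_ hmain
  have hexp : ∑ C, s C * Real.logb 2 (P C) =
      w * ∑ C, s C * Real.logb 2 (phiFair s (C.sq 0) (C.sq 1)) := by
    have h1 : ∀ C, s C * Real.logb 2 (P C) = ∑ i ∈ Finset.range w,
        s C * Real.logb 2 (phiFair s (C.sq (i : ℤ)) (C.sq ((i : ℤ) + 1))) := by
      intro C
      rw [hP]
      simp only
      rw [Real.logb_prod _ _ (fun i _ => (phi_posFair _ _ _).ne'), Finset.mul_sum]
    rw [Finset.sum_congr rfl fun C _ => h1 C, Finset.sum_comm]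
    rw [Finset.sum_congr rfl fun i _ =>
      shiftFair s hrot (fun e f => Real.logb 2 (phiFair s e f)) i]
    rw [Finset.sum_const, Finset.card_range, nsmul_eq_mul]
  rw [hexp]
  have := mul_le_mul_of_nonneg_left (log_phiFair s hs) (Nat.cast_nonneg (α := ℝ) w)
  calc _ = (w : ℝ) * (0.18 * ∑ C : G.H l, if Cub.Fair s (C.sq 0) then 0 else s C) := by ring
    _ ≤ _ := this

end Pool.Agent.CP51
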