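import Pool.Agent.CP51.Defs
import Pool.Agent.DC31.Defs

/-!
# Simple graphs
-/

namespace Pool.Agent.CP51

open Pool.Agent.DC31

/-- A finite graph with an edge and without vertices of degree one contains a cycle. -/
theorem not_acyclic {V : Type} [Fintype V] (H : SimpleGraph V) {a b : V} (hab : H.Adj a b)
    (hd : ∀ u v, H.Adj u v → ∃ w, H.Adj u w ∧ w ≠ v) : ¬ H.IsAcyclic := by
  intro hac
  have key : ∀ k : ℕ, ∃ (u v : V) (p : H.Walk u v), p.IsPath ∧ p.length = k + 1 := by
    intro k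
    induction k with
    | zero =>
      refine ⟨a, b, hab.toWalk, ?_, rfl⟩
      rw [SimpleGraph.Walk.isPath_def]
      simp [hab.ne]
    | succ k ih =>
      obtain ⟨u, v, p, hp, hl⟩ := ih
      have hn : ¬ p.Nil := by
        intro h
        rw [← SimpleGraph.Walk.length_eq_zero_iff] at h
        omega
      obtain ⟨w, hw, hne⟩ := hd u p.snd (p.adj_snd hn)
      refine ⟨w, v, SimpleGraph.Walk.cons hw.symm p, ?_, by simp [hl]⟩
      rw [SimpleGraph.Walk.cons_isPath_iff]
      exact ⟨hp, fun hs => hne (hac.eq_snd_of_adj_start hp hw hs)⟩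
  obtain ⟨u, v, p, hp, hl⟩ := key (Fintype.card V)
  have := hp.length_lt
  omega

/-- The multigraph of a simple graph; disjoint sets without vertices of degree one give
edge-disjoint cycles. -/
theorem graph_mg {n : ℕ} (G : SimpleGraph (Fin n)) :
    ∃ (D : Type) (_ : Fintype D) (M : MG D (Fin n)),
      Fintype.card D = 2 * G.edgeSet.ncard ∧ ∀ k, M.Pack k → HasCycles G k := by
  classical
  refine ⟨G.Dart, inferInstance, ⟨fun d => d.symm, fun d => d.fst, fun d => d.symm_symm,
    fun d => d.symm_ne⟩, ?_, ?_⟩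
  · rw [G.dart_card_eq_twice_card_edges, Set.ncard_eq_toFinset_card']
    rfl
  · rintro k ⟨A, hA, hdis⟩
    -- the subgraph of `A i`
    let H : Fin k → SimpleGraph (Fin n) := fun i =>
      { Adj := fun u v => ∃ d ∈ A i, d.fst = u ∧ d.snd = v
        symm := ⟨fun u v ⟨d, hd, h1, h2⟩ => ⟨d.symm, (hA i).2.1 d hd, h2, h1⟩⟩
        loopless := ⟨fun u ⟨d, _, h1, h2⟩ => d.fst_ne_snd (h1.trans h2.symm)⟩ }
    have hle : ∀ i, H i ≤ G := fun i u v ⟨d, _, h1, h2⟩ => h1 ▸ h2 ▸ d.adj
    have hcyc : ∀ i, ∃ (u : Fin n) (c : (H i).Walk u u), c.IsCycle := by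
      intro i
      obtain ⟨⟨d0, hd0⟩, -, h3⟩ := hA i
      have h4 := not_acyclic (H i) (a := d0.fst) (b := d0.snd) ⟨d0, hd0, rfl, rfl⟩ (by
        rintro u v ⟨d, hd, h1, h2⟩
        obtain ⟨e, he, hne, hπ⟩ := h3 d hd
        refine ⟨e.snd, ⟨e, he, hπ.trans h1, rfl⟩, fun h => hne ?_⟩
        exact SimpleGraph.Dart.ext _ _ (Prod.ext hπ (h.trans h2.symm)))
      unfold SimpleGraph.IsAcyclic at h4
      push Not at h4
      exact h4
    choose u c hc using hcyc
    refine ⟨u, fun i => (c i).mapLe (hle i), fun i => (hc i).mapLe (hle i), fun i j hij e he he' => ?_⟩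
    rw [SimpleGraph.Walk.edges_mapLe_eq_edges] at he he'
    have h1 := (c i).edges_subset_edgeSet he
    have h2 := (c j).edges_subset_edgeSet he'
    induction e with
    | h x y =>
      rw [SimpleGraph.mem_edgeSet] at h1 h2
      obtain ⟨d, hd, hx, hy⟩ := h1
      obtain ⟨d', hd', hx', hy'⟩ := h2
      have h3 : d = d' := SimpleGraph.Dart.ext _ _ (Prod.ext (hx.trans hx'.symm) (hy.trans hy'.symm))
      subst h3
      exact Finset.disjoint_left.1 (hdis i j hij) hd hd'

end Pool.Agent.CP51
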