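import Pool.Agent.CP51.Defs

/-!
# Every multigraph of excess `p ≥ 1` has a cubic kernel with `2 p` vertices
-/

namespace Pool.Agent.CP51

open Finset

/-- the conclusion of `kernel` -/
private def Cnc {D V : Type} (M : MG D V) (p : ℕ) : Prop :=
  ∃ (D' : Type) (_ : Fintype D') (G : Cub D'),
    Fintype.card D' = 6 * p ∧ ∀ k, G.Pack k → M.Pack k

private lemma cnc_of_le {D V D' V' : Type} {M : MG D V} {M' : MG D' V'} {p : ℕ}
    (h : ∀ k, M'.Pack k → M.Pack k) (hc : Cnc M' p) : Cnc M p := by
  obtain ⟨E, i, G, h1, h2⟩ := hc
  exact ⟨E, i, G, h1, fun k hk => h k (h2 k hk)⟩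

private lemma pack_of {D V D' V' : Type} {M : MG D V} {M' : MG D' V'}
    (φ : Finset D' → Finset D) (h1 : ∀ A, M'.TS A → M.TS (φ A))
    (h2 : ∀ A B, M'.TS A → M'.TS B → Disjoint A B → Disjoint (φ A) (φ B)) (k : ℕ)
    (hk : M'.Pack k) : M.Pack k := by
  obtain ⟨A, hA, hd⟩ := hk
  exact ⟨fun i => φ (A i), fun i => h1 _ (hA i), fun i j hij => h2 _ _ (hA i) (hA j) (hd i j hij)⟩

/-! ### Deletion of edges and vertices -/

/-- the submultigraph on the darts `P` and the vertices `Q` -/
private def remv {D V : Type} (M : MG D V) (P : D → Prop) (hP : ∀ d, P d → P (M.τ d))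
    (Q : V → Prop) (hQ : ∀ d, P d → Q (M.π d)) : MG {d // P d} {v // Q v} where
  τ d := ⟨M.τ d, hP d d.2⟩
  π d := ⟨M.π d, hQ d d.2⟩
  ττ d := Subtype.ext (M.ττ d)
  τne d h := M.τne d (congrArg Subtype.val h)

private lemma remv_pack {D V : Type} (M : MG D V) (P : D → Prop) (hP : ∀ d, P d → P (M.τ d))
    (Q : V → Prop) (hQ : ∀ d, P d → Q (M.π d)) (k : ℕ) (hk : (remv M P hP Q hQ).Pack k) :
    M.Pack k := by
  refine pack_of (fun A => A.map (Function.Embedding.subtype _)) ?_ ?_ k hk
  · rintro A ⟨h1, h2, h3⟩
    refine ⟨h1.map, ?_, ?_⟩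
    · intro d hd
      rw [mem_map] at hd ⊢
      obtain ⟨e, he, rfl⟩ := hd
      exact ⟨_, h2 e he, rfl⟩
    · intro d hd
      rw [mem_map] at hd
      obtain ⟨e, he, rfl⟩ := hd
      obtain ⟨f, hf, hfe, hπ⟩ := h3 e he
      exact ⟨f, mem_map.2 ⟨f, hf, rfl⟩, fun h => hfe (Subtype.ext h), congrArg Subtype.val hπ⟩
  · intro A B _ _ h
    exact (disjoint_map _).2 h

/-! ### Suppression of a vertex of degree two -/

section supp

variable {D V : Type} (M : MG D V) {a b : D} {v : V}

open Classical in
/-- the dart map after the suppression -/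
private noncomputable def tsup (a b : D) (d : D) : D :=
  if d = M.τ a then M.τ b else if d = M.τ b then M.τ a else M.τ d

private lemma tsup_ne (hab : M.τ a ≠ b) {d : D} (hd : d ≠ a ∧ d ≠ b) :
    tsup M a b d ≠ a ∧ tsup M a b d ≠ b := by
  have hba : M.τ b ≠ a := fun h => hab (by rw [← h, M.ττ])
  unfold tsup
  split_ifs with h1 h2
  · exact ⟨hba, M.τne b⟩
  · exact ⟨M.τne a, hab⟩
  · exact ⟨fun h => h1 (by rw [← h, M.ττ]), fun h => h2 (by rw [← h, M.ττ])⟩

private lemma tsup_tsup (d : D) (hd : d ≠ a ∧ d ≠ b) : tsup M a b (tsup M a b d) = d := by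
  unfold tsup
  by_cases h1 : d = M.τ a
  · rw [if_pos h1]
    by_cases h3 : M.τ b = M.τ a
    · rw [if_pos h3, h3, h1]
    · rw [if_neg h3, if_pos rfl, h1]
  · rw [if_neg h1]
    by_cases h2 : d = M.τ b
    · rw [if_pos h2, if_pos rfl, h2]
    · rw [if_neg h2, if_neg, if_neg, M.ττ]
      · intro h
        exact hd.2 (by rw [← M.ττ d, h, M.ττ])
      · intro h
        exact hd.1 (by rw [← M.ττ d, h, M.ττ])

private lemma tsup_self (hne : a ≠ b) (d : D) : tsup M a b d ≠ d := by
  have hne' : M.τ a ≠ M.τ b := fun h => hne (by rw [← M.ττ a, h, M.ττ])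
  unfold tsup
  split_ifs with h1 h2
  · rw [h1]; exact hne'.symm
  · rw [h2]; exact hne'
  · exact M.τne d

/-- suppression -/
private noncomputable def supp (hne : a ≠ b) (hab : M.τ a ≠ b)
    (hv : ∀ d, M.π d = v → d = a ∨ d = b) : MG {d // d ≠ a ∧ d ≠ b} {w // w ≠ v} where
  τ d := ⟨tsup M a b d, tsup_ne M hab d.2⟩
  π d := ⟨M.π d, fun h => (hv d h).elim d.2.1 d.2.2⟩
  ττ d := Subtype.ext (tsup_tsup M d d.2)
  τne d h := tsup_self M hne d (congrArg Subtype.val h)

private lemma supp_pack (hne : a ≠ b) (hab : M.τ a ≠ b) (ha : M.π a = v) (hb : M.π b = v)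
    (hv : ∀ d, M.π d = v → d = a ∨ d = b) (k : ℕ) (hk : (supp M hne hab hv).Pack k) :
    M.Pack k := by
  classical
  have hba : M.τ b ≠ a := fun h => hab (by rw [← h, M.ττ])
  set ta : {d // d ≠ a ∧ d ≠ b} := ⟨M.τ a, M.τne a, hab⟩ with hta
  set tb : {d // d ≠ a ∧ d ≠ b} := ⟨M.τ b, hba, M.τne b⟩ with htb
  have e1 : (supp M hne hab hv).τ ta = tb := by
    apply Subtype.ext
    show tsup M a b (M.τ a) = M.τ b
    unfold tsup
    rw [if_pos rfl]
  have e2 : (supp M hne hab hv).τ tb = ta := by
    rw [← e1, (supp M hne hab hv).ττ]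
  refine pack_of (fun A => A.map (Function.Embedding.subtype _) ∪
    (if ta ∈ A then {a, b} else ∅)) ?_ ?_ k hk
  · rintro A ⟨h1, h2, h3⟩
    have hmem : ∀ x, x ∈ A.map (Function.Embedding.subtype _) ∪
        (if ta ∈ A then {a, b} else ∅) ↔ (∃ d ∈ A, (d : D) = x) ∨
          (ta ∈ A ∧ (x = a ∨ x = b)) := by
      intro x
      rw [mem_union, mem_map]
      constructor
      · rintro (⟨d, hd, h⟩ | h)
        · exact Or.inl ⟨d, hd, h⟩
        · right
          by_cases h' : ta ∈ A
          · rw [if_pos h', mem_insert, mem_singleton] at h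
            exact ⟨h', h⟩
          · rw [if_neg h'] at h
            exact absurd h (notMem_empty _)
      · rintro (⟨d, hd, h⟩ | ⟨h', h⟩)
        · exact Or.inl ⟨d, hd, h⟩
        · right
          rw [if_pos h', mem_insert, mem_singleton]
          exact h
    refine ⟨?_, ?_, ?_⟩
    · obtain ⟨d, hd⟩ := h1
      exact ⟨d, (hmem _).2 (Or.inl ⟨d, hd, rfl⟩)⟩
    · intro x hx
      rw [hmem] at hx ⊢
      rcases hx with ⟨d, hd, rfl⟩ | ⟨h, rfl | rfl⟩
      · by_cases hda : (d : D) = M.τ a
        · right
          have : d = ta := Subtype.ext hda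
          exact ⟨this ▸ hd, Or.inl (by rw [hda, M.ττ])⟩
        · by_cases hdb : (d : D) = M.τ b
          · right
            have : d = tb := Subtype.ext hdb
            have h4 := h2 d hd
            rw [this, e2] at h4
            exact ⟨h4, Or.inr (by rw [hdb, M.ττ])⟩
          · left
            refine ⟨_, h2 d hd, ?_⟩
            show tsup M a b d = M.τ d
            unfold tsup
            rw [if_neg hda, if_neg hdb]
      · exact Or.inl ⟨ta, h, rfl⟩
      · left
        have h4 := h2 ta h
        rw [e1] at h4
        exact ⟨tb, h4, rfl⟩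
    · intro x hx
      rw [hmem] at hx
      rcases hx with ⟨d, hd, rfl⟩ | ⟨h, rfl | rfl⟩
      · obtain ⟨e, he, hed, hπ⟩ := h3 d hd
        exact ⟨e, (hmem _).2 (Or.inl ⟨e, he, rfl⟩), fun h => hed (Subtype.ext h),
          congrArg Subtype.val hπ⟩
      · exact ⟨b, (hmem _).2 (Or.inr ⟨h, Or.inr rfl⟩), hne.symm, by rw [ha, hb]⟩
      · exact ⟨a, (hmem _).2 (Or.inr ⟨h, Or.inl rfl⟩), hne, by rw [ha, hb]⟩
  · intro A B _ _ h
    rw [Finset.disjoint_left] at h ⊢
    intro x hx hx'
    simp only [mem_union, mem_map] at hx hx'
    have key : ∀ C : Finset {d // d ≠ a ∧ d ≠ b},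
        x ∈ (if ta ∈ C then ({a, b} : Finset D) else ∅) → ta ∈ C ∧ (x = a ∨ x = b) := by
      intro C hC
      by_cases h' : ta ∈ C
      · rw [if_pos h', mem_insert, mem_singleton] at hC
        exact ⟨h', hC⟩
      · rw [if_neg h'] at hC
        exact absurd hC (notMem_empty _)
    rcases hx with ⟨d, hd, hdx⟩ | hx
    · rcases hx' with ⟨d', hd', hdx'⟩ | hx'
      · have : d = d' := Subtype.ext (hdx.trans hdx'.symm)
        exact h hd (this ▸ hd')
      · obtain ⟨_, h5⟩ := key B hx'
        have h6 : (d : D) = x := hdx
        rcases h5 with h5 | h5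
        · exact d.2.1 (h6.trans h5)
        · exact d.2.2 (h6.trans h5)
    · obtain ⟨h4, h5⟩ := key A hx
      rcases hx' with ⟨d', hd', hdx'⟩ | hx'
      · have h6 : (d' : D) = x := hdx'
        rcases h5 with h5 | h5
        · exact d'.2.1 (h6.trans h5)
        · exact d'.2.2 (h6.trans h5)
      · exact h h4 (key B hx').1

end supp

/-! ### Splitting of a vertex of degree at least four -/

section split

variable {D V : Type} (M : MG D V) (a b : D) (v : V)

open Classical in
/-- splitting: `none` gets the darts `a`, `b` and a new one -/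
private noncomputable def splt : MG (D ⊕ Bool) (Option V) where
  τ := Sum.elim (fun d => Sum.inl (M.τ d)) fun c => Sum.inr (!c)
  π := Sum.elim (fun d => if d = a ∨ d = b then none else some (M.π d))
    fun c => if c then some v else none
  ττ d := by
    rcases d with d | c
    · simp [M.ττ]
    · simp
  τne d := by
    rcases d with d | c
    · simpa using M.τne d
    · cases c <;> simp

variable {a b v}

private lemma splt_pack (ha : M.π a = v) (hb : M.π b = v) (k : ℕ)
    (hk : (splt M a b v).Pack k) : M.Pack k := by
  classical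
  have p1 : ∀ d, (splt M a b v).π (Sum.inl d) = if d = a ∨ d = b then none else some (M.π d) :=
    fun d => by simp [splt]
  have p2 : (splt M a b v).π (Sum.inr true) = some v := by simp [splt]
  have p3 : (splt M a b v).π (Sum.inr false) = none := by simp [splt]
  have t1 : ∀ d, (splt M a b v).τ (Sum.inl d) = Sum.inl (M.τ d) := fun d => rfl
  have t2 : ∀ c, (splt M a b v).τ (Sum.inr c) = Sum.inr (!c) := fun c => rfl
  have q : ∀ d c, (splt M a b v).π (Sum.inl d) = (splt M a b v).π (Sum.inr c) → M.π d = v := by
    intro d c h
    rw [p1] at h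
    by_cases hd : d = a ∨ d = b
    · rcases hd with rfl | rfl
      · exact ha
      · exact hb
    · rw [if_neg hd] at h
      cases c
      · rw [p3] at h; exact absurd h (by simp)
      · rw [p2] at h; exact Option.some_injective _ h
  have q2 : ∀ d e, (splt M a b v).π (Sum.inl e) = (splt M a b v).π (Sum.inl d) →
      M.π e = M.π d := by
    intro d e h
    rw [p1, p1] at h
    by_cases hd : d = a ∨ d = b
    · rw [if_pos hd] at h
      by_cases he : e = a ∨ e = b
      · rcases hd with rfl | rfl <;> rcases he with rfl | rfl <;> simp [ha, hb]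
      · rw [if_neg he] at h; exact absurd h (by simp)
    · rw [if_neg hd] at h
      by_cases he : e = a ∨ e = b
      · rw [if_pos he] at h; exact absurd h (by simp)
      · rw [if_neg he] at h; exact Option.some_injective _ h
  have q3 : ∀ c c', (splt M a b v).π (Sum.inr c) = (splt M a b v).π (Sum.inr c') → c = c' := by
    intro c c' h
    cases c <;> cases c'
    · rfl
    · rw [p2, p3] at h; exact absurd h (by simp)
    · rw [p2, p3] at h; exact absurd h (by simp)
    · rfl
  refine pack_of (fun A => A.preimage Sum.inl Sum.inl_injective.injOn) ?_ ?_ k hk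
  · rintro A ⟨h1, h2, h3⟩
    have h4 : ∀ c, Sum.inr c ∈ A → ∃ e, Sum.inl e ∈ A ∧
        (splt M a b v).π (Sum.inl e) = (splt M a b v).π (Sum.inr c) := by
      intro c hc
      obtain ⟨e, he, hne, hπ⟩ := h3 _ hc
      rcases e with e | e
      · exact ⟨e, he, hπ⟩
      · exact absurd (congrArg Sum.inr (q3 _ _ hπ)) hne
    refine ⟨?_, ?_, ?_⟩
    · obtain ⟨x, hx⟩ := h1
      rcases x with d | c
      · exact ⟨d, mem_preimage.2 hx⟩
      · obtain ⟨e, he, _⟩ := h4 c hx
        exact ⟨e, mem_preimage.2 he⟩
    · intro d hd
      rw [mem_preimage] at hd ⊢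
      exact h2 _ hd
    · intro d hd
      rw [mem_preimage] at hd
      obtain ⟨e, he, hne, hπ⟩ := h3 _ hd
      rcases e with e | c
      · exact ⟨e, mem_preimage.2 he, fun h => hne (by rw [h]), q2 _ _ hπ⟩
      · have h5 : Sum.inr (!c) ∈ A := h2 _ he
        obtain ⟨e, he', hπ'⟩ := h4 _ h5
        refine ⟨e, mem_preimage.2 he', ?_, ?_⟩
        · rintro rfl
          have h6 := q3 _ _ (hπ.trans hπ')
          cases c <;> simp at h6
        · rw [q _ _ hπ', q _ _ hπ.symm]
  · intro A B _ _ h
    rw [Finset.disjoint_left] at h ⊢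
    intro x hx hx'
    rw [mem_preimage] at hx hx'
    exact h hx hx'

end split

/-! ### Degrees -/

open Classical in
private noncomputable def dg {D V : Type} [Fintype D] (M : MG D V) (v : V) : ℕ :=
  (univ.filter fun d => M.π d = v).card

private lemma dg_eq {D V : Type} [Fintype D] (M : MG D V) (v : V)
    [DecidablePred fun d => M.π d = v] : dg M v = (univ.filter fun d => M.π d = v).card := by
  unfold dg
  congr

private lemma sum_dg {D V : Type} [Fintype D] [Fintype V] (M : MG D V) :
    ∑ v, dg M v = Fintype.card D := by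
  classical
  rw [← Finset.card_univ, Finset.card_eq_sum_card_fiberwise (f := M.π) (t := univ)
    (fun _ _ => mem_coe.2 (mem_univ _))]
  exact Finset.sum_congr rfl fun v _ => dg_eq M v

private lemma even_card {D V : Type} [Fintype D] (M : MG D V) : Even (Fintype.card D) := by
  classical
  have h : ∑ _d : D, (1 : ZMod 2) = 0 := by
    refine Finset.sum_involution (fun d _ => M.τ d) ?_ ?_ ?_ ?_
    · intro d _
      decide
    · intro d _ _
      exact M.τne d
    · intro d _
      exact mem_univ _
    · intro d _
      exact M.ττ d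
  rw [Finset.sum_const, Finset.card_univ, nsmul_eq_mul, mul_one] at h
  exact even_iff_two_dvd.2 ((ZMod.natCast_eq_zero_iff _ _).1 h)

/-! ### Three regular multigraphs -/

private lemma cubic {D V : Type} [Fintype D] [Fintype V] (M : MG D V) (p : ℕ)
    (h3 : ∀ v, dg M v = 3) (hc : Fintype.card D = 6 * p) : Cnc M p := by
  classical
  have he : ∀ v : V, Nonempty ({d // M.π d = v} ≃ ZMod 3) := by
    intro v
    refine ⟨Fintype.equivOfCardEq ?_⟩
    rw [Fintype.card_subtype, ZMod.card, ← dg_eq M v]
    exact h3 v
  have f : ∀ v : V, {d // M.π d = v} ≃ ZMod 3 := fun v => (he v).some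
  set σ : D → D := fun d => ((f (M.π d)).symm (f (M.π d) ⟨d, rfl⟩ + 1) : D) with hσ
  have hπ : ∀ d, M.π (σ d) = M.π d := fun d =>
    ((f (M.π d)).symm (f (M.π d) ⟨d, rfl⟩ + 1)).2
  have gen : ∀ (v : V) (x : ZMod 3), σ ((f v).symm x : D) = ((f v).symm (x + 1) : D) := by
    intro v x
    have h1 : M.π ((f v).symm x : D) = v := ((f v).symm x).2
    have h2 : ∀ (w : V) (hw : M.π ((f v).symm x : D) = w),
        ((f w).symm (f w ⟨((f v).symm x : D), hw⟩ + 1) : D) = ((f v).symm (x + 1) : D) := by
      rintro w rfl
      have h3 : ∀ (w : V) (hw : v = w), ((f w).symm (f w ⟨((f v).symm x : D),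
          h1.trans hw⟩ + 1) : D) = ((f v).symm (x + 1) : D) := by
        rintro w rfl
        have : (⟨((f v).symm x : D), h1⟩ : {d // M.π d = v}) = (f v).symm x := rfl
        rw [this, Equiv.apply_symm_apply]
      exact h3 _ h1.symm
    exact h2 _ rfl
  have rep : ∀ d, ∃ v x, d = ((f v).symm x : D) := by
    intro d
    exact ⟨M.π d, f (M.π d) ⟨d, rfl⟩, by rw [Equiv.symm_apply_apply]⟩
  clear_value σ
  have s3 : ∀ d, σ (σ (σ d)) = d := by
    intro d
    obtain ⟨v, x, rfl⟩ := rep d
    rw [gen, gen, gen]
    congr 2
    have : (1 : ZMod 3) + 1 + 1 = 0 := by decide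
    rw [add_assoc, add_assoc, ← add_assoc 1 1 1, this, add_zero]
  have sne : ∀ d, σ d ≠ d := by
    intro d
    obtain ⟨v, x, rfl⟩ := rep d
    rw [gen]
    intro h
    have h1 := (f v).symm.injective (Subtype.ext h)
    have h2 : (1 : ZMod 3) = 0 := by
      exact add_eq_left.1 h1
    exact absurd h2 (by decide)
  refine ⟨D, inferInstance, ⟨M.τ, σ, M.ττ, M.τne, s3, sne⟩, hc, ?_⟩
  rintro k ⟨A, hA, hd⟩
  refine ⟨A, fun i => ?_, hd⟩
  obtain ⟨h1, h2, h4⟩ := hA i
  refine ⟨h1, h2, fun d hdA => ?_⟩
  rcases h4 d hdA with h | h
  · exact ⟨_, h, sne d, hπ d⟩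
  · refine ⟨_, h, ?_, (hπ _).trans (hπ d)⟩
    intro h5
    have h6 : σ (σ d) = d := h5
    have h7 := s3 d
    rw [h6] at h7
    exact sne d h7

/-! ### Degrees at least three -/

private lemma kern3 (p : ℕ) : ∀ (n : ℕ) (D V : Type) [Fintype D] [Fintype V] (M : MG D V),
    (∀ v, 3 ≤ dg M v) → Fintype.card D = 2 * (Fintype.card V + p) →
    Fintype.card D = 3 * Fintype.card V + n → Cnc M p := by
  intro n
  induction n with
  | zero =>
    intro D V _ _ M h3 h1 h2
    refine cubic M p ?_ (by omega)
    by_contra hcon
    push Not at hcon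
    obtain ⟨v, hv⟩ := hcon
    have h4 : ∑ _w : V, 3 < ∑ w, dg M w :=
      Finset.sum_lt_sum (fun w _ => h3 w) ⟨v, mem_univ _, lt_of_le_of_ne (h3 v) (Ne.symm hv)⟩
    rw [sum_dg, Finset.sum_const, Finset.card_univ, smul_eq_mul] at h4
    omega
  | succ n ih =>
    intro D V _ _ M h3 h1 h2
    classical
    obtain ⟨v, hv⟩ : ∃ v, 4 ≤ dg M v := by
      by_contra hcon
      push Not at hcon
      have h4 : ∑ w, dg M w ≤ ∑ _w : V, 3 :=
        Finset.sum_le_sum fun w _ => Nat.lt_succ_iff.1 (hcon w)
      rw [sum_dg, Finset.sum_const, Finset.card_univ, smul_eq_mul] at h4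
      omega
    have hone : 1 < (univ.filter fun d => M.π d = v).card := by
      rw [← dg_eq M v]
      omega
    obtain ⟨a, ha, b, hb, hne⟩ := Finset.one_lt_card.1 hone
    rw [mem_filter] at ha hb
    refine cnc_of_le (splt_pack M ha.2 hb.2) (ih (D ⊕ Bool) (Option V) (splt M a b v) ?_ ?_ ?_)
    · have p1 : ∀ d, (splt M a b v).π (Sum.inl d) =
          if d = a ∨ d = b then none else some (M.π d) := fun d => by simp [splt]
      have p2 : (splt M a b v).π (Sum.inr true) = some v := by simp [splt]
      have p3 : (splt M a b v).π (Sum.inr false) = none := by simp [splt]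
      intro w
      rcases w with _ | w
      · have hsub : ({Sum.inl a, Sum.inl b, Sum.inr false} : Finset (D ⊕ Bool)) ⊆
            univ.filter fun d => (splt M a b v).π d = none := by
          intro x hx
          rw [mem_insert, mem_insert, mem_singleton] at hx
          rw [mem_filter]
          refine ⟨mem_univ _, ?_⟩
          rcases hx with rfl | rfl | rfl
          · rw [p1]; simp
          · rw [p1]; simp
          · exact p3
        have hcard : ({Sum.inl a, Sum.inl b, Sum.inr false} : Finset (D ⊕ Bool)).card = 3 := by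
          rw [Finset.card_insert_of_notMem, Finset.card_insert_of_notMem, card_singleton]
          · simp
          · simp [hne]
        have := Finset.card_le_card hsub
        rw [hcard, ← dg_eq (splt M a b v) none] at this
        exact this
      · by_cases hw : w = v
        · subst hw
          have hsub : (((univ.filter fun d => M.π d = w).erase a).erase b).map
              Function.Embedding.inl ∪ {Sum.inr true} ⊆
              univ.filter fun d => (splt M a b w).π d = some w := by
            intro x hx
            rw [mem_union, mem_map, mem_singleton] at hx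
            rw [mem_filter]
            refine ⟨mem_univ _, ?_⟩
            rcases hx with ⟨d, hd, rfl⟩ | rfl
            · rw [mem_erase, mem_erase, mem_filter] at hd
              show (splt M a b w).π (Sum.inl d) = some w
              rw [p1, if_neg (by tauto), hd.2.2.2]
            · exact p2
          have hcard := Finset.card_le_card hsub
          rw [Finset.card_union_of_disjoint, card_map, card_singleton,
            card_erase_of_mem, card_erase_of_mem] at hcard
          · rw [← dg_eq M w, ← dg_eq (splt M a b w) (some w)] at hcard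
            omega
          · rw [mem_filter]; exact ⟨mem_univ _, ha.2⟩
          · rw [mem_erase, mem_filter]; exact ⟨hne.symm, mem_univ _, hb.2⟩
          · rw [Finset.disjoint_left]
            intro x hx hx'
            rw [mem_map] at hx
            rw [mem_singleton] at hx'
            obtain ⟨d, _, rfl⟩ := hx
            simp at hx'
        · have hsub : (univ.filter fun d => M.π d = w).map Function.Embedding.inl ⊆
              univ.filter fun d => (splt M a b v).π d = some w := by
            intro x hx
            rw [mem_map] at hx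
            obtain ⟨d, hd, rfl⟩ := hx
            rw [mem_filter] at hd ⊢
            refine ⟨mem_univ _, ?_⟩
            show (splt M a b v).π (Sum.inl d) = some w
            rw [p1, if_neg, hd.2]
            rintro (rfl | rfl)
            · exact hw (hd.2.symm.trans ha.2)
            · exact hw (hd.2.symm.trans hb.2)
          have hcard := Finset.card_le_card hsub
          rw [card_map, ← dg_eq M w, ← dg_eq (splt M a b v) (some w)] at hcard
          exact (h3 w).trans hcard
    · rw [Fintype.card_sum, Fintype.card_bool, Fintype.card_option]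
      omega
    · rw [Fintype.card_sum, Fintype.card_bool, Fintype.card_option]
      omega

/-! ### The general case -/

private lemma kern (p : ℕ) (hp : 1 ≤ p) : ∀ (n : ℕ) (D V : Type) [Fintype D] [Fintype V]
    (M : MG D V), Fintype.card D + Fintype.card V ≤ n →
    2 * (Fintype.card V + p) ≤ Fintype.card D → Cnc M p := by
  intro n
  induction n with
  | zero =>
    intro D V _ _ M h1 h2
    omega
  | succ n ih =>
    intro D V _ _ M h1 h2
    classical
    by_cases h3 : ∀ v, 3 ≤ dg M v
    · by_cases h4 : 2 * (Fintype.card V + p) + 2 ≤ Fintype.card D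
      · -- delete an edge
        have hpos : 0 < Fintype.card D := by omega
        obtain ⟨a⟩ := Fintype.card_pos_iff.1 hpos
        have hP : ∀ d, (d ≠ a ∧ d ≠ M.τ a) → (M.τ d ≠ a ∧ M.τ d ≠ M.τ a) := by
          rintro d ⟨h5, h6⟩
          exact ⟨fun h => h6 (by rw [← h, M.ττ]), fun h => h5 (by rw [← M.ττ d, h, M.ττ])⟩
        have hc : Fintype.card {d // d ≠ a ∧ d ≠ M.τ a} + 2 = Fintype.card D := by
          rw [Fintype.card_subtype]
          have h5 : (univ.filter fun d => d ≠ a ∧ d ≠ M.τ a) = (univ.erase a).erase (M.τ a) := by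
            ext d
            simp [and_comm]
          rw [h5, card_erase_of_mem, card_erase_of_mem (mem_univ _), card_univ]
          · omega
          · rw [mem_erase]; exact ⟨M.τne a, mem_univ _⟩
        have hv : Fintype.card {v : V // True} = Fintype.card V := by simp
        refine cnc_of_le (remv_pack M _ hP (fun _ => True) fun _ _ => trivial)
          (ih _ _ _ ?_ ?_)
        · rw [hv]; omega
        · rw [hv]; omega
      · have h5 := even_card M
        obtain ⟨r, hr⟩ := h5
        have h6 : Fintype.card D = 2 * (Fintype.card V + p) := by omega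
        have h7 : 3 * Fintype.card V ≤ Fintype.card D := by
          rw [← sum_dg M]
          have : ∑ _w : V, 3 ≤ ∑ w, dg M w := Finset.sum_le_sum fun w _ => h3 w
          rw [Finset.sum_const, Finset.card_univ, smul_eq_mul] at this
          omega
        exact kern3 p (Fintype.card D - 3 * Fintype.card V) D V M h3 h6 (by omega)
    · push Not at h3
      obtain ⟨v, hv⟩ := h3
      have hV : Fintype.card {w // w ≠ v} + 1 = Fintype.card V := by
        rw [Fintype.card_subtype]
        have h5 : (univ.filter fun w => w ≠ v) = univ.erase v := by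
          ext w; simp
        rw [h5, card_erase_of_mem (mem_univ _), card_univ]
        have : 0 < Fintype.card V := Fintype.card_pos_iff.2 ⟨v⟩
        omega
      set F := univ.filter fun d => M.π d = v with hF
      have hFc : F.card ≤ 2 := by
        rw [hF, ← dg_eq M v]
        omega
      by_cases hex : ∃ a b, a ≠ b ∧ M.π a = v ∧ M.π b = v ∧ M.τ a ≠ b
      · obtain ⟨a, b, hne, ha, hb, hab⟩ := hex
        have haF : a ∈ F := by rw [hF, mem_filter]; exact ⟨mem_univ _, ha⟩
        have hbF : b ∈ F := by rw [hF, mem_filter]; exact ⟨mem_univ _, hb⟩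
        have hall : ∀ d, M.π d = v → d = a ∨ d = b := by
          intro d hd
          have hdF : d ∈ F := by rw [hF, mem_filter]; exact ⟨mem_univ _, hd⟩
          by_contra hcon
          push Not at hcon
          have hsub : ({d, a, b} : Finset D) ⊆ F := by
            intro x hx
            rw [mem_insert, mem_insert, mem_singleton] at hx
            rcases hx with rfl | rfl | rfl <;> assumption
          have h5 := Finset.card_le_card hsub
          rw [Finset.card_insert_of_notMem, Finset.card_insert_of_notMem,
            card_singleton] at h5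
          · omega
          · simpa using hne
          · simpa using hcon
        have hc : Fintype.card {d // d ≠ a ∧ d ≠ b} + 2 = Fintype.card D := by
          rw [Fintype.card_subtype]
          have h5 : (univ.filter fun d => d ≠ a ∧ d ≠ b) = (univ.erase a).erase b := by
            ext d
            simp [and_comm]
          have hpos : 1 < Fintype.card D := by
            have := Fintype.one_lt_card_iff.2 ⟨a, b, hne⟩
            exact this
          rw [h5, card_erase_of_mem, card_erase_of_mem (mem_univ _), card_univ]
          · omega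
          · rw [mem_erase]; exact ⟨hne.symm, mem_univ _⟩
        refine cnc_of_le (supp_pack M hne hab ha hb hall) (ih _ _ _ ?_ ?_)
        · omega
        · omega
      · push Not at hex
        -- the darts at `v` and their reversals
        set X := F ∪ F.image M.τ with hX
        have hXc : X.card ≤ 2 := by
          by_cases h5 : F.card ≤ 1
          · have h6 := Finset.card_union_le F (F.image M.τ)
            have h7 := Finset.card_image_le (s := F) (f := M.τ)
            rw [hX]
            omega
          · obtain ⟨a, haF, b, hbF, hne⟩ := Finset.one_lt_card.1 (by omega : 1 < F.card)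
            have haF' : M.π a = v := by rw [hF, mem_filter] at haF; exact haF.2
            have hbF' : M.π b = v := by rw [hF, mem_filter] at hbF; exact hbF.2
            have hab := hex a b hne haF' hbF'
            have hFe : F = {a, b} := by
              refine (Finset.eq_of_subset_of_card_le ?_ ?_).symm
              · intro x hx
                rw [mem_insert, mem_singleton] at hx
                rcases hx with rfl | rfl <;> assumption
              · rw [Finset.card_pair hne]; omega
            have h6 : F.image M.τ = F := by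
              rw [hFe, image_insert, image_singleton, hab, ← hab, M.ττ, hab, pair_comm]
            rw [hX, h6, union_self]
            exact hFc
        have hP : ∀ d, d ∉ X → M.τ d ∉ X := by
          intro d hd h
          apply hd
          rw [hX, mem_union, mem_image] at h ⊢
          rcases h with h | ⟨e, he, hed⟩
          · exact Or.inr ⟨_, h, M.ττ d⟩
          · left
            have : e = d := by rw [← M.ττ e, hed, M.ττ]
            rwa [← this]
        have hQ : ∀ d, d ∉ X → M.π d ≠ v := by
          intro d hd h
          apply hd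
          rw [hX, mem_union]
          left
          rw [hF, mem_filter]
          exact ⟨mem_univ _, h⟩
        have hc : Fintype.card {d // d ∉ X} + X.card = Fintype.card D := by
          rw [Fintype.card_subtype, ← Finset.compl_filter, Finset.card_compl]
          have h5 : (univ.filter fun d => d ∈ X) = X := by ext; simp
          rw [h5]
          have := Finset.card_le_univ X
          omega
        refine cnc_of_le (remv_pack M _ hP (fun w => w ≠ v) hQ) (ih _ _ _ ?_ ?_)
        · omega
        · omega

/-- Pruning, suppression of degree two, splitting of degree at least four. -/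
theorem kernel {D V : Type} [Fintype D] [Fintype V] (M : MG D V) (p : ℕ) (hp : 1 ≤ p)
    (h : 2 * (Fintype.card V + p) ≤ Fintype.card D) :
    ∃ (D' : Type) (_ : Fintype D') (G : Cub D'),
      Fintype.card D' = 6 * p ∧ ∀ k, G.Pack k → M.Pack k :=
  kern p hp _ D V M le_rfl h

end Pool.Agent.CP51
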