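import Pool.Agent.CP51.MainCub
import Pool.Agent.CP51.Delete
import Pool.Agent.CP51.Kernel

/-!
# Iteration of the main step
-/

namespace Pool.Agent.CP51

private lemma pack_mono_Iter {D : Type} (G : Cub D) {s t : ℕ} (h : t ≤ s) (hs : G.Pack s) :
    G.Pack t := by
  obtain ⟨A, hA, hd⟩ := hs
  refine ⟨fun i => A (Fin.castLE h i), fun i => hA _, fun i j hij => hd _ _ ?_⟩
  intro he
  exact hij (Fin.castLE_injective h he)

private lemma cost_Iter {k L : ℕ} (hL : 10000000 ≤ L) (hk : k ≤ L + 1) :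
    ((2 * k - 2 * (k / 30000) : ℕ) : ℝ) ≤ (2 - 1 / 15500) * L := by
  have h1 : k < 30000 * (k / 30000) + 30000 := by omega
  have h2 : 2 * (k / 30000) ≤ 2 * k := by omega
  have h1' : (k : ℝ) < 30000 * ((k / 30000 : ℕ) : ℝ) + 30000 := by exact_mod_cast h1
  have hk' : (k : ℝ) ≤ L + 1 := by exact_mod_cast hk
  have hL' : (10000000 : ℝ) ≤ L := by exact_mod_cast hL
  rw [Nat.cast_sub h2]
  push_cast
  linarith

/-- Many disjoint cycles in cubic multigraphs. -/
theorem iter : ∃ L0 P0 : ℕ, ∀ L ≥ L0, ∀ P ≤ 2 ^ L, ∀ (D : Type) (_ : Fintype D) (G : Cub D),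
    Fintype.card D = 6 * P → ∀ t : ℕ, (2 - 1 / 15500 : ℝ) * L * t + P0 ≤ P → G.Pack t := by
  obtain ⟨K, hK⟩ := main_cub
  refine ⟨10000000, 2 ^ K, fun L hL P => ?_⟩
  induction P using Nat.strong_induction_on with
  | _ P ih =>
    intro hP D _ G hD t ht
    have hL' : (10000000 : ℝ) ≤ L := by exact_mod_cast hL
    have hq0 : (0 : ℝ) ≤ (2 - 1 / 15500 : ℝ) * L := by nlinarith
    have hPK' : ((2 ^ K : ℕ) : ℝ) ≤ P := by
      have h1 : (0 : ℝ) ≤ (2 - 1 / 15500 : ℝ) * L * t := mul_nonneg hq0 (Nat.cast_nonneg _)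
      linarith
    have hPK : 2 ^ K ≤ P := by exact_mod_cast hPK'
    have hP1 : 1 ≤ P := le_trans Nat.one_le_two_pow hPK
    have hN0 : 2 * P ≠ 0 := by omega
    set k := Nat.log 2 (2 * P) with hkdef
    have hk1 : 2 ^ k ≤ 2 * P := Nat.pow_log_le_self 2 hN0
    have hk2 : 2 * P < 2 ^ (k + 1) := Nat.lt_pow_succ_log_self (by norm_num) _
    have hkL : k ≤ L + 1 := by
      have h1 : 2 ^ k ≤ 2 ^ (L + 1) := by
        rw [pow_succ 2 L]
        omega
      exact (Nat.pow_le_pow_iff_right (by norm_num)).1 h1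
    have hkK : K ≤ k := by
      have h1 : 2 ^ K < 2 ^ (k + 1) := by omega
      have h2 := (Nat.pow_lt_pow_iff_right (by norm_num)).1 h1
      omega
    have hk0 : 1 ≤ k := by
      by_contra h0
      have h0' : k = 0 := by omega
      rw [h0'] at hk2
      omega
    obtain ⟨m, l, F, hm, h8, hF, hs, hsum⟩ := hK k hkK D _ G (2 * P) (by omega) hk1 hk2
    have hx := cost_Iter hL hkL
    set x := 2 * k - 2 * (k / 30000) with hxdef
    have hx1 : 1 ≤ x := by omega
    have hxk : x ≤ 2 * k := by omega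
    have hxm1 : 1 ≤ x * m := Nat.mul_pos hx1 hm
    have hxm : x * m ≤ P := by
      have h1 : x * m ≤ 2 * k * m := Nat.mul_le_mul_right m hxk
      nlinarith
    have hc : (P - x * m) + ∑ i, (F i).len ≤
        P + ∑ i, ∑ j ∈ Finset.univ.filter (fun j => i < j), (F i).ch (F j) := by
      omega
    obtain ⟨D', V', _, _, M, hM, hpack⟩ := delete G P hD m F hF hs (P - x * m) hc
    by_cases hmt : t ≤ m
    · have h0 : M.Pack 0 := ⟨fun i => i.elim0, fun i => i.elim0, fun i => i.elim0⟩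
      have h1 := hpack 0 h0
      exact pack_mono_Iter G (by omega) h1
    · push Not at hmt
      have hpr : (2 - 1 / 15500 : ℝ) * L * ((t - m : ℕ) : ℝ) + ((2 ^ K : ℕ) : ℝ) ≤
          ((P - x * m : ℕ) : ℝ) := by
        rw [Nat.cast_sub hmt.le, Nat.cast_sub hxm, Nat.cast_mul]
        have h1 : (x : ℝ) * m ≤ (2 - 1 / 15500) * L * m :=
          mul_le_mul_of_nonneg_right hx (Nat.cast_nonneg _)
        linarith
      have hp1 : 1 ≤ P - x * m := by
        have h1 : (0 : ℝ) ≤ (2 - 1 / 15500 : ℝ) * L * ((t - m : ℕ) : ℝ) :=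
          mul_nonneg hq0 (Nat.cast_nonneg _)
        have h2 : ((2 ^ K : ℕ) : ℝ) ≤ ((P - x * m : ℕ) : ℝ) := by linarith
        have h3 : 2 ^ K ≤ P - x * m := by exact_mod_cast h2
        exact le_trans Nat.one_le_two_pow h3
      obtain ⟨D'', _, G', hD'', hG'⟩ := kernel M (P - x * m) hp1 hM
      have h1 := ih (P - x * m) (by omega) (by omega) D'' _ G' hD'' (t - m) hpr
      have h2 := hpack _ (hG' _ h1)
      rwa [Nat.sub_add_cancel hmt.le] at h2

end Pool.Agent.CP51
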