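import Pool.Agent.CP51.SimpleX

/-!
# Short closed walks are simple
-/

namespace Pool.Agent.CP51

variable {D : Type}

/-- A closed non-backtracking walk of length less than twice the girth is simple. -/
theorem simple_of_girth (G : Cub D) {g l : ℕ} (hG : G.Girth g) (C : G.H l)
    (hC : C.len < 2 * g) : C.Simple :=
  SimpleX.simple_of_girth G hG C hC

/-- `ch` is at most the length. -/
theorem ch_le (G : Cub D) {l : ℕ} (A B : G.H l) (hB : B.Simple) : A.ch B ≤ l :=
  SimpleX.ch_le G A B hB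

/-- `ch` is symmetric. -/
theorem ch_comm (G : Cub D) {l : ℕ} (A B : G.H l) : A.ch B = B.ch A :=
  SimpleX.ch_comm G A B

theorem on_rot (G : Cub D) {l : ℕ} (A : G.H l) (d : D) : A.rot.On d ↔ A.On d :=
  SimpleX.on_rot G A d

theorem on_rev (G : Cub D) {l : ℕ} (A : G.H l) (d : D) : A.rev.On d ↔ A.On d :=
  SimpleX.on_rev G A d

theorem ch_rot (G : Cub D) {l : ℕ} (A B : G.H l) : A.ch B.rot = A.ch B :=
  SimpleX.ch_rot G A B

theorem ch_rev (G : Cub D) {l : ℕ} (A B : G.H l) : A.ch B.rev = A.ch B :=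
  SimpleX.ch_rev G A B

end Pool.Agent.CP51
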