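import Pool.Agent.CP51.Defs

/-!
# Near-Moore counting (section 2 of the page)
-/

namespace Pool.Agent.CP51

variable {D : Type}

/-- A closed non-backtracking walk from a finite sequence of darts. -/
private theorem exists_closed (G : Cub D) (L : ℕ) (hL : 0 < L) (f : ℕ → D)
    (hf : ∀ k, k + 1 < L → G.Fol (f k) (f (k + 1))) (hl : G.Fol (f (L - 1)) (f 0)) :
    ∃ (l : ℕ) (C : G.H l), C.len = L := by
  obtain ⟨n, rfl⟩ : ∃ n, L = n + 1 := ⟨L - 1, by omega⟩
  have key : ∀ i : ZMod (n + 1), G.Fol (f (ZMod.val i)) (f (ZMod.val (i + 1))) := by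
    intro i
    have hi : ZMod.val i < n + 1 := ZMod.val_lt i
    rcases Nat.lt_or_ge (ZMod.val i) n with h | h
    · have h1 : ZMod.val (1 : ZMod (n + 1)) = 1 := by
        rw [ZMod.val_one_eq_one_mod, Nat.mod_eq_of_lt (by omega)]
      rw [ZMod.val_add_of_lt (by rw [h1]; omega), h1]
      exact hf _ (by omega)
    · have h1 : ZMod.val i = n := by omega
      have h2 : i + 1 = 0 := by
        have h3 : ((ZMod.val i : ℕ) : ZMod (n + 1)) = i := ZMod.natCast_zmod_val i
        rw [← h3, h1]
        have h4 : ((n + 1 : ℕ) : ZMod (n + 1)) = 0 := ZMod.natCast_self (n + 1)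
        rw [← h4]
        push_cast
        rfl
      rw [h2, h1, ZMod.val_zero]
      exact hl
  exact ⟨n + 1, ⟨⟨n, Nat.lt_succ_self n⟩, fun i => f (ZMod.val i), key⟩, rfl⟩

private theorem σ_inj (G : Cub D) {x y : D} (h : G.σ x = G.σ y) : x = y := by
  rw [← G.σσσ x, ← G.σσσ y, h]

private theorem τ_inj (G : Cub D) {x y : D} (h : G.τ x = G.τ y) : x = y := by
  rw [← G.ττ x, ← G.ττ y, h]

/-- two different darts with a common follower -/
private theorem fol_of_common_succ (G : Cub D) {a b c : D} (h1 : G.Fol a c) (h2 : G.Fol b c)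
    (hne : a ≠ b) : G.Fol a (G.τ b) := by
  rcases h1 with h1 | h1 <;> rcases h2 with h2 | h2
  · exact absurd (τ_inj G (σ_inj G (h1.symm.trans h2))) hne
  · -- `c = σ τ a = σ σ τ b`
    right
    have h3 : G.σ (G.τ b) = G.τ a := σ_inj G (h2.symm.trans h1)
    rw [← h3, G.σσσ]
  · left
    have h3 : G.σ (G.τ a) = G.τ b := σ_inj G (h1.symm.trans h2)
    exact h3.symm
  · exact absurd (τ_inj G (σ_inj G (σ_inj G (h1.symm.trans h2)))) hne

/-- two different followers of a dart -/
private theorem fol_of_common_pred (G : Cub D) {a b c : D} (h1 : G.Fol c a) (h2 : G.Fol c b)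
    (hne : a ≠ b) : G.Fol (G.τ b) a := by
  rcases h1 with h1 | h1 <;> rcases h2 with h2 | h2
  · exact absurd (h1.trans h2.symm) hne
  · right
    rw [G.ττ, h2, h1, G.σσσ]
  · left
    rw [G.ττ, h2, h1]
  · exact absurd (h1.trans h2.symm) hne

/-- Two walks with `n` steps, `2n ≤ g + 1`, with the same first and last darts are equal. -/
theorem walk_unique (G : Cub D) {g : ℕ} (hG : G.Girth g) (n : ℕ) (hn : 2 * n ≤ g + 1)
    (p q : ℕ → D) (hp : ∀ i < n, G.Fol (p i) (p (i + 1)))
    (hq : ∀ i < n, G.Fol (q i) (q (i + 1))) (h0 : p 0 = q 0) (h1 : p n = q n) :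
    ∀ i ≤ n, p i = q i := by
  classical
  by_contra hcon
  push Not at hcon
  -- the last index before the first difference
  have hex : ∃ m, m < n ∧ p (m + 1) ≠ q (m + 1) := by
    obtain ⟨i, hi, hne⟩ := hcon
    obtain ⟨m, rfl⟩ : ∃ m, i = m + 1 := ⟨i - 1, by
      rcases Nat.eq_zero_or_pos i with rfl | h
      · exact absurd h0 hne
      · omega⟩
    exact ⟨m, by omega, hne⟩
  set m := Nat.find hex with hm
  obtain ⟨hmn, hmne⟩ := Nat.find_spec hex
  rw [← hm] at hmn hmne
  have hpm : p m = q m := by
    rcases Nat.eq_zero_or_pos m with h | h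
    · rw [h, h0]
    · by_contra hne
      have h2 := Nat.find_min hex (m := m - 1) (by omega)
      apply h2
      refine ⟨by omega, ?_⟩
      rw [Nat.sub_add_cancel h]
      exact hne
  -- the first index after it where they agree
  have hex2 : ∃ t, m + 2 + t ≤ n ∧ p (m + 2 + t) = q (m + 2 + t) := by
    have h2 : m + 1 ≠ n := by
      intro h
      rw [h] at hmne
      exact hmne h1
    exact ⟨n - (m + 2), by omega, by rw [show m + 2 + (n - (m + 2)) = n by omega]; exact h1⟩
  set t := Nat.find hex2 with ht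
  obtain ⟨htn, hteq⟩ := Nat.find_spec hex2
  rw [← ht] at htn hteq
  have hne : ∀ k, m < k → k < m + 2 + t → p k ≠ q k := by
    intro k hk1 hk2 he
    rcases Nat.lt_or_ge k (m + 2) with h | h
    · have h2 : k = m + 1 := by omega
      rw [h2] at he
      exact hmne he
    · have h2 := Nat.find_min hex2 (m := k - (m + 2)) (by omega)
      apply h2
      rw [show m + 2 + (k - (m + 2)) = k by omega]
      exact ⟨by omega, he⟩
  -- the closed walk
  let f : ℕ → D := fun k => if k ≤ t then p (m + 1 + k) else G.τ (q (m + 1 + (2 * t + 1 - k)))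
  obtain ⟨l, C, hC⟩ := exists_closed G (2 * (t + 1)) (by omega) f (by
    intro k hk
    rcases Nat.lt_trichotomy k t with h | h | h
    · have e1 : f k = p (m + 1 + k) := if_pos (by omega)
      have e2 : f (k + 1) = p (m + 1 + k + 1) := if_pos (by omega)
      rw [e1, e2]
      exact hp _ (by omega)
    · have e1 : f k = p (m + 1 + t) := by rw [h]; exact if_pos le_rfl
      have e2 : f (k + 1) = G.τ (q (m + 1 + t)) := by
        have : f (k + 1) = G.τ (q (m + 1 + (2 * t + 1 - (k + 1)))) := if_neg (by omega)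
        rw [this, show 2 * t + 1 - (k + 1) = t by omega]
      rw [e1, e2]
      have h2 := hp (m + 1 + t) (by omega)
      have h3 := hq (m + 1 + t) (by omega)
      rw [show m + 1 + t + 1 = m + 2 + t by omega] at h2 h3
      rw [← hteq] at h3
      exact fol_of_common_succ G h2 h3 (hne _ (by omega) (by omega))
    · have e1 : f k = G.τ (q (m + 1 + (2 * t + 1 - k))) := if_neg (by omega)
      have e2 : f (k + 1) = G.τ (q (m + 1 + (2 * t + 1 - (k + 1)))) := if_neg (by omega)
      rw [e1, e2]
      obtain ⟨j, hj⟩ : ∃ j, 2 * t + 1 - k = j + 1 := ⟨2 * t + 1 - k - 1, by omega⟩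
      rw [hj, show 2 * t + 1 - (k + 1) = j by omega]
      exact (hq (m + 1 + j) (by omega)).rev) (by
    have e1 : f (2 * (t + 1) - 1) = G.τ (q (m + 1)) := by
      have : f (2 * (t + 1) - 1) = G.τ (q (m + 1 + (2 * t + 1 - (2 * (t + 1) - 1)))) :=
        if_neg (by omega)
      rw [this, show 2 * t + 1 - (2 * (t + 1) - 1) = 0 by omega, Nat.add_zero]
    have e2 : f 0 = p (m + 1) := if_pos (by omega)
    rw [e1, e2]
    have h2 := hp m hmn
    have h3 := hq m hmn
    rw [← hpm] at h3
    exact fol_of_common_pred G h2 h3 hmne)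
  have h2 := hG l C
  rw [hC] at h2
  omega

/-- The number of walks with `n` steps between two given darts is at most `2 ^ (n - h0)`
(natural subtraction) if `2 h0 ≤ g`. -/
theorem seg_count (G : Cub D) [Fintype D] {g h0 : ℕ} (hG : G.Girth g) (hh : 2 * h0 ≤ g)
    (n : ℕ) (d e : D) :
    (open Classical in (Finset.univ.filter fun p : Fin (n + 1) → D =>
      p 0 = d ∧ p (Fin.last n) = e ∧ ∀ i : Fin n, G.Fol (p i.castSucc) (p i.succ)).card)
      ≤ 2 ^ (n - h0) := by
  classical
  -- a walk as a function on the natural numbers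
  let ex : (Fin (n + 1) → D) → ℕ → D := fun p i => p ⟨min i n, by omega⟩
  have hex : ∀ (p : Fin (n + 1) → D) (i : Fin (n + 1)), ex p i = p i := by
    intro p i
    change p ⟨min i.1 n, _⟩ = p i
    congr 1
    apply Fin.ext
    change min i.1 n = i.1
    omega
  have hfol : ∀ p : Fin (n + 1) → D, (∀ i : Fin n, G.Fol (p i.castSucc) (p i.succ)) →
      ∀ i < n, G.Fol (ex p i) (ex p (i + 1)) := by
    intro p hp i hi
    have h1 := hp ⟨i, hi⟩
    have h2 := hex p (Fin.castSucc ⟨i, hi⟩)
    have h3 := hex p (Fin.succ ⟨i, hi⟩)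
    rw [← h2, ← h3] at h1
    exact h1
  -- the bits of a walk
  let bits : (Fin (n + 1) → D) → Fin (n - h0) → Bool := fun p i =>
    decide (ex p (i + 1) = G.σ (G.τ (ex p i)))
  have hcard : Fintype.card (Fin (n - h0) → Bool) = 2 ^ (n - h0) := by simp
  rw [← hcard, ← Finset.card_univ]
  refine Finset.card_le_card_of_injOn bits (fun _ _ => Finset.mem_univ _) ?_
  intro p hp q hq hpq
  simp only [Finset.coe_filter, Finset.mem_univ, true_and, Set.mem_ofPred_eq] at hp hq
  obtain ⟨hp0, hpl, hpf⟩ := hp
  obtain ⟨hq0, hql, hqf⟩ := hq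
  have hP := hfol p hpf
  have hQ := hfol q hqf
  have h00 : ex p 0 = ex q 0 := by
    rw [show ex p 0 = p 0 from hex p 0, show ex q 0 = q 0 from hex q 0, hp0, hq0]
  have hnn : ex p n = ex q n := by
    have h1 := hex p (Fin.last n)
    have h2 := hex q (Fin.last n)
    rw [Fin.val_last] at h1 h2
    rw [h1, h2, hpl, hql]
  have hfirst : ∀ i, i ≤ n - h0 → ex p i = ex q i := by
    intro i
    induction i with
    | zero => exact fun _ => h00
    | succ i ih =>
      intro hi
      have h1 := ih (by omega)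
      have h2 := congrFun hpq ⟨i, by omega⟩
      simp only [bits, decide_eq_decide] at h2
      have h3 := hP i (by omega)
      have h4 := hQ i (by omega)
      rw [← h1] at h2 h4
      by_cases h5 : ex p (i + 1) = G.σ (G.τ (ex p i))
      · rw [h5, h2.1 h5]
      · have h6 : ¬ ex q (i + 1) = G.σ (G.τ (ex p i)) := fun h => h5 (h2.2 h)
        rw [h3.resolve_left h5, h4.resolve_left h6]
  have hall : ∀ i, i ≤ n → ex p i = ex q i := by
    intro i hi
    rcases Nat.lt_or_ge i (n - h0) with h | h
    · exact hfirst i (by omega)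
    · have h1 := walk_unique G hG (n - (n - h0)) (by omega) (fun j => ex p (n - h0 + j))
        (fun j => ex q (n - h0 + j)) (fun j hj => hP _ (by omega)) (fun j hj => hQ _ (by omega))
        (hfirst _ (by omega))
        (by
          rw [show n - h0 + (n - (n - h0)) = n by omega]
          exact hnn)
        (i - (n - h0)) (by omega)
      rw [show n - h0 + (i - (n - h0)) = i by omega] at h1
      exact h1
  funext i
  rw [← hex p i, ← hex q i]
  exact hall i (by omega)

/-- The number of closed walks of length at most `l` with given first `h0 + 1` darts. -/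
theorem window_count (G : Cub D) [Fintype D] {g h0 : ℕ} (hG : G.Girth g) (hh : 2 * h0 ≤ g)
    (h1 : 1 ≤ h0) (l : ℕ) (p : ℕ → D) :
    (open Classical in (Finset.univ.filter fun C : G.H l => ∀ i ≤ h0, C.sq i = p i).card)
      ≤ l * 2 ^ (l - 2 * h0) := by
  classical
  set S := Finset.univ.filter fun C : G.H l => ∀ i ≤ h0, C.sq i = p i with hS
  have hfib : ∀ n : Fin l, (S.filter fun C => C.n = n).card ≤ 2 ^ (l - 2 * h0) := by
    intro n
    rcases (S.filter fun C => C.n = n).eq_empty_or_nonempty with he | ⟨C₀, hC₀⟩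
    · rw [he, Finset.card_empty]
      exact Nat.zero_le _
    · have hlen : g ≤ n.1 + 1 := by
        have h2 := hG l C₀
        rw [Finset.mem_filter] at hC₀
        rw [← hC₀.2]
        exact h2
      have h3 := seg_count G hG hh (n.1 + 1 - h0) (p h0) (p 0)
      refine le_trans ?_ (h3.trans (Nat.pow_le_pow_right (by norm_num) (by omega)))
      refine Finset.card_le_card_of_injOn
        (fun C j => C.sq ((h0 + j.1 : ℕ) : ℤ)) ?_ ?_
      · intro C hC
        rw [Finset.mem_coe, Finset.mem_filter, hS, Finset.mem_filter] at hC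
        obtain ⟨⟨-, hw⟩, hn⟩ := hC
        rw [Finset.mem_coe, Finset.mem_filter]
        refine ⟨Finset.mem_univ _, ?_, ?_, ?_⟩
        · have h4 := hw h0 le_rfl
          rw [← h4]
          rfl
        · change C.sq ((h0 + (n.1 + 1 - h0) : ℕ) : ℤ) = p 0
          rw [show h0 + (n.1 + 1 - h0) = n.1 + 1 by omega, ← hn]
          have h4 := hw 0 (by omega)
          rw [← h4]
          change C.c (((C.n.1 + 1 : ℕ) : ℤ) : ZMod (C.n.1 + 1)) =
            C.c (((0 : ℕ) : ℤ) : ZMod (C.n.1 + 1))
          rw [Int.cast_natCast, ZMod.natCast_self]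
          simp
        · intro i
          have h4 := C.fol (((h0 + i.1 : ℕ) : ℤ) : ZMod (C.n.1 + 1))
          have h5 : (((h0 + i.1 : ℕ) : ℤ) : ZMod (C.n.1 + 1)) + 1 =
              (((h0 + (i.1 + 1) : ℕ) : ℤ) : ZMod (C.n.1 + 1)) := by
            push_cast
            ring
          rw [h5] at h4
          exact h4
      · intro C hC C' hC' he
        rw [Finset.mem_coe, Finset.mem_filter, hS, Finset.mem_filter] at hC hC'
        obtain ⟨⟨-, hw⟩, hn⟩ := hC
        obtain ⟨⟨-, hw'⟩, hn'⟩ := hC'
        have hval : ∀ k : ℕ, k < n.1 + 1 → C.sq k = C'.sq k := by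
          intro k hk
          rcases Nat.lt_or_ge h0 k with h | h
          · have h4 := congrFun he ⟨k - h0, by omega⟩
            simp only at h4
            rw [show h0 + (k - h0) = k by omega] at h4
            exact h4
          · rw [hw k h, hw' k h]
        obtain ⟨m, c, hc⟩ := C
        obtain ⟨m', c', hc'⟩ := C'
        simp only at hn hn'
        subst hn
        subst hn'
        congr 1
        funext x
        have h5 := hval (ZMod.val x) (ZMod.val_lt x)
        change c (((ZMod.val x : ℕ) : ℤ) : ZMod (m'.1 + 1)) =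
          c' (((ZMod.val x : ℕ) : ℤ) : ZMod (m'.1 + 1)) at h5
        rw [Int.cast_natCast, ZMod.natCast_zmod_val] at h5
        exact h5
  calc S.card = ∑ n : Fin l, (S.filter fun C => C.n = n).card :=
        Finset.card_eq_sum_card_fiberwise (fun C _ => Finset.mem_coe.2 (Finset.mem_univ C.n))
    _ ≤ ∑ n : Fin l, 2 ^ (l - 2 * h0) := Finset.sum_le_sum fun n _ => hfib n
    _ = l * 2 ^ (l - 2 * h0) := by simp

end Pool.Agent.CP51
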