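import Pool.Agent.CP51.MeetA
import Pool.Agent.CP51.Simple
import Pool.Agent.CP51.Walks

/-!
# Contact together with meeting is rare (section 4 of the page, first half)
-/

namespace Pool.Agent.CP51

variable {D : Type}

private theorem sq_fol {G : Cub D} {l : ℕ} (B : G.H l) (i : ℤ) :
    G.Fol (B.sq i) (B.sq (i + 1)) := by
  have h := B.fol (i : ZMod (B.n.1 + 1))
  unfold Cub.H.sq
  push_cast
  exact h

private theorem sq_len {G : Cub D} {l : ℕ} (B : G.H l) (i : ℤ) :
    B.sq (i + B.len) = B.sq i := by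
  unfold Cub.H.sq Cub.H.len
  congr 1
  have h : (((B.n.1 + 1 : ℕ) : ℤ) : ZMod (B.n.1 + 1)) = 0 := by
    rw [Int.cast_natCast, ZMod.natCast_self]
  rw [Int.cast_add, h, add_zero]

/-- The number of closed walks with given length, given dart at time `1` and at time `1 + j`. -/
private theorem two_seg (G : Cub D) [Fintype D] {g h0 l : ℕ} (hG : G.Girth g)
    (hh : 2 * h0 ≤ g) (n : Fin l) (j : ℕ) (hj : j ≤ n.1 + 1) (b e : D) :
    (open Classical in
      (Finset.univ.filter fun B : G.H l => B.n = n ∧ B.sq 1 = b ∧ B.sq (1 + (j : ℤ)) = e).card) ≤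
      2 ^ ((j - h0) + (n.1 + 1 - j - h0)) := by
  classical
  have h1 := seg_count G hG hh j b e
  have h2 := seg_count G hG hh (n.1 + 1 - j) e b
  rw [pow_add]
  refine le_trans ?_ (Nat.mul_le_mul h1 h2)
  rw [← Finset.card_product]
  refine Finset.card_le_card_of_injOn
    (fun B => (fun i => B.sq (1 + (i.1 : ℤ)), fun i => B.sq (1 + ((j + i.1 : ℕ) : ℤ)))) ?_ ?_
  · intro B hB
    rw [Finset.mem_coe, Finset.mem_filter] at hB
    obtain ⟨-, hn, hb, he⟩ := hB
    have hlen : B.len = n.1 + 1 := by rw [← hn]; rfl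
    rw [Finset.mem_coe, Finset.mem_product, Finset.mem_filter, Finset.mem_filter]
    refine ⟨⟨Finset.mem_univ _, ?_, ?_, ?_⟩, ⟨Finset.mem_univ _, ?_, ?_, ?_⟩⟩
    · change B.sq (1 + ((0 : ℕ) : ℤ)) = b
      rw [Nat.cast_zero, add_zero, hb]
    · change B.sq (1 + (j : ℤ)) = e
      exact he
    · intro i
      change G.Fol (B.sq (1 + ((i.1 : ℕ) : ℤ))) (B.sq (1 + ((i.1 + 1 : ℕ) : ℤ)))
      have h := sq_fol B (1 + (i.1 : ℤ))
      rwa [show (1 : ℤ) + (i.1 : ℤ) + 1 = 1 + ((i.1 + 1 : ℕ) : ℤ) by push_cast; ring] at h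
    · change B.sq (1 + ((j + 0 : ℕ) : ℤ)) = e
      rw [add_zero]
      exact he
    · change B.sq (1 + ((j + (n.1 + 1 - j) : ℕ) : ℤ)) = b
      rw [show j + (n.1 + 1 - j) = B.len by omega, sq_len, hb]
    · intro i
      change G.Fol (B.sq (1 + ((j + i.1 : ℕ) : ℤ))) (B.sq (1 + ((j + (i.1 + 1) : ℕ) : ℤ)))
      have h := sq_fol B (1 + ((j + i.1 : ℕ) : ℤ))
      rwa [show (1 : ℤ) + ((j + i.1 : ℕ) : ℤ) + 1 = 1 + ((j + (i.1 + 1) : ℕ) : ℤ) by
        push_cast; ring] at h
  · intro B hB B' hB' hE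
    rw [Finset.mem_coe, Finset.mem_filter] at hB hB'
    obtain ⟨-, hn, -, -⟩ := hB
    obtain ⟨-, hn', -, -⟩ := hB'
    rw [Prod.mk.injEq] at hE
    obtain ⟨e1, e2⟩ := hE
    have hval : ∀ k : ℕ, k < n.1 + 1 → B.sq (1 + (k : ℤ)) = B'.sq (1 + (k : ℤ)) := by
      intro k hk
      rcases Nat.lt_or_ge k (j + 1) with h | h
      · exact congrFun e1 ⟨k, h⟩
      · have h4 := congrFun e2 ⟨k - j, by omega⟩
        simp only at h4
        rw [show j + (k - j) = k by omega] at h4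
        exact h4
    obtain ⟨m, c, hc⟩ := B
    obtain ⟨m', c', hc'⟩ := B'
    simp only at hn hn'
    subst hn
    subst hn'
    congr 1
    funext x
    have h5 := hval (ZMod.val (x - 1)) (ZMod.val_lt (x - 1))
    change c (((1 + ((ZMod.val (x - 1) : ℕ) : ℤ) : ℤ)) : ZMod (m'.1 + 1)) =
      c' (((1 + ((ZMod.val (x - 1) : ℕ) : ℤ) : ℤ)) : ZMod (m'.1 + 1)) at h5
    rw [Int.cast_add, Int.cast_one, Int.cast_natCast, ZMod.natCast_zmod_val,
      add_sub_cancel] at h5
    exact h5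

/-- A closed walk meets at most `3 l` darts. -/
private theorem on_card (G : Cub D) [Fintype D] {l : ℕ} (A : G.H l) :
    (open Classical in (Finset.univ.filter fun d : D => A.On d).card) ≤ 3 * l := by
  classical
  have hsub : (Finset.univ.filter fun d : D => A.On d) ⊆
      (Finset.univ : Finset (ZMod (A.n.1 + 1) × Fin 3)).image
        (fun x => if x.2 = 0 then A.c x.1 else if x.2 = 1 then G.σ (A.c x.1) else
          G.σ (G.σ (A.c x.1))) := by
    intro d hd
    rw [Finset.mem_filter] at hd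
    obtain ⟨-, i, hi⟩ := hd
    rw [Finset.mem_image]
    rcases hi with hi | hi | hi
    · exact ⟨((i : ZMod (A.n.1 + 1)), 0), Finset.mem_univ _, by rw [hi]; rfl⟩
    · exact ⟨((i : ZMod (A.n.1 + 1)), 1), Finset.mem_univ _, by rw [hi]; rfl⟩
    · exact ⟨((i : ZMod (A.n.1 + 1)), 2), Finset.mem_univ _, by rw [hi]; rfl⟩
  refine (Finset.card_le_card hsub).trans (Finset.card_image_le.trans ?_)
  rw [Finset.card_univ, Fintype.card_prod, ZMod.card, Fintype.card_fin]
  have := A.n.2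
  omega

/-- The dart after the contact is one of two. -/
private theorem next_of_tt {G : Cub D} {l : ℕ} (B : G.H l) {t : D} (h : B.tt 0 = t) :
    B.sq 1 = G.σ t ∨ B.sq 1 = G.σ (G.σ t) := by
  classical
  have h1 := sq_fol B 0
  rw [zero_add] at h1
  subst h
  unfold Cub.H.tt Cub.th
  rw [zero_add]
  by_cases h2 : B.sq 1 = G.σ (G.τ (B.sq 0))
  · rw [if_pos h2, G.σσσ]
    right
    exact h2
  · rw [if_neg h2]
    left
    exact h1.resolve_left h2

/-- The count from the geometry. -/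
private theorem count_of_time (G : Cub D) [Fintype D] {g h0 j0 l : ℕ} (hG : G.Girth g)
    (hh : 2 * h0 ≤ g) (hj0 : j0 ≤ h0) (hj1 : 1 ≤ j0) (A : G.H l)
    (H : ∀ B : G.H l, B.tt 0 = G.τ (A.tt 0) → ¬ A.Dj B →
      ∃ j : ℕ, j0 ≤ j ∧ j + j0 ≤ B.len ∧ A.On (B.sq (1 + (j : ℤ)))) :
    (open Classical in
      (Finset.univ.filter fun B : G.H l => B.tt 0 = G.τ (A.tt 0) ∧ ¬ A.Dj B).card) ≤
      6 * l ^ 3 * 2 ^ (l - j0 - h0) := by
  classical
  set t : D := G.τ (A.tt 0) with ht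
  set S2 : Finset D := {G.σ t, G.σ (G.σ t)} with hS2
  set On : Finset D := Finset.univ.filter fun d : D => A.On d with hOn
  set I : Finset ((Fin l × ℕ) × (D × D)) :=
    ((Finset.univ : Finset (Fin l)) ×ˢ Finset.range l) ×ˢ (S2 ×ˢ On) with hI
  set F : ((Fin l × ℕ) × (D × D)) → Finset (G.H l) := fun x =>
    Finset.univ.filter fun B : G.H l => (j0 ≤ x.1.2 ∧ x.1.2 + j0 ≤ x.1.1.1 + 1) ∧
      (B.n = x.1.1 ∧ B.sq 1 = x.2.1 ∧ B.sq (1 + (x.1.2 : ℤ)) = x.2.2) with hF
  have hsub : (Finset.univ.filter fun B : G.H l => B.tt 0 = t ∧ ¬ A.Dj B) ⊆ I.biUnion F := by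
    intro B hB
    rw [Finset.mem_filter] at hB
    obtain ⟨-, hB1, hB2⟩ := hB
    obtain ⟨j, hj, hj2, hj3⟩ := H B hB1 hB2
    have hlen : B.len = B.n.1 + 1 := rfl
    have hn := B.n.2
    rw [Finset.mem_biUnion]
    refine ⟨((B.n, j), (B.sq 1, B.sq (1 + (j : ℤ)))), ?_, ?_⟩
    · rw [hI, Finset.mem_product, Finset.mem_product, Finset.mem_product]
      refine ⟨⟨Finset.mem_univ _, ?_⟩, ?_, ?_⟩
      · rw [Finset.mem_range]
        change j < l
        omega
      · change B.sq 1 ∈ S2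
        rw [hS2, Finset.mem_insert, Finset.mem_singleton]
        exact next_of_tt B hB1
      · change B.sq (1 + (j : ℤ)) ∈ On
        rw [hOn, Finset.mem_filter]
        exact ⟨Finset.mem_univ _, hj3⟩
    · rw [hF, Finset.mem_filter]
      refine ⟨Finset.mem_univ _, ⟨hj, ?_⟩, rfl, rfl, rfl⟩
      change j + j0 ≤ B.n.1 + 1
      omega
  have hone : ∀ x ∈ I, (F x).card ≤ 2 ^ (l - j0 - h0) := by
    rintro ⟨⟨n, j⟩, ⟨b, e⟩⟩ -
    by_cases hc : j0 ≤ j ∧ j + j0 ≤ n.1 + 1
    · have h1 := two_seg G hG hh n j (by omega) b e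
      have hn := n.2
      refine le_trans ?_ (h1.trans (Nat.pow_le_pow_right (by norm_num) (by omega)))
      refine Finset.card_le_card ?_
      intro B hB
      rw [hF, Finset.mem_filter] at hB
      rw [Finset.mem_filter]
      exact ⟨Finset.mem_univ _, hB.2.2⟩
    · have h1 : F ((n, j), (b, e)) = ∅ := by
        rw [hF]
        refine Finset.filter_eq_empty_iff.2 ?_
        intro B _ hB
        exact hc hB.1
      rw [h1, Finset.card_empty]
      exact Nat.zero_le _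
  have hIc : I.card ≤ 6 * l ^ 3 := by
    rw [hI, Finset.card_product, Finset.card_product, Finset.card_product, Finset.card_univ,
      Fintype.card_fin, Finset.card_range]
    have h1 : S2.card ≤ 2 := Finset.card_le_two
    have h2 : On.card ≤ 3 * l := on_card G A
    calc l * l * (S2.card * On.card) ≤ l * l * (2 * (3 * l)) :=
          Nat.mul_le_mul le_rfl (Nat.mul_le_mul h1 h2)
      _ = 6 * l ^ 3 := by ring
  calc (Finset.univ.filter fun B : G.H l => B.tt 0 = t ∧ ¬ A.Dj B).card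
      ≤ (I.biUnion F).card := Finset.card_le_card hsub
    _ ≤ I.card * 2 ^ (l - j0 - h0) := Finset.card_biUnion_le_card_mul _ _ _ hone
    _ ≤ 6 * l ^ 3 * 2 ^ (l - j0 - h0) := Nat.mul_le_mul hIc le_rfl

/-- For fixed `A` few closed walks `B` are in contact with `A` at the roots and meet `A`. -/
theorem meet_count (G : Cub D) [Fintype D] {g h0 j0 l : ℕ} (hG : G.Girth g)
    (hl : l < 2 * g) (hh : 2 * h0 ≤ g) (hj : j0 + 1 + l / 2 ≤ g) (hj0 : j0 ≤ h0)
    (hj1 : 1 ≤ j0) (A : G.H l) :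
    (open Classical in
      (Finset.univ.filter fun B : G.H l => B.tt 0 = G.τ (A.tt 0) ∧ ¬ A.Dj B).card) ≤
      6 * l ^ 3 * 2 ^ (l - j0 - h0) := by
  have h1 : ∀ B : G.H l, B.len < 2 * g := by
    intro B
    have h2 := B.n.2
    have h3 : B.len = B.n.1 + 1 := rfl
    omega
  exact count_of_time G hG hh hj0 hj1 A fun B hB hd =>
    meet_time hG A B (simple_of_girth G hG A (h1 A)) (simple_of_girth G hG B (h1 B)) hj hB hd

end Pool.Agent.CP51
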