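import Mathlib

/-!
# The numerical facts about the parameters
-/

namespace Pool.Agent.CP51

open Filter

/-- Polynomials are eventually below exponentials. -/
lemma ev_poly (j : ℕ) (C δ : ℝ) (hC : 0 ≤ C) (hδ : 0 < δ) :
    ∀ᶠ k : ℕ in atTop, C * (k : ℝ) ^ j ≤ 2 ^ (δ * k) := by
  have h1 : (1 : ℝ) < 2 ^ δ := Real.one_lt_rpow (by norm_num) hδ
  have h := tendsto_pow_const_div_const_pow_of_one_lt j h1
  have h2 : ∀ᶠ k : ℕ in atTop, (k : ℝ) ^ j / (2 ^ δ) ^ k < 1 / (C + 1) :=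
    h.eventually_lt_const (by positivity)
  filter_upwards [h2] with k hk
  have h3 : (2 : ℝ) ^ (δ * k) = (2 ^ δ) ^ k := by
    rw [Real.rpow_mul (by norm_num), Real.rpow_natCast]
  rw [h3]
  have h4 : (0 : ℝ) < (2 ^ δ) ^ k := by positivity
  rw [div_lt_div_iff₀ h4 (by positivity)] at hk
  have h5 : (0 : ℝ) ≤ (k : ℝ) ^ j := by positivity
  nlinarith

/-- All numerical facts which are used. -/
structure Num (k : ℕ) : Prop where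
  big : 10 ^ 7 ≤ k
  n0 : (24 : ℝ) ≤ 2 ^ ((1 / 60000 : ℝ) * k)
  n1 : (8 : ℝ) * k ≤ 2 ^ ((1 / 160000 : ℝ) * k)
  n2 : (24 : ℝ) * k ≤ 2 ^ ((1 / 1000 : ℝ) * k)
  n3 : (4718592 : ℝ) * (k : ℝ) ^ 3 ≤ 2 ^ ((9 / 10 : ℝ) * k)
  n4 : (2 : ℝ) ^ 23 * (k : ℝ) ^ 2 ≤ 2 ^ k
  n5 : (2 : ℝ) ^ 26 * (k : ℝ) ≤ 2 ^ ((1 / 1000 : ℝ) * k)
  n6 : (120000000 : ℝ) * k ≤ 2 ^ k

theorem ev_num : ∃ K : ℕ, ∀ k ≥ K, Num k := by
  have h : ∀ᶠ k : ℕ in atTop, Num k := by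
    filter_upwards [eventually_ge_atTop (10 ^ 7), ev_poly 0 24 (1 / 60000) (by norm_num)
      (by norm_num), ev_poly 1 8 (1 / 160000) (by norm_num) (by norm_num),
      ev_poly 1 24 (1 / 1000) (by norm_num) (by norm_num),
      ev_poly 3 4718592 (9 / 10) (by norm_num) (by norm_num),
      ev_poly 2 (2 ^ 23) 1 (by norm_num) (by norm_num),
      ev_poly 1 (2 ^ 26) (1 / 1000) (by norm_num) (by norm_num),
      ev_poly 1 120000000 1 (by norm_num) (by norm_num)] with k h1 h2 h3 h4 h5 h6 h7 h8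
    refine ⟨h1, ?_, ?_, ?_, h5, ?_, ?_, ?_⟩
    · simpa using h2
    · simpa using h3
    · simpa using h4
    · rw [one_mul, Real.rpow_natCast] at h6; exact h6
    · simpa using h7
    · rw [one_mul, Real.rpow_natCast] at h8; simpa using h8
  exact eventually_atTop.1 h

section facts

variable {k : ℕ}

lemma e_le (k : ℕ) : ((k / 30000 : ℕ) : ℝ) ≤ k / 30000 := by
  have := @Nat.cast_div_le ℝ _ _ _ k 30000
  simpa using this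

lemma le_e (k : ℕ) : (k : ℝ) / 30000 - 1 ≤ ((k / 30000 : ℕ) : ℝ) := by
  have h : k < 30000 * (k / 30000 + 1) := by omega
  have h' : (k : ℝ) < 30000 * ((k / 30000 : ℕ) + 1) := by exact_mod_cast h
  linarith

lemma q_le (k : ℕ) : ((k / 400 : ℕ) : ℝ) ≤ k / 400 := by
  have := @Nat.cast_div_le ℝ _ _ _ k 400
  simpa using this

lemma le_q (k : ℕ) : (k : ℝ) / 400 - 1 ≤ ((k / 400 : ℕ) : ℝ) := by
  have h : k < 400 * (k / 400 + 1) := by omega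
  have h' : (k : ℝ) < 400 * ((k / 400 : ℕ) + 1) := by exact_mod_cast h
  linarith

lemma p_le (k : ℕ) : ((k / 38 : ℕ) : ℝ) ≤ k / 38 := by
  have := @Nat.cast_div_le ℝ _ _ _ k 38
  simpa using this

lemma le_p (k : ℕ) : (k : ℝ) / 38 - 1 ≤ ((k / 38 : ℕ) : ℝ) := by
  have h : k < 38 * (k / 38 + 1) := by omega
  have h' : (k : ℝ) < 38 * ((k / 38 : ℕ) + 1) := by exact_mod_cast h
  linarith

lemma two_rpow_le {x y : ℝ} (h : x ≤ y) : (2 : ℝ) ^ x ≤ 2 ^ y :=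
  Real.rpow_le_rpow_of_exponent_le (by norm_num) h

/-- (A1) -/
lemma fact1 (h : Num k) {β : ℝ} (hβ : 1 - 1 / 75000 ≤ β) :
    (12 : ℝ) * 2 ^ k ≤ 2 ^ (((k + k / 30000 : ℕ) : ℝ) * β) := by
  have hb : (10 : ℝ) ^ 7 ≤ k := by exact_mod_cast h.big
  have h1 := e_le k
  have h2 := le_e k
  have h3 : (k : ℝ) + (1 / 60000 : ℝ) * k - 1 ≤ ((k + k / 30000 : ℕ) : ℝ) * β := by
    have h4 : (0 : ℝ) ≤ ((k + k / 30000 : ℕ) : ℝ) := Nat.cast_nonneg _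
    have h5 : ((k + k / 30000 : ℕ) : ℝ) * (1 - 1 / 75000) ≤ ((k + k / 30000 : ℕ) : ℝ) * β :=
      mul_le_mul_of_nonneg_left hβ h4
    refine le_trans ?_ h5
    push_cast
    linarith
  have h6 := h.n0
  calc (12 : ℝ) * 2 ^ k = 24 * 2 ^ (k : ℝ) / 2 := by rw [Real.rpow_natCast]; ring
    _ ≤ 2 ^ ((1 / 60000 : ℝ) * k) * 2 ^ (k : ℝ) / 2 := by gcongr
    _ = 2 ^ ((k : ℝ) + (1 / 60000 : ℝ) * k - 1) := by
      rw [Real.rpow_sub (by norm_num), Real.rpow_add (by norm_num), Real.rpow_one]; ring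
    _ ≤ _ := two_rpow_le h3

/-- (A2) -/
lemma fact2 (h : Num k) {β : ℝ} (hβ : 1 - 1 / 75000 ≤ β) :
    (2 : ℝ) ^ (2 * k - k / 400 : ℕ) * ((k + k / 30000 : ℕ) : ℝ) *
      2 ^ ((k + k / 30000) - (k - k / 400) : ℕ) * 2 ≤
      (2 ^ (((k + k / 30000 : ℕ) : ℝ) * β)) ^ 2 := by
  have hb : (10 : ℝ) ^ 7 ≤ k := by exact_mod_cast h.big
  have h1 := e_le k
  have h2 := le_e k
  have h3 : 2 * (k : ℝ) + ((k / 30000 : ℕ) : ℝ) + (1 / 160000 : ℝ) * k - 1 ≤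
      ((k + k / 30000 : ℕ) : ℝ) * β + ((k + k / 30000 : ℕ) : ℝ) * β := by
    have h4 : (0 : ℝ) ≤ ((k + k / 30000 : ℕ) : ℝ) := Nat.cast_nonneg _
    have h5 : ((k + k / 30000 : ℕ) : ℝ) * (1 - 1 / 75000) ≤ ((k + k / 30000 : ℕ) : ℝ) * β :=
      mul_le_mul_of_nonneg_left hβ h4
    have h6 : 2 * (k : ℝ) + ((k / 30000 : ℕ) : ℝ) + (1 / 160000 : ℝ) * k - 1 ≤
      2 * (((k + k / 30000 : ℕ) : ℝ) * (1 - 1 / 75000)) := by
      push_cast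
      linarith
    linarith
  have h6 := h.n1
  have h7 : ((k + k / 30000 : ℕ) : ℝ) ≤ 2 * k := by push_cast; linarith
  have h8 : (2 : ℝ) ^ (2 * k - k / 400 : ℕ) * 2 ^ ((k + k / 30000) - (k - k / 400) : ℕ) =
      2 ^ (2 * (k : ℝ) + ((k / 30000 : ℕ) : ℝ)) := by
    rw [← pow_add, ← Real.rpow_natCast]
    congr 1
    have : 2 * k - k / 400 + ((k + k / 30000) - (k - k / 400)) = 2 * k + k / 30000 := by
      omega
    rw [this]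
    push_cast
    ring
  calc (2 : ℝ) ^ (2 * k - k / 400 : ℕ) * ((k + k / 30000 : ℕ) : ℝ) *
      2 ^ ((k + k / 30000) - (k - k / 400) : ℕ) * 2
      = 2 ^ (2 * (k : ℝ) + ((k / 30000 : ℕ) : ℝ)) * ((k + k / 30000 : ℕ) : ℝ) * 2 := by
        rw [← h8]; ring
    _ ≤ 2 ^ (2 * (k : ℝ) + ((k / 30000 : ℕ) : ℝ)) * (2 * k) * 2 := by gcongr
    _ = 2 ^ (2 * (k : ℝ) + ((k / 30000 : ℕ) : ℝ)) * (8 * k) / 2 := by ring
    _ ≤ 2 ^ (2 * (k : ℝ) + ((k / 30000 : ℕ) : ℝ)) * 2 ^ ((1 / 160000 : ℝ) * k) / 2 := by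
        gcongr
    _ = 2 ^ (2 * (k : ℝ) + ((k / 30000 : ℕ) : ℝ) + (1 / 160000 : ℝ) * k - 1) := by
      rw [Real.rpow_sub (by norm_num), Real.rpow_one, Real.rpow_add (by norm_num) _
        ((1 / 160000 : ℝ) * k)]
    _ ≤ 2 ^ (((k + k / 30000 : ℕ) : ℝ) * β + ((k + k / 30000 : ℕ) : ℝ) * β) :=
      two_rpow_le h3
    _ = _ := by rw [Real.rpow_add (by norm_num)]; ring

/-- (A3) -/
lemma fact3 (h : Num k) {N : ℕ} (hN : N < 2 ^ (k + 1)) (hN0 : 0 < N) :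
    Real.logb 2 ((2 : ℝ)⁻¹ ^ (2 * k - k / 38 : ℕ) *
      ((2 * (k + k / 30000) * 2 ^ (2 * (k + k / 30000) - 2 * (k - k / 400)) : ℕ) : ℝ) *
      ((3 * N : ℕ) : ℝ) * 2 ^ (k - k / 400)) ≤ 0.18 * ((k - k / 400 : ℕ) : ℝ) / 6 := by
  have hb : (10 : ℝ) ^ 7 ≤ k := by exact_mod_cast h.big
  have hb' := h.big
  have h1 := e_le k
  have h2 := q_le k
  have h3 := p_le k
  have h4 := h.n2
  have hNr : (N : ℝ) ≤ 2 ^ (k + 1) := by exact_mod_cast hN.le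
  have hN0r : (0 : ℝ) < N := by exact_mod_cast hN0
  have hk0 : (0 : ℝ) < k := by linarith
  have hle : (2 : ℝ)⁻¹ ^ (2 * k - k / 38 : ℕ) *
      ((2 * (k + k / 30000) * 2 ^ (2 * (k + k / 30000) - 2 * (k - k / 400)) : ℕ) : ℝ) *
      ((3 * N : ℕ) : ℝ) * 2 ^ (k - k / 400) ≤
      2 ^ ((((k / 38 + 2 * (k / 30000) + k / 400) : ℕ) : ℝ) + (1 / 1000 : ℝ) * k) := by
    have e1 : ((2 * (k + k / 30000) * 2 ^ (2 * (k + k / 30000) - 2 * (k - k / 400)) : ℕ) : ℝ)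
        = (2 * ((k : ℝ) + ((k / 30000 : ℕ) : ℝ))) * 2 ^ (2 * (k / 30000) + 2 * (k / 400)) := by
      have : 2 * (k + k / 30000) - 2 * (k - k / 400) = 2 * (k / 30000) + 2 * (k / 400) := by
        omega
      rw [this]
      push_cast
      ring
    have e2 : (2 : ℝ)⁻¹ ^ (2 * k - k / 38 : ℕ) * 2 ^ (2 * k - k / 38 : ℕ) = 1 := by
      rw [← mul_pow]; norm_num
    have e3 : (2 : ℝ) ^ (2 * (k / 30000) + 2 * (k / 400)) * 2 ^ (k + 1) * 2 ^ (k - k / 400) =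
        2 * (2 ^ (2 * k - k / 38 : ℕ) * 2 ^ (k / 38 + 2 * (k / 30000) + k / 400)) := by
      rw [← pow_add, ← pow_add, ← pow_add, ← pow_succ']
      congr 1
      omega
    rw [e1, show ((3 * N : ℕ) : ℝ) = 3 * N by push_cast; ring]
    have h5 : (2 * ((k : ℝ) + ((k / 30000 : ℕ) : ℝ))) ≤ 4 * k := by linarith
    calc (2 : ℝ)⁻¹ ^ (2 * k - k / 38 : ℕ) *
        ((2 * ((k : ℝ) + ((k / 30000 : ℕ) : ℝ))) * 2 ^ (2 * (k / 30000) + 2 * (k / 400))) *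
        (3 * N) * 2 ^ (k - k / 400)
        ≤ (2 : ℝ)⁻¹ ^ (2 * k - k / 38 : ℕ) *
          ((4 * k) * 2 ^ (2 * (k / 30000) + 2 * (k / 400))) *
          (3 * 2 ^ (k + 1)) * 2 ^ (k - k / 400) := by gcongr
      _ = (2 : ℝ)⁻¹ ^ (2 * k - k / 38 : ℕ) * (12 * k) *
        (2 ^ (2 * (k / 30000) + 2 * (k / 400)) * 2 ^ (k + 1) * 2 ^ (k - k / 400)) := by ring
      _ = ((2 : ℝ)⁻¹ ^ (2 * k - k / 38 : ℕ) * 2 ^ (2 * k - k / 38 : ℕ)) * (24 * k) *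
        2 ^ (k / 38 + 2 * (k / 30000) + k / 400) := by rw [e3]; ring
      _ = (24 * k) * 2 ^ (k / 38 + 2 * (k / 30000) + k / 400) := by rw [e2, one_mul]
      _ ≤ 2 ^ ((1 / 1000 : ℝ) * k) * 2 ^ (k / 38 + 2 * (k / 30000) + k / 400) := by gcongr
      _ = _ := by
        rw [Real.rpow_add (by norm_num), Real.rpow_natCast]; ring
  have hpos : 0 < (2 : ℝ)⁻¹ ^ (2 * k - k / 38 : ℕ) *
      ((2 * (k + k / 30000) * 2 ^ (2 * (k + k / 30000) - 2 * (k - k / 400)) : ℕ) : ℝ) *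
      ((3 * N : ℕ) : ℝ) * 2 ^ (k - k / 400) := by
    have : 0 < 2 * (k + k / 30000) * 2 ^ (2 * (k + k / 30000) - 2 * (k - k / 400)) := by
      have : 0 < k := by omega
      positivity
    have h6 : (0 : ℝ) < ((2 * (k + k / 30000) *
      2 ^ (2 * (k + k / 30000) - 2 * (k - k / 400)) : ℕ) : ℝ) := by exact_mod_cast this
    have h7 : (0 : ℝ) < ((3 * N : ℕ) : ℝ) := by push_cast; linarith
    positivity
  have h8 := Real.logb_le_logb_of_le (b := 2) (by norm_num) hpos hle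
  rw [Real.logb_rpow (by norm_num) (by norm_num)] at h8
  refine h8.trans ?_
  have h9 : ((k - k / 400 : ℕ) : ℝ) = (k : ℝ) - ((k / 400 : ℕ) : ℝ) := by
    rw [Nat.cast_sub (by omega)]
  rw [h9]
  push_cast at *
  linarith

/-- (A4) -/
lemma fact4 (h : Num k) {N : ℕ} (hN : N < 2 ^ (k + 1)) :
    (2 : ℝ)⁻¹ ^ (2 * k - k / 38 : ℕ) *
      ((6 * (2 * (k + k / 30000)) ^ 3 * 2 ^ (2 * (k + k / 30000) -
        (k - 2 * (k / 400) - k / 30000 - 1) - (k - k / 400)) : ℕ) : ℝ) *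
      (1024 * ((3 * N : ℕ) : ℝ)) ≤ 1 := by
  have hb : (10 : ℝ) ^ 7 ≤ k := by exact_mod_cast h.big
  have hb' := h.big
  have h1 := e_le k
  have h2 := q_le k
  have h3 := p_le k
  have h4 := h.n3
  have hNr : (N : ℝ) ≤ 2 ^ (k + 1) := by exact_mod_cast hN.le
  have hk0 : (0 : ℝ) < k := by linarith
  have e1 : 2 * (k + k / 30000) -
        (k - 2 * (k / 400) - k / 30000 - 1) - (k - k / 400) =
      3 * (k / 30000) + 3 * (k / 400) + 1 := by omega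
  rw [e1]
  have h5 : (2 * ((k : ℝ) + ((k / 30000 : ℕ) : ℝ))) ≤ 4 * k := by linarith
  push_cast
  have e2 : (2 : ℝ)⁻¹ ^ (2 * k - k / 38 : ℕ) * 2 ^ (2 * k - k / 38 : ℕ) = 1 := by
    rw [← mul_pow]; norm_num
  have e3 : (9 / 10 : ℝ) * k + ((3 * (k / 30000) + 3 * (k / 400) + k / 38 : ℕ) : ℝ) ≤ k := by
    push_cast
    linarith
  have e4 := two_rpow_le e3
  rw [Real.rpow_add (by norm_num), Real.rpow_natCast, Real.rpow_natCast] at e4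
  calc (2 : ℝ)⁻¹ ^ (2 * k - k / 38 : ℕ) *
      (6 * (2 * ((k : ℝ) + ((k / 30000 : ℕ) : ℝ))) ^ 3 *
        2 ^ (3 * (k / 30000) + 3 * (k / 400) + 1)) * (1024 * (3 * N))
      ≤ (2 : ℝ)⁻¹ ^ (2 * k - k / 38 : ℕ) *
      (6 * (4 * k) ^ 3 *
        2 ^ (3 * (k / 30000) + 3 * (k / 400) + 1)) * (1024 * (3 * 2 ^ (k + 1))) := by gcongr
    _ = (2 : ℝ)⁻¹ ^ (2 * k - k / 38 : ℕ) * ((4718592 * (k : ℝ) ^ 3) *
        2 ^ (3 * (k / 30000) + 3 * (k / 400)) * 2 ^ k) := by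
        rw [pow_succ 2 (3 * (k / 30000) + 3 * (k / 400)), pow_succ 2 k]; ring
    _ ≤ (2 : ℝ)⁻¹ ^ (2 * k - k / 38 : ℕ) * (2 ^ ((9 / 10 : ℝ) * k) *
        2 ^ (3 * (k / 30000) + 3 * (k / 400)) * 2 ^ k) := by gcongr
    _ = (2 : ℝ)⁻¹ ^ (2 * k - k / 38 : ℕ) * ((2 ^ ((9 / 10 : ℝ) * k) *
        2 ^ (3 * (k / 30000) + 3 * (k / 400) + k / 38)) * 2 ^ (k - k / 38)) := by
        have : (2 : ℝ) ^ k = 2 ^ (k / 38) * 2 ^ (k - k / 38) := by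
          rw [← pow_add]; congr 1; omega
        rw [this, pow_add 2 _ (k / 38)]; ring
    _ ≤ (2 : ℝ)⁻¹ ^ (2 * k - k / 38 : ℕ) * (2 ^ k * 2 ^ (k - k / 38)) := by gcongr
    _ = (2 : ℝ)⁻¹ ^ (2 * k - k / 38 : ℕ) * 2 ^ (2 * k - k / 38 : ℕ) := by
      rw [← pow_add]; congr 2; omega
    _ = 1 := e2

/-- (A5) -/
lemma fact5 (h : Num k) {N : ℕ} (hN : 2 ^ k ≤ N) :
    (2 ^ 21 - 1 : ℝ) * (((2 * (k - k / 400) : ℕ) : ℝ) ^ 2 / (1024 * ((3 * N : ℕ) : ℝ)))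
      ≤ 1 := by
  have hb : (10 : ℝ) ^ 7 ≤ k := by exact_mod_cast h.big
  have hNr : (2 : ℝ) ^ k ≤ N := by exact_mod_cast hN
  have h4 := h.n4
  have h5 : ((2 * (k - k / 400) : ℕ) : ℝ) ≤ 2 * k := by
    have : 2 * (k - k / 400) ≤ 2 * k := by omega
    exact_mod_cast this
  have h6 : (0 : ℝ) < 2 ^ k := by positivity
  have h7 : ((2 * (k - k / 400) : ℕ) : ℝ) ^ 2 ≤ (2 * k) ^ 2 := by gcongr
  have h8 : (0 : ℝ) < (1024 * ((3 * N : ℕ) : ℝ)) := by push_cast; linarith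
  rw [← mul_div_assoc, div_le_one h8]
  push_cast at *
  nlinarith

/-- (A6) -/
lemma fact6 (h : Num k) :
    (1 + (2 ^ 21 - 1) : ℝ) ^ (8 * (4 * ((k / 30000 : ℕ) : ℝ))) *
      (2 * √(1 + (2 ^ 21 - 1) * ((2 * (k + k / 30000) : ℕ) : ℝ))) ≤
      (2 : ℝ)⁻¹ ^ (2 * k - k / 38 : ℕ) * 2 ^ (2 * k - k / 400 : ℕ) := by
  have hb : (10 : ℝ) ^ 7 ≤ k := by exact_mod_cast h.big
  have hb' := h.big
  have h1 := e_le k
  have h2 := q_le k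
  have h3 := le_p k
  have h4 := h.n5
  have hk0 : (0 : ℝ) < k := by linarith
  have e0 : (1 + (2 ^ 21 - 1) : ℝ) ^ (8 * (4 * ((k / 30000 : ℕ) : ℝ))) =
      2 ^ ((672 * (k / 30000) : ℕ) : ℝ) := by
    rw [show (1 + (2 ^ 21 - 1) : ℝ) = 2 ^ (21 : ℝ) by norm_num, ← Real.rpow_mul (by norm_num)]
    congr 1
    push_cast
    ring
  have e1 : (2 : ℝ)⁻¹ ^ (2 * k - k / 38 : ℕ) * 2 ^ (2 * k - k / 400 : ℕ) =
      2 ^ ((k / 38 - k / 400 : ℕ) : ℝ) := by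
    have e2 : (2 : ℝ)⁻¹ ^ (2 * k - k / 38 : ℕ) * 2 ^ (2 * k - k / 38 : ℕ) = 1 := by
      rw [← mul_pow]; norm_num
    have e3 : 2 * k - k / 400 = (2 * k - k / 38) + (k / 38 - k / 400) := by omega
    rw [e3, pow_add, ← mul_assoc, e2, one_mul, Real.rpow_natCast]
  rw [e0, e1]
  have h5 : ((2 * (k + k / 30000) : ℕ) : ℝ) ≤ 4 * k := by push_cast; linarith
  have h6 : (1 : ℝ) ≤ 1 + (2 ^ 21 - 1) * ((2 * (k + k / 30000) : ℕ) : ℝ) := by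
    have : (0 : ℝ) ≤ ((2 * (k + k / 30000) : ℕ) : ℝ) := Nat.cast_nonneg _
    nlinarith
  have h7 : √(1 + (2 ^ 21 - 1) * ((2 * (k + k / 30000) : ℕ) : ℝ)) ≤ 2 ^ 24 * k := by
    calc √(1 + (2 ^ 21 - 1) * ((2 * (k + k / 30000) : ℕ) : ℝ))
        ≤ √((1 + (2 ^ 21 - 1) * ((2 * (k + k / 30000) : ℕ) : ℝ)) ^ 2) :=
          Real.sqrt_le_sqrt (by nlinarith)
      _ = 1 + (2 ^ 21 - 1) * ((2 * (k + k / 30000) : ℕ) : ℝ) :=
          Real.sqrt_sq (by linarith)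
      _ ≤ 2 ^ 24 * k := by nlinarith
  have h8 : ((672 * (k / 30000) : ℕ) : ℝ) + (1 / 1000 : ℝ) * k ≤
      ((k / 38 - k / 400 : ℕ) : ℝ) := by
    rw [Nat.cast_sub (by omega)]
    push_cast
    linarith
  calc (2 : ℝ) ^ ((672 * (k / 30000) : ℕ) : ℝ) *
      (2 * √(1 + (2 ^ 21 - 1) * ((2 * (k + k / 30000) : ℕ) : ℝ)))
      ≤ 2 ^ ((672 * (k / 30000) : ℕ) : ℝ) * (2 * (2 ^ 24 * k)) := by gcongr
    _ ≤ 2 ^ ((672 * (k / 30000) : ℕ) : ℝ) * 2 ^ ((1 / 1000 : ℝ) * k) := by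
      gcongr
      linarith
    _ = 2 ^ (((672 * (k / 30000) : ℕ) : ℝ) + (1 / 1000 : ℝ) * k) := by
      rw [Real.rpow_add (by norm_num)]
    _ ≤ _ := two_rpow_le h8

/-- (A7) -/
lemma fact7 (h : Num k) {N m : ℕ} (hN : 2 ^ k ≤ N)
    (hm : m = N / (300000 * (2 * (k + k / 30000))) + 1) :
    ¬ ((2 ^ 21 - 1 : ℝ) * (((2 * (k - k / 400) : ℕ) : ℝ) ^ 2 / (1024 * ((3 * N : ℕ) : ℝ)))
      / 8 * ((m : ℝ) - 1) ≤ 2 * (4 * ((k / 30000 : ℕ) : ℝ))) := by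
  intro hc
  have hb : (10 : ℝ) ^ 7 ≤ k := by exact_mod_cast h.big
  have hb' := h.big
  have hNr : (2 : ℝ) ^ k ≤ N := by exact_mod_cast hN
  have h1 := e_le k
  have h2 := q_le k
  have h6 := h.n6
  have hk0 : (0 : ℝ) < k := by linarith
  have hN0 : (0 : ℝ) < N := by have : (0 : ℝ) < 2 ^ k := by positivity
                               linarith
  have e1 : (N : ℝ) < 300000 * (2 * ((k : ℝ) + ((k / 30000 : ℕ) : ℝ))) * m := by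
    have : N < 300000 * (2 * (k + k / 30000)) * m := by
      rw [hm]
      exact Nat.lt_mul_div_succ N (by omega)
    have := (Nat.cast_lt (α := ℝ)).2 this
    push_cast at this
    exact this
  have hm0 : (0 : ℝ) ≤ m := Nat.cast_nonneg _
  have e2 : (N : ℝ) < 600040 * k * m := by
    refine e1.trans_le (mul_le_mul_of_nonneg_right ?_ hm0)
    linarith
  have e3 : (99 / 100 : ℝ) * N ≤ 600040 * k * (m - 1) := by
    have : (600040 : ℝ) * k ≤ N / 100 := by linarith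
    nlinarith
  have e4 : (2 * k * (399 / 400) : ℝ) ≤ ((2 * (k - k / 400) : ℕ) : ℝ) := by
    push_cast [Nat.cast_sub (show k / 400 ≤ k by omega)]
    linarith
  have e5 : (2 * k * (399 / 400) : ℝ) ^ 2 ≤ ((2 * (k - k / 400) : ℕ) : ℝ) ^ 2 := by gcongr
  have e6 : (2 ^ 21 - 1 : ℝ) * ((2 * k * (399 / 400) : ℝ) ^ 2 / (1024 * ((3 * N : ℕ) : ℝ)))
      / 8 * ((m : ℝ) - 1) ≤ 8 * (k / 30000) := by
    have hm1 : (0 : ℝ) ≤ m - 1 := by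
      have : (0 : ℝ) ≤ 600040 * k * (m - 1) := by linarith
      by_contra hneg
      push Not at hneg
      nlinarith
    calc (2 ^ 21 - 1 : ℝ) * ((2 * k * (399 / 400) : ℝ) ^ 2 / (1024 * ((3 * N : ℕ) : ℝ)))
      / 8 * ((m : ℝ) - 1) ≤ (2 ^ 21 - 1 : ℝ) *
        (((2 * (k - k / 400) : ℕ) : ℝ) ^ 2 / (1024 * ((3 * N : ℕ) : ℝ)))
        / 8 * ((m : ℝ) - 1) := by
          gcongr
      _ ≤ 2 * (4 * ((k / 30000 : ℕ) : ℝ)) := hc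
      _ ≤ _ := by linarith
  push_cast at e6
  have e7 : (2 ^ 21 - 1 : ℝ) * ((2 * k * (399 / 400) : ℝ) ^ 2 * ((m : ℝ) - 1)) ≤
      8 * (k / 30000) * 8 * (1024 * (3 * N)) := by
    have : (2 ^ 21 - 1 : ℝ) * ((2 * k * (399 / 400) : ℝ) ^ 2 / (1024 * (3 * N)))
      / 8 * ((m : ℝ) - 1) = (2 ^ 21 - 1 : ℝ) * ((2 * k * (399 / 400) : ℝ) ^ 2 * ((m : ℝ) - 1))
        / (8 * (1024 * (3 * N))) := by field_simp
    rw [this, div_le_iff₀ (by positivity)] at e6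
    linarith
  have e8 : (k : ℝ) * ((99 / 100 : ℝ) * N) ≤ k * (600040 * k * (m - 1)) := by gcongr
  nlinarith [mul_pos hk0 hN0]

end facts

end Pool.Agent.CP51
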