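import Pool.Agent.CP51.Tilt
import Pool.Agent.CP51.Simple
import Pool.Agent.CP51.Walks
import Pool.Agent.CP51.Core
import Pool.Agent.CP51.Count
import Pool.Agent.CP51.Fair
import Pool.Agent.CP51.Chain
import Pool.Agent.CP51.Meet
import Pool.Agent.CP51.Contact
import Pool.Agent.CP51.Num

/-!
# The main step
-/

namespace Pool.Agent.CP51

open Finset

variable {D : Type}

/-- A cubic multigraph with a closed walk of length less than `g` has a simple one. -/
lemma short_simple (G : Cub D) (g : ℕ) (h : ¬ G.Girth g) :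
    ∃ (l : ℕ) (C : G.H l), C.len < g ∧ C.Simple := by
  classical
  unfold Cub.Girth at h
  push Not at h
  obtain ⟨l, C, hC⟩ := h
  have hex : ∃ n, ∃ (l : ℕ) (C : G.H l), C.len = n := ⟨_, l, C, rfl⟩
  obtain ⟨l', C', hC'⟩ := Nat.find_spec hex
  have hmin : ∀ (l : ℕ) (B : G.H l), Nat.find hex ≤ B.len :=
    fun l B => Nat.find_min' hex ⟨l, B, rfl⟩
  have hpos : 0 < Nat.find hex := by
    rw [← hC']
    exact Nat.succ_pos _
  refine ⟨l', C', ?_, simple_of_girth G (g := Nat.find hex) hmin C' ?_⟩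
  · have := hmin l C
    omega
  · omega

/-- Many closed walks outside a small set. -/
lemma avoid {k : ℕ} (hk : Num k) (G : Cub D) [Fintype D] (N : ℕ)
    (hD : Fintype.card D = 3 * N) (h1 : 2 ^ k ≤ N) (h2 : N < 2 ^ (k + 1))
    (hG : G.Girth (2 * (k - k / 400))) (M : ℕ) (hM : 300000 * M ≤ N) (X : Finset D)
    (hX : ∀ d ∈ X, G.σ d ∈ X) (hXM : X.card ≤ 3 * M) :
    (2 : ℝ) ^ (2 * k - k / 400 : ℕ) ≤ (open Classical in
      ((univ.filter fun C : G.H (2 * (k + k / 30000)) => ∀ i : ℤ, C.sq i ∉ X).card : ℝ)) := by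
  classical
  have hb := hk.big
  have hN0 : 0 < N := lt_of_lt_of_le (by positivity) h1
  have hN0r : (0 : ℝ) < N := by exact_mod_cast hN0
  obtain ⟨S, hS, hτ, hSX, hcount⟩ := core G N M hD X hX hXM (by omega)
  have hβ : (1 : ℝ) - 1 / 75000 ≤ 1 - 4 * M / N := by
    have : (300000 : ℝ) * M ≤ N := by exact_mod_cast hM
    have h3 : (4 : ℝ) * M / N ≤ 1 / 75000 := by
      rw [div_le_iff₀ hN0r]
      linarith
    linarith
  set r := k + k / 30000 with hr
  have hc := hcount r
  set E : ℝ := 2 ^ ((r : ℝ) * (1 - 4 * M / N)) with hE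
  have hE0 : 0 < E := by positivity
  have hf1 : (12 : ℝ) * 2 ^ k ≤ E := fact1 hk hβ
  have hf2 := fact2 hk hβ
  rw [← hr, ← hE] at hf2
  have hS0 : (0 : ℝ) < S.card := by exact_mod_cast hS.card_pos
  have hSN : (S.card : ℝ) ≤ 6 * 2 ^ k := by
    have h3 : S.card ≤ 3 * N := hD ▸ card_le_univ S
    have h4 : S.card ≤ 6 * 2 ^ k := by
      rw [pow_succ] at h2
      omega
    exact_mod_cast h4
  have hT : 2 * (S.card : ℝ) ^ 2 ≤ ((G.walks S r).card : ℝ) := by
    refine le_trans ?_ hc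
    nlinarith
  have hcc := count_closed G hG (le_refl (2 * (k - k / 400))) S hS hτ r (by omega) hT
  set c1 : ℝ := ((univ.filter fun C : G.H (2 * r) => ∀ i : ℤ, C.sq i ∈ S).card : ℝ) with hc1
  have hsub : c1 ≤ ((univ.filter fun C : G.H (2 * r) => ∀ i : ℤ, C.sq i ∉ X).card : ℝ) := by
    rw [hc1]
    have : (univ.filter fun C : G.H (2 * r) => ∀ i : ℤ, C.sq i ∈ S) ⊆
      (univ.filter fun C : G.H (2 * r) => ∀ i : ℤ, C.sq i ∉ X) := by
      intro C hC
      simp only [mem_filter, mem_univ, true_and] at hC ⊢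
      exact fun i => hSX _ (hC i)
    exact_mod_cast card_le_card this
  refine le_trans ?_ hsub
  have h5 : E ^ 2 / 2 ≤ ((G.walks S r).card : ℝ) ^ 2 / (2 * (S.card : ℝ) ^ 2) := by
    rw [div_le_div_iff₀ (by norm_num) (by positivity)]
    have : (S.card * E) ^ 2 ≤ ((G.walks S r).card : ℝ) ^ 2 := by gcongr
    nlinarith
  have h6 := h5.trans hcc
  have hr0 : (0 : ℝ) < r := by
    have : 0 < r := by omega
    exact_mod_cast this
  have h7 : (0 : ℝ) < r * 2 ^ (r - (k - k / 400)) := by positivity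
  have h8 : (2 : ℝ) ^ (2 * k - k / 400 : ℕ) * (r * 2 ^ (r - (k - k / 400))) ≤
      c1 * (r * 2 ^ (r - (k - k / 400))) := by
    have h9 : (2 : ℝ) ^ (2 * k - k / 400 : ℕ) * (r * 2 ^ (r - (k - k / 400))) * 2 ≤ E ^ 2 := by
      refine le_trans (le_of_eq ?_) hf2
      ring
    linarith
  exact le_of_mul_le_mul_right h8 h7

/-- The darts at the vertices of a closed walk. -/
lemma card_on (G : Cub D) [Fintype D] {l : ℕ} (A : G.H l) :
    (open Classical in (univ.filter fun d => A.On d).card) ≤ 3 * A.len := by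
  classical
  have h : (univ.filter fun d => A.On d) ⊆
      (univ : Finset (ZMod (A.n.1 + 1))).biUnion
        (fun i => {A.c i, G.σ (A.c i), G.σ (G.σ (A.c i))}) := by
    intro d hd
    simp only [mem_filter, mem_univ, true_and] at hd
    obtain ⟨i, hi⟩ := hd
    rw [mem_biUnion]
    refine ⟨(i : ZMod (A.n.1 + 1)), mem_univ _, ?_⟩
    simpa [Cub.Sv, Cub.H.sq] using hi
  refine (card_le_card h).trans (card_biUnion_le.trans ?_)
  calc ∑ i : ZMod (A.n.1 + 1), ({A.c i, G.σ (A.c i), G.σ (G.σ (A.c i))} : Finset D).card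
      ≤ ∑ _i : ZMod (A.n.1 + 1), 3 := sum_le_sum fun i _ => card_le_three
    _ = 3 * A.len := by
      rw [sum_const, card_univ, ZMod.card, smul_eq_mul, mul_comm]; rfl

lemma on_sigma (G : Cub D) {l : ℕ} (A : G.H l) {d : D} (h : A.On d) : A.On (G.σ d) := by
  obtain ⟨i, hi⟩ := h
  refine ⟨i, ?_⟩
  rcases hi with rfl | rfl | rfl
  · exact Or.inr (Or.inl rfl)
  · exact Or.inr (Or.inr rfl)
  · left
    rw [G.σσσ]

/-- Many closed walks disjoint from a short list of walks. -/
lemma avoid_list {k : ℕ} (hk : Num k) (G : Cub D) [Fintype D] (N : ℕ)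
    (hD : Fintype.card D = 3 * N) (h1 : 2 ^ k ≤ N) (h2 : N < 2 ^ (k + 1))
    (hG : G.Girth (2 * (k - k / 400))) (F : List (G.H (2 * (k + k / 30000))))
    (hF : 300000 * (F.length * (2 * (k + k / 30000))) ≤ N) :
    (2 : ℝ) ^ (2 * k - k / 400 : ℕ) ≤ (open Classical in
      ((univ.filter fun C : G.H (2 * (k + k / 30000)) => ∀ A ∈ F, A.Dj C).card : ℝ)) := by
  classical
  set X : Finset D := univ.filter fun d => ∃ A ∈ F, A.On d with hXdef
  have hX : ∀ d ∈ X, G.σ d ∈ X := by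
    intro d hd
    simp only [hXdef, mem_filter, mem_univ, true_and] at hd ⊢
    obtain ⟨A, hA, hd⟩ := hd
    exact ⟨A, hA, on_sigma G A hd⟩
  have hXM : X.card ≤ 3 * (F.length * (2 * (k + k / 30000))) := by
    have key : ∀ F : List (G.H (2 * (k + k / 30000))),
        (univ.filter fun d => ∃ A ∈ F, A.On d).card ≤
          3 * (F.length * (2 * (k + k / 30000))) := by
      intro F
      induction F with
      | nil => simp
      | cons A F ih =>
        have h3 : (univ.filter fun d => ∃ B ∈ A :: F, B.On d) ⊆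
            (univ.filter fun d => A.On d) ∪ (univ.filter fun d => ∃ B ∈ F, B.On d) := by
          intro d hd
          simp only [mem_filter, mem_univ, true_and, List.mem_cons, mem_union] at hd ⊢
          obtain ⟨B, rfl | hB, hd⟩ := hd
          · exact Or.inl hd
          · exact Or.inr ⟨B, hB, hd⟩
        have h4 := card_on G A
        have h5 : A.len ≤ 2 * (k + k / 30000) := A.n.2
        have h6 := (card_le_card h3).trans (card_union_le _ _)
        rw [List.length_cons]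
        have h7 : (F.length + 1) * (2 * (k + k / 30000)) =
          F.length * (2 * (k + k / 30000)) + 2 * (k + k / 30000) := by ring
        omega
    exact key F
  have h3 := avoid hk G N hD h1 h2 hG (F.length * (2 * (k + k / 30000))) hF X hX hXM
  refine h3.trans ?_
  have h4 : (univ.filter fun C : G.H (2 * (k + k / 30000)) => ∀ i : ℤ, C.sq i ∉ X) ⊆
      (univ.filter fun C : G.H (2 * (k + k / 30000)) => ∀ A ∈ F, A.Dj C) := by
    intro C hC
    simp only [mem_filter, mem_univ, true_and, hXdef] at hC ⊢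
    intro A hA d hd
    obtain ⟨hd1, i, hi⟩ := hd
    apply hC i
    refine ⟨A, hA, ?_⟩
    rcases hi with hi | hi | hi
    · rw [← hi]; exact hd1
    · have : G.σ (G.σ d) = C.sq i := by rw [hi, G.σσσ]
      rw [← this]
      exact on_sigma G A (on_sigma G A hd1)
    · have : G.σ d = C.sq i := by rw [hi, G.σσσ]
      rw [← this]
      exact on_sigma G A hd1
  exact_mod_cast card_le_card h4

/-- Two independent short cycles are joined by many edges on the average. -/
lemma energy {k : ℕ} (hk : Num k) (G : Cub D) [Fintype D] (N : ℕ)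
    (hD : Fintype.card D = 3 * N) (h1 : 2 ^ k ≤ N) (h2 : N < 2 ^ (k + 1))
    (hG : G.Girth (2 * (k - k / 400))) (s : G.H (2 * (k + k / 30000)) → ℝ)
    (hs : ∀ C, 0 ≤ s C) (hi : Cub.Inv s)
    (hρ : ∀ C, s C ≤ (2 : ℝ)⁻¹ ^ (2 * k - k / 38 : ℕ) * ∑ B, s B) :
    (((2 * (k - k / 400) : ℕ) : ℝ) ^ 2 / (1024 * ((3 * N : ℕ) : ℝ))) * (∑ C, s C) ^ 2 ≤
      (open Classical in
        ∑ A, ∑ B, s A * s B * (if A.Dj B then (A.ch B : ℝ) else 0)) := by
  classical
  have hb := hk.big
  have hN0 : 0 < N := lt_of_lt_of_le (by positivity) h1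
  have hN0r : (0 : ℝ) < ((3 * N : ℕ) : ℝ) := by exact_mod_cast (by omega : 0 < 3 * N)
  have hS0 : 0 ≤ ∑ C, s C := sum_nonneg fun C _ => hs C
  rcases hS0.eq_or_lt with hS | hS
  · rw [← hS]
    have : (0 : ℝ) ≤ ∑ A, ∑ B, s A * s B *
        (if A.Dj B then (A.ch B : ℝ) else 0) := by
      refine sum_nonneg fun A _ => sum_nonneg fun B _ => mul_nonneg
        (mul_nonneg (hs A) (hs B)) ?_
      split_ifs
      · exact Nat.cast_nonneg _
      · exact le_rfl
    simpa using this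
  -- unfair darts are rare
  have hρ0 : (0 : ℝ) < (2 : ℝ)⁻¹ ^ (2 * k - k / 38 : ℕ) := by positivity
  have hU := unfair_small G s hs hS hi.1 (k - k / 400)
    (2 * (k + k / 30000) * 2 ^ (2 * (k + k / 30000) - 2 * (k - k / 400)))
    (fun p => window_count G hG (le_refl _) (by omega) _ p) _ hρ0 hρ
  rw [hD] at hU
  have hf3 := fact3 hk h2 hN0
  have hw0 : (0 : ℝ) < ((k - k / 400 : ℕ) : ℝ) := by
    have : 0 < k - k / 400 := by omega
    exact_mod_cast this
  have hU' : (∑ C : G.H (2 * (k + k / 30000)), if Cub.Fair s (C.sq 0) then 0 else s C) ≤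
      (∑ C, s C) / 6 := by
    have h3 := hU.trans (mul_le_mul_of_nonneg_left hf3 hS.le)
    have h4 : (0.18 : ℝ) * ((k - k / 400 : ℕ) : ℝ) *
      (∑ C : G.H (2 * (k + k / 30000)), if Cub.Fair s (C.sq 0) then 0 else s C) ≤
      (0.18 : ℝ) * ((k - k / 400 : ℕ) : ℝ) * ((∑ C, s C) / 6) := by
      refine h3.trans (le_of_eq (by ring))
    exact le_of_mul_le_mul_left h4 (by positivity)
  have hch := chain G s hs hi hU'
  rw [hD] at hch
  have hcon := contact G hG s hs hi.1 _
    (6 * (2 * (k + k / 30000)) ^ 3 * 2 ^ (2 * (k + k / 30000) -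
      (k - 2 * (k / 400) - k / 30000 - 1) - (k - k / 400))) hρ
    (fun A => meet_count G hG (by omega) (le_refl _) (by omega) (by omega) (by omega) A)
  refine le_trans ?_ hcon
  have hf4 := fact4 hk h2
  have h5 : (2 : ℝ)⁻¹ ^ (2 * k - k / 38 : ℕ) *
      ((6 * (2 * (k + k / 30000)) ^ 3 * 2 ^ (2 * (k + k / 30000) -
        (k - 2 * (k / 400) - k / 30000 - 1) - (k - k / 400)) : ℕ) : ℝ) ≤
      1 / (1024 * ((3 * N : ℕ) : ℝ)) := by
    rw [le_div_iff₀ (by positivity)]
    exact hf4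
  have h6 : (∑ C, s C) ^ 2 / (1024 * ((3 * N : ℕ) : ℝ)) ≤
      (∑ d : D, Cub.xx s d * Cub.xx s (G.τ d)) - (2 : ℝ)⁻¹ ^ (2 * k - k / 38 : ℕ) *
      ((6 * (2 * (k + k / 30000)) ^ 3 * 2 ^ (2 * (k + k / 30000) -
        (k - 2 * (k / 400) - k / 30000 - 1) - (k - k / 400)) : ℕ) : ℝ) *
        (∑ C, s C) ^ 2 := by
    have h7 := mul_le_mul_of_nonneg_right h5 (sq_nonneg (∑ C, s C))
    have h8 : (∑ C, s C) ^ 2 / (512 * ((3 * N : ℕ) : ℝ)) =
      2 * ((∑ C, s C) ^ 2 / (1024 * ((3 * N : ℕ) : ℝ))) := by field_simp; ring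
    have h9 : 1 / (1024 * ((3 * N : ℕ) : ℝ)) * (∑ C, s C) ^ 2 =
      (∑ C, s C) ^ 2 / (1024 * ((3 * N : ℕ) : ℝ)) := by ring
    rw [h9] at h7
    rw [h8] at hch
    linarith
  refine le_trans (le_of_eq ?_) (mul_le_mul_of_nonneg_left h6 (sq_nonneg _))
  ring

/-- Equal for all purposes of the tilted ensemble. -/
def Rel {G : Cub D} {l : ℕ} (A B : G.H l) : Prop :=
  (∀ X : G.H l, X.Dj A ↔ X.Dj B) ∧ ∀ X : G.H l, X.ch A = X.ch B

lemma rel_rot {G : Cub D} {l : ℕ} (A : G.H l) : Rel A.rot A :=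
  ⟨fun X => by simp only [Cub.H.Dj, on_rot], fun X => ch_rot G X A⟩

lemma rel_rev {G : Cub D} {l : ℕ} (A : G.H l) : Rel A.rev A :=
  ⟨fun X => by simp only [Cub.H.Dj, on_rev], fun X => ch_rev G X A⟩

/-- The main step: disjoint short cycles with many edges between them. -/
theorem main_cub : ∃ K : ℕ, ∀ k ≥ K, ∀ (D : Type) (_ : Fintype D) (G : Cub D) (N : ℕ),
    Fintype.card D = 3 * N → 2 ^ k ≤ N → N < 2 ^ (k + 1) →
    ∃ (m l : ℕ) (F : Fin m → G.H l), 1 ≤ m ∧ 8 * k * m ≤ N ∧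
      (∀ i j, i ≠ j → (F i).Dj (F j)) ∧ (∀ i, (F i).Simple) ∧
      ∑ i, (F i).len ≤ (2 * k - 2 * (k / 30000)) * m +
        ∑ i, ∑ j ∈ Finset.univ.filter (fun j => i < j), (F i).ch (F j) := by
  classical
  obtain ⟨K, hK⟩ := ev_num
  refine ⟨K, fun k hkK D _ G N hD h1 h2 => ?_⟩
  have hk := hK k hkK
  have hb := hk.big
  have hN0 : 0 < N := lt_of_lt_of_le (by positivity) h1
  have hn6 : 120000000 * k ≤ N := by
    have h3 := hk.n6
    have h4 : 120000000 * k ≤ 2 ^ k := by exact_mod_cast h3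
    omega
  by_cases hG : G.Girth (2 * (k - k / 400))
  swap
  · obtain ⟨l, C, hC, hs⟩ := short_simple G _ hG
    refine ⟨1, l, fun _ => C, le_rfl, by omega, ?_, fun _ => hs, ?_⟩
    · intro i j hij
      exact absurd (Subsingleton.elim i j) hij
    · simp only [univ_unique, sum_singleton, mul_one]
      omega
  by_contra hcon
  push Not at hcon
  set l := 2 * (k + k / 30000) with hl
  set m := N / (300000 * l) + 1 with hm
  have hl0 : 0 < l := by omega
  have hmN : 300000 * ((m - 1) * l) ≤ N := by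
    have h3 := Nat.div_mul_le_self N (300000 * l)
    have h4 : m - 1 = N / (300000 * l) := by rw [hm, Nat.add_sub_cancel]
    rw [h4]
    calc 300000 * (N / (300000 * l) * l) = N / (300000 * l) * (300000 * l) := by ring
      _ ≤ N := h3
  have hm2 : 2 ≤ m := by
    have : 1 ≤ N / (300000 * l) := by
      rw [Nat.one_le_div_iff (by omega)]
      omega
    rw [hm]
    exact Nat.succ_le_succ this
  have h8 : 8 * k * m ≤ N := by
    have h3 : 2 * k ≤ l := by omega
    have h4 : (m - 1) * (2 * k) ≤ (m - 1) * l := Nat.mul_le_mul_left _ h3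
    have h5 : m = (m - 1) + 1 := by omega
    rw [h5]
    nlinarith
  have hsimple : ∀ C : G.H l, C.Simple := fun C =>
    simple_of_girth G hG C (by
      have : C.len ≤ l := C.n.2
      omega)
  have hno : ∀ F : Fin m → G.H l, (∀ i j, i ≠ j → (F i).Dj (F j)) →
      (∑ i, ∑ j ∈ Finset.univ.filter (fun j => i < j), ((F i).ch (F j) : ℝ)) ≤
        4 * ((k / 30000 : ℕ) : ℝ) * m := by
    intro F hF
    have h3 := hcon m l F (by omega) h8 hF (fun i => hsimple _)
    have h4 : ∑ i, (F i).len ≤ m * l := by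
      calc ∑ i, (F i).len ≤ ∑ _i : Fin m, l := sum_le_sum fun i _ => (F i).n.2
        _ = m * l := by simp
    have h5 : (2 * k - 2 * (k / 30000)) * m + 4 * (k / 30000) * m = m * l := by
      have : 2 * k - 2 * (k / 30000) + 4 * (k / 30000) = l := by omega
      rw [← this]; ring
    have h6 : ∑ i, ∑ j ∈ Finset.univ.filter (fun j => i < j), (F i).ch (F j) ≤
        4 * (k / 30000) * m := by omega
    exact_mod_cast h6
  have hg0 : (0 : ℝ) < ((2 * (k - k / 400) : ℕ) : ℝ) := by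
    have : 0 < 2 * (k - k / 400) := by omega
    exact_mod_cast this
  have hN3 : (0 : ℝ) < ((3 * N : ℕ) : ℝ) := by exact_mod_cast (by omega : 0 < 3 * N)
  have he0 : (0 : ℝ) < ((k / 30000 : ℕ) : ℝ) := by
    have : 0 < k / 30000 := by omega
    exact_mod_cast this
  have ht := tilt (H := G.H l) (fun A B => A.Dj B) (fun A B => A.ch B) Rel
    (fun A B h d hd => h d ⟨hd.2, hd.1⟩) (fun A B _ => ch_comm G A B)
    (fun A B X h => h.1 X) (fun A B X h _ => h.2 X) m l hm2
    ((2 : ℝ) ^ (2 * k - k / 400 : ℕ)) (2 ^ 21 - 1) ((2 : ℝ)⁻¹ ^ (2 * k - k / 38 : ℕ))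
    (((2 * (k - k / 400) : ℕ) : ℝ) ^ 2 / (1024 * ((3 * N : ℕ) : ℝ)))
    (4 * ((k / 30000 : ℕ) : ℝ)) (by positivity) (by norm_num) (by positivity)
    (by positivity) (by positivity) (fun A B _ => ch_le G A B (hsimple B))
    (fun F hF _ => by
      refine avoid_list hk G N hD h1 h2 hG F (le_trans ?_ hmN)
      have : F.length ≤ m - 1 := by omega
      gcongr)
    hno
    (fun s hs0 hsr hρ => by
      exact energy hk G N hD h1 h2 hG s hs0
        ⟨fun C => hsr _ _ (rel_rot C), fun C => hsr _ _ (rel_rev C)⟩ hρ)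
    (fact5 hk h1) (fact6 hk)
  exact fact7 hk h1 hm ht

end Pool.Agent.CP51
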