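import Pool.Agent.CP51.Defs

/-!
# The first meeting of two walks in contact (section 4 of the page, first half)
-/

namespace Pool.Agent.CP51

variable {D : Type}

/-- A closed walk given by a function on `ℕ`. -/
theorem girth_fun {G : Cub D} {g : ℕ} (hG : G.Girth g) (m : ℕ) (p : ℕ → D)
    (h : ∀ i < m, G.Fol (p i) (p (i + 1))) (hl : G.Fol (p m) (p 0)) : g ≤ m + 1 := by
  have key : ∀ i : Fin (m + 1), G.Fol (p i.val) (p (i + 1).val) := by
    intro i
    rw [Fin.val_add_one]
    split_ifs with hi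
    · rw [hi]; exact hl
    · exact h i.val (by
        rcases Nat.lt_or_ge i.val m with h1 | h1
        · exact h1
        · exact absurd (Fin.ext (by simp; omega)) hi)
  exact hG (m + 1) ⟨⟨m, Nat.lt_succ_self m⟩, fun i : Fin (m + 1) => p i.val, key⟩

namespace Cub

variable {G : Cub D} {l : ℕ}

theorem Sv.rfl' {d : D} : G.Sv d d := Or.inl rfl

theorem Sv.symm {d e : D} (h : G.Sv d e) : G.Sv e d := by
  rcases h with rfl | rfl | rfl
  · exact Or.inl rfl
  · exact Or.inr (Or.inr (G.σσσ d).symm)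
  · exact Or.inr (Or.inl (G.σσσ d).symm)

theorem Sv.trans {d e f : D} (h : G.Sv d e) (h' : G.Sv e f) : G.Sv d f := by
  rcases h with rfl | rfl | rfl
  · exact h'
  · rcases h' with rfl | rfl | rfl
    · exact Or.inr (Or.inl rfl)
    · exact Or.inr (Or.inr rfl)
    · exact Or.inl (G.σσσ d)
  · rcases h' with rfl | rfl | rfl
    · exact Or.inr (Or.inr rfl)
    · exact Or.inl (G.σσσ d)
    · exact Or.inr (Or.inl (by rw [G.σσσ]))

theorem σσne (G : Cub D) (d : D) : G.σ (G.σ d) ≠ d := by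
  intro h
  have h1 := congrArg G.σ h
  rw [G.σσσ] at h1
  exact G.σne d h1.symm

theorem fol_iff {d e : D} : G.Fol d e ↔ G.Sv (G.τ d) e ∧ e ≠ G.τ d := by
  constructor
  · rintro (rfl | rfl)
    · exact ⟨Or.inr (Or.inl rfl), G.σne _⟩
    · exact ⟨Or.inr (Or.inr rfl), G.σσne _⟩
  · rintro ⟨h | h | h, h1⟩
    · exact absurd h h1
    · exact Or.inl h
    · exact Or.inr h

theorem th_spec {d e : D} (h : G.Fol d e) :
    G.Sv (G.τ d) (G.th d e) ∧ G.th d e ≠ G.τ d ∧ G.th d e ≠ e := by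
  unfold Cub.th
  split_ifs with h1
  · refine ⟨Or.inr (Or.inr rfl), G.σσne _, ?_⟩
    rw [h1]
    exact G.σne _
  · rcases h with h | h
    · exact absurd h h1
    · refine ⟨Or.inr (Or.inl rfl), G.σne _, ?_⟩
      rw [h]
      exact (G.σne _).symm

theorem th_rev {d e : D} (h : G.Fol d e) : G.th (G.τ e) (G.τ d) = G.th d e := by
  unfold Cub.th
  rw [G.ττ]
  by_cases h1 : e = G.σ (G.τ d)
  · rw [if_pos h1, if_neg, h1]
    rw [h1]
    exact (G.σσne _).symm
  · rcases h with h | h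
    · exact absurd h h1
    · rw [if_neg h1, h, G.σσσ, if_pos rfl, ]

theorem H.sq_fol (C : G.H l) (i : ℤ) : G.Fol (C.sq i) (C.sq (i + 1)) := by
  unfold H.sq
  push_cast
  exact C.fol _

theorem H.sq_congr (C : G.H l) {i j : ℤ} (h : (C.len : ℤ) ∣ i - j) : C.sq i = C.sq j := by
  unfold H.sq
  congr 1
  have h1 : (((C.n.1 + 1 : ℕ) : ℤ)) ∣ j - i := by
    have h2 := dvd_neg.mpr h
    rw [neg_sub] at h2
    exact h2
  exact (ZMod.intCast_eq_intCast_iff_dvd_sub i j (C.n.1 + 1)).mpr h1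

theorem H.sq_tail (C : G.H l) (i : ℤ) : G.Sv (G.τ (C.sq i)) (C.sq (i + 1)) :=
  (fol_iff.mp (C.sq_fol i)).1

/-- Reversal with the same third dart at the root. -/
def H.rv (C : G.H l) : G.H l :=
  ⟨C.n, fun i => G.τ (C.c (1 - i)), fun i => by
    have h := C.fol (-i)
    rw [show 1 - (i + 1) = -i by ring, show 1 - i = -i + 1 by ring]
    exact h.rev⟩

theorem H.rv_len (C : G.H l) : C.rv.len = C.len := rfl

theorem H.rv_sq (C : G.H l) (i : ℤ) : C.rv.sq i = G.τ (C.sq (1 - i)) := by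
  change G.τ (C.c (1 - (i : ZMod (C.n.1 + 1)))) = G.τ (C.c ((1 - i : ℤ) : ZMod (C.n.1 + 1)))
  push_cast
  rfl

theorem H.rv_tt (C : G.H l) : C.rv.tt 0 = C.tt 0 := by
  unfold H.tt
  rw [H.rv_sq, H.rv_sq]
  have h := C.sq_fol 0
  simp only [sub_zero, zero_add, sub_self] at h ⊢
  exact th_rev h

theorem H.rv_sv (C : G.H l) (i : ℤ) : G.Sv (C.rv.sq i) (C.sq (2 - i)) := by
  rw [H.rv_sq]
  have h := C.sq_tail (1 - i)
  rwa [show (1 : ℤ) - i + 1 = 2 - i by ring] at h

theorem H.rv_on (C : G.H l) (d : D) : C.rv.On d ↔ C.On d := by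
  constructor
  · rintro ⟨i, h⟩
    exact ⟨2 - i, (C.rv_sv i).symm.trans h⟩
  · rintro ⟨i, h⟩
    refine ⟨2 - i, ?_⟩
    have h1 := C.rv_sv (2 - i)
    rw [show (2 : ℤ) - (2 - i) = i by ring] at h1
    exact h1.trans h

theorem H.rv_simple {C : G.H l} (h : C.Simple) : C.rv.Simple := by
  intro i j hij
  have h1 := h _ _ (((C.rv_sv i).symm.trans hij).trans (C.rv_sv j))
  rw [H.rv_len]
  have h2 := dvd_neg.mpr h1
  rwa [show -((2 : ℤ) - i - (2 - j)) = i - j by ring] at h2

theorem H.tt_spec (C : G.H l) : G.Sv (C.sq 1) (C.tt 0) ∧ C.tt 0 ≠ G.τ (C.sq 0) ∧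
    C.tt 0 ≠ C.sq 1 := by
  have h := C.sq_fol 0
  have h1 := th_spec h
  rw [zero_add] at h h1
  refine ⟨?_, ?_, ?_⟩
  · exact (fol_iff.mp h).1.symm.trans h1.1
  · exact h1.2.1
  · exact h1.2.2

end Cub

open Cub

/-- From the root of the contact along `B` to `A` and back along `A`. -/
theorem arc_le {G : Cub D} {g l : ℕ} (hG : G.Girth g) (A B : G.H l) (hA : A.Simple)
    (hc : B.tt 0 = G.τ (A.tt 0)) (hB : B.Simple) (j a : ℕ) (ha : a < A.len)
    (hs : G.Sv (A.sq (1 - a)) (B.sq (1 + j))) (hmin : ∀ k < j, ¬ A.On (B.sq (1 + k))) :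
    g ≤ 1 + j + a := by
  obtain ⟨a1, a2, a3⟩ := A.tt_spec
  obtain ⟨b1, b2, b3⟩ := B.tt_spec
  rw [hc] at b1 b2 b3
  set t := A.tt 0 with ht
  -- the walk
  set p : ℕ → D := fun k => if k = 0 then t else if k ≤ j then B.sq k else
    A.sq ((k : ℤ) - j - a) with hp
  have p0 : p 0 = t := by simp [hp]
  have p1 : ∀ k, 1 ≤ k → k ≤ j → p k = B.sq k := by
    intro k h1 h2
    simp only [hp]
    rw [if_neg (by omega), if_pos h2]
  have p2 : ∀ k, j < k → p k = A.sq ((k : ℤ) - j - a) := by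
    intro k h1
    simp only [hp]
    rw [if_neg (by omega), if_neg (by omega)]
  -- the contact edge is followed by `B`
  have f1 : G.Fol t (B.sq 1) := fol_iff.mpr ⟨b1.symm, b3.symm⟩
  -- the end of `A` is followed by the contact edge
  have f2 : G.Fol (A.sq 0) t := by
    have h := (A.sq_tail 0)
    rw [zero_add] at h
    exact fol_iff.mpr ⟨h.trans a1, a2⟩
  have hlen : 0 < A.len := Nat.succ_pos _
  have key := girth_fun hG (j + a) p ?_ ?_
  · omega
  · intro k hk
    rcases Nat.eq_zero_or_pos k with rfl | hk0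
    · rw [p0]
      rcases Nat.eq_zero_or_pos j with rfl | hj
      · -- directly onto `A`
        rw [p2 _ (by omega)]
        have e : (((0 + 1 : ℕ) : ℤ) - ((0 : ℕ) : ℤ) - a) = 1 - a := by push_cast; ring
        rw [e]
        have h1 : G.Sv (G.τ t) (A.sq (1 - a)) := by
          have h2 := hs
          rw [Nat.cast_zero, add_zero] at h2
          exact b1.symm.trans h2.symm
        refine fol_iff.mpr ⟨h1, fun h3 => ?_⟩
        -- the head of `A.sq (1 - a)` is the tail of `t`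
        have h4 : G.Sv (A.sq (1 - a + 1)) (A.sq 1) := by
          have h5 := A.sq_tail (1 - a)
          rw [h3, G.ττ] at h5
          exact h5.symm.trans a1.symm
        have h6 := hA _ _ h4
        have h7 : (1 : ℤ) - a + 1 - 1 = -(a - 1) := by ring
        rw [h7, dvd_neg] at h6
        have h8 : a = 1 := by
          have h9 : ((A.len : ℤ)) ∣ ((a - 1 : ℕ) : ℤ) := by
            have : ((a - 1 : ℕ) : ℤ) = (a : ℤ) - 1 := by omega
            rw [this]; exact h6
          have h10 := Nat.eq_zero_of_dvd_of_lt (Int.natCast_dvd_natCast.mp h9) (by omega)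
          omega
        rw [h8, Nat.cast_one, sub_self] at h3
        apply a2
        rw [h3, G.ττ]
      · rw [p1 _ (by omega) (by omega)]
        exact f1
    · rcases lt_trichotomy k j with h | h | h
      · rw [p1 k (by omega) (by omega), p1 (k + 1) (by omega) (by omega)]
        have := B.sq_fol k
        push_cast
        exact this
      · rw [p1 k (by omega) (by omega), p2 (k + 1) (by omega)]
        have e : (((k + 1 : ℕ) : ℤ) - j - a) = 1 - a := by rw [h]; push_cast; ring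
        rw [e]
        have h1 := (fol_iff.mp (B.sq_fol k)).1
        have h2 : G.Sv (A.sq (1 - a)) (B.sq (k + 1)) := by
          have := hs
          rw [h, add_comm (j : ℤ) 1]
          exact this
        refine fol_iff.mpr ⟨h1.trans h2.symm, fun h3 => ?_⟩
        -- then the tail of `B.sq k` is on `A`
        refine hmin (k - 1) (by omega) ⟨1 - a + 1, ?_⟩
        have h5 := A.sq_tail (1 - a)
        rw [h3, G.ττ] at h5
        have e2 : (1 : ℤ) + ((k - 1 : ℕ) : ℤ) = k := by omega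
        rw [e2]
        exact h5.symm
      · rw [p2 k (by omega), p2 (k + 1) (by omega)]
        have := A.sq_fol ((k : ℤ) - j - a)
        have e : (((k + 1 : ℕ) : ℤ) - j - a) = (k : ℤ) - j - a + 1 := by push_cast; ring
        rw [e]
        exact this
  · rw [p0]
    rcases Nat.eq_zero_or_pos a with rfl | ha0
    · rcases Nat.eq_zero_or_pos j with rfl | hj
      · rw [p0]
        have h2 := hs
        rw [Nat.cast_zero, add_zero, sub_zero] at h2
        have h3 : G.Sv (G.τ t) t := (b1.symm.trans h2.symm).trans a1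
        exact fol_iff.mpr ⟨h3, (G.τne t).symm⟩
      · rw [p1 _ (by omega) (by omega)]
        have h2 := hs
        rw [Nat.cast_zero, sub_zero, add_comm (1 : ℤ)] at h2
        have h1 := (B.sq_tail j)
        refine fol_iff.mpr ⟨(h1.trans h2.symm).trans a1, fun h3 => ?_⟩
        -- `B.sq j` is the reversed contact edge
        have h4 : G.τ t = B.sq j := by
          have : G.τ t = G.τ (G.τ (B.sq j)) := congrArg G.τ h3
          rw [this, G.ττ]
        have h5 : G.Sv (B.sq 1) (B.sq j) := by rw [← h4]; exact b1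
        have h6 := B.sq_congr (hB _ _ h5)
        exact b3 (h4.trans h6.symm)
    · rw [p2 _ (by omega)]
      have e : (((j + a : ℕ) : ℤ) - j - a) = 0 := by push_cast; ring
      rw [e]
      exact f2

/-- The first visit of `B` to `A`, shorter arc of `A`. -/
theorem first_le {G : Cub D} {g l : ℕ} (hG : G.Girth g) (A B : G.H l) (hA : A.Simple)
    (hB : B.Simple) (hc : B.tt 0 = G.τ (A.tt 0)) (j : ℕ) (hon : A.On (B.sq (1 + j)))
    (hmin : ∀ k < j, ¬ A.On (B.sq (1 + k))) : g ≤ 1 + j + l / 2 := by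
  obtain ⟨i, hi⟩ := hon
  have hL : (0 : ℤ) < A.len := by
    have : 0 < A.len := Nat.succ_pos _
    exact_mod_cast this
  have hLl : A.len ≤ l := A.n.2
  obtain ⟨a, ha⟩ : ∃ a : ℕ, (a : ℤ) = (1 - i) % A.len :=
    ⟨((1 - i) % A.len).toNat, Int.toNat_of_nonneg (Int.emod_nonneg _ hL.ne')⟩
  obtain ⟨b, hb⟩ : ∃ b : ℕ, (b : ℤ) = (i - 1) % A.len :=
    ⟨((i - 1) % A.len).toNat, Int.toNat_of_nonneg (Int.emod_nonneg _ hL.ne')⟩
  have ha1 : (a : ℤ) < A.len := by rw [ha]; exact Int.emod_lt_of_pos _ hL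
  have hb1 : (b : ℤ) < A.len := by rw [hb]; exact Int.emod_lt_of_pos _ hL
  have ha2 : (A.len : ℤ) ∣ (1 - i) - a := by rw [ha]; exact Int.dvd_self_sub_emod
  have hb2 : (A.len : ℤ) ∣ (i - 1) - b := by rw [hb]; exact Int.dvd_self_sub_emod
  have hab : (A.len : ℤ) ∣ a + b := by
    have h := dvd_neg.mpr (dvd_add ha2 hb2)
    rwa [show -((1 : ℤ) - i - a + (i - 1 - b)) = a + b by ring] at h
  have h1 : g ≤ 1 + j + a := by
    refine arc_le hG A B hA hc hB j a (by exact_mod_cast ha1) ?_ hmin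
    have : A.sq (1 - a) = A.sq i := by
      apply A.sq_congr
      rwa [show (1 : ℤ) - a - i = 1 - i - a by ring]
    rw [this]; exact hi
  have h2 : g ≤ 1 + j + b := by
    refine arc_le hG A.rv B (H.rv_simple hA) (by rw [H.rv_tt]; exact hc) hB j b
      (by rw [H.rv_len]; exact_mod_cast hb1) ?_ (fun k hk => by rw [H.rv_on]; exact hmin k hk)
    have h3 := A.rv_sv (1 - b)
    have h4 : A.sq (2 - (1 - b)) = A.sq i := by
      apply A.sq_congr
      have h := dvd_neg.mpr hb2
      rwa [show -(i - 1 - (b : ℤ)) = 2 - (1 - b) - i by ring] at h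
    rw [h4] at h3
    exact h3.trans hi
  obtain ⟨q, hq⟩ := hab
  have hq2 : q < 2 := by
    by_contra h
    have : (A.len : ℤ) * 2 ≤ A.len * q := by
      apply mul_le_mul_of_nonneg_left _ hL.le
      omega
    omega
  have hq3 : (a : ℤ) + b ≤ A.len := by
    rw [hq]
    have : (A.len : ℤ) * q ≤ A.len * 1 := by
      apply mul_le_mul_of_nonneg_left _ hL.le
      omega
    omega
  omega

/-- All meetings happen at least `j0` steps after and before the root. -/
theorem meet_ge {G : Cub D} {g l j0 : ℕ} (hG : G.Girth g) (A B : G.H l) (hA : A.Simple)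
    (hB : B.Simple) (hj : j0 + 1 + l / 2 ≤ g) (hc : B.tt 0 = G.τ (A.tt 0)) (j : ℕ)
    (hon : A.On (B.sq (1 + j))) : j0 ≤ j := by
  classical
  have hex : ∃ k : ℕ, A.On (B.sq (1 + k)) := ⟨j, hon⟩
  have h1 := first_le hG A B hA hB hc (Nat.find hex) (Nat.find_spec hex)
    (fun k hk => Nat.find_min hex hk)
  have h2 : Nat.find hex ≤ j := Nat.find_min' hex hon
  omega

/-- If `B` meets `A`, it does so at a time at least `j0` from the root in both directions. -/
theorem meet_time {G : Cub D} {g l j0 : ℕ} (hG : G.Girth g) (A B : G.H l) (hA : A.Simple)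
    (hB : B.Simple) (hj : j0 + 1 + l / 2 ≤ g) (hc : B.tt 0 = G.τ (A.tt 0))
    (hd : ¬ A.Dj B) : ∃ j : ℕ, j0 ≤ j ∧ j + j0 ≤ B.len ∧ A.On (B.sq (1 + j)) := by
  unfold H.Dj at hd
  push Not at hd
  obtain ⟨d, ⟨i, hi⟩, ⟨k, hk⟩⟩ := hd
  have hL : (0 : ℤ) < B.len := by
    have : 0 < B.len := Nat.succ_pos _
    exact_mod_cast this
  obtain ⟨j, hj1⟩ : ∃ j : ℕ, (j : ℤ) = (k - 1) % B.len :=
    ⟨((k - 1) % B.len).toNat, Int.toNat_of_nonneg (Int.emod_nonneg _ hL.ne')⟩
  have hj2 : (j : ℤ) < B.len := by rw [hj1]; exact Int.emod_lt_of_pos _ hL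
  have hj3 : (B.len : ℤ) ∣ (k - 1) - j := by rw [hj1]; exact Int.dvd_self_sub_emod
  have hj4 : B.sq (1 + j) = B.sq k := by
    apply B.sq_congr
    have h := dvd_neg.mpr hj3
    rwa [show -(k - 1 - (j : ℤ)) = 1 + j - k by ring] at h
  have hon : A.On (B.sq (1 + j)) := by
    rw [hj4]
    exact ⟨i, hi.trans hk.symm⟩
  refine ⟨j, meet_ge hG A B hA hB hj hc j hon, ?_, hon⟩
  have h5 : j0 ≤ B.len - j := by
    refine meet_ge hG A B.rv hA (H.rv_simple hB) hj (by rw [H.rv_tt]; exact hc) _ ?_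
    obtain ⟨i', hi'⟩ := hon
    refine ⟨i', hi'.trans ?_⟩
    have h6 := B.rv_sv (1 + ((B.len - j : ℕ) : ℤ))
    have h7 : B.sq (2 - (1 + ((B.len - j : ℕ) : ℤ))) = B.sq (1 + j) := by
      apply B.sq_congr
      refine ⟨-1, ?_⟩
      have : ((B.len - j : ℕ) : ℤ) = B.len - j := by omega
      rw [this]
      ring
    rw [h7] at h6
    exact h6.symm
  omega

end Pool.Agent.CP51
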