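import Pool.Agent.CP51.CountPairs

/-!
# Short closed walks are simple
-/

namespace Pool.Agent.CP51.SimpleX

open Cub

variable {D : Type}

lemma svS {G : Cub D} {d e : D} (h : G.Sv d e) : G.Sv e d := by
  rcases h with rfl | rfl | rfl
  · exact Or.inl rfl
  · right; right; rw [G.σσσ]
  · right; left; rw [G.σσσ]

lemma svT {G : Cub D} {d e f : D} (h : G.Sv d e) (h' : G.Sv e f) : G.Sv d f := by
  rcases h with rfl | rfl | rfl <;> rcases h' with rfl | rfl | rfl
  · exact Or.inl rfl
  · exact Or.inr (Or.inl rfl)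
  · exact Or.inr (Or.inr rfl)
  · exact Or.inr (Or.inl rfl)
  · exact Or.inr (Or.inr rfl)
  · left; rw [G.σσσ]
  · exact Or.inr (Or.inr rfl)
  · left; rw [G.σσσ]
  · right; left; rw [G.σσσ]

lemma σσne (G : Cub D) (d : D) : G.σ (G.σ d) ≠ d := by
  intro h
  have h1 := G.σσσ d
  rw [h] at h1
  exact G.σne d h1

lemma fol_sv {G : Cub D} {d e : D} (h : G.Fol d e) : G.Sv (G.τ d) e := by
  rcases h with h | h
  · exact Or.inr (Or.inl h)
  · exact Or.inr (Or.inr h)

lemma fol_ne {G : Cub D} {d e : D} (h : G.Fol d e) : e ≠ G.τ d := by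
  rintro rfl
  rcases h with h | h
  · exact G.σne _ h.symm
  · exact σσne G _ h.symm

lemma fol_of {G : Cub D} {d e : D} (h : G.Sv (G.τ d) e) (h' : e ≠ G.τ d) : G.Fol d e := by
  rcases h with h | h | h
  · exact absurd h h'
  · exact Or.inl h
  · exact Or.inr h

/-- A walk which returns to its first vertex after `n` steps contains a closed walk. -/
lemma cut (G : Cub D) {g : ℕ} (hG : G.Girth g) (n : ℕ) : ∀ f : ℕ → D, 1 ≤ n →
    (∀ i < n, G.Fol (f i) (f (i + 1))) → G.Sv (f 0) (f n) → g ≤ n := by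
  induction n using Nat.strong_induction_on with
  | _ n ih =>
    intro f hn hf h
    by_cases hb : f 0 = G.τ (f (n - 1))
    · -- backtracking at the root
      have h1 : n ≠ 1 := by
        rintro rfl
        exact G.τne _ hb.symm
      have h2 : n ≠ 2 := by
        rintro rfl
        have h3 := fol_ne (hf 0 (by omega))
        apply h3
        have h4 : G.τ (f 0) = f 1 := by
          rw [hb]
          exact G.ττ _
        exact h4.symm
      have h5 := ih (n - 2) (by omega) (fun i => f (i + 1)) (by omega)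
        (fun i hi => hf (i + 1) (by omega)) ?_
      · omega
      · have h6 : n - 2 + 1 = n - 1 := by omega
        simp only [zero_add, h6]
        have h7 : G.τ (f 0) = f (n - 1) := by
          rw [hb]
          exact G.ττ _
        rw [← h7]
        exact svS (fol_sv (hf 0 (by omega)))
    · have h1 : G.Fol (f (n - 1)) (f 0) := by
        refine fol_of ?_ hb
        have h2 := fol_sv (hf (n - 1) (by omega))
        rw [show n - 1 + 1 = n by omega] at h2
        exact svT h2 (svS h)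
      obtain ⟨C, hC, -, -⟩ := mk_closed G f n n hn le_rfl (fun t ht => hf t (by omega)) h1
      rw [← hC]
      exact hG n C

lemma sq_fol {G : Cub D} {l : ℕ} (C : G.H l) (i : ℤ) : G.Fol (C.sq i) (C.sq (i + 1)) := by
  have h := C.fol (i : ZMod (C.n.1 + 1))
  unfold H.sq
  rw [Int.cast_add, Int.cast_one]
  exact h

lemma sq_congr {G : Cub D} {l : ℕ} (C : G.H l) {i j : ℤ} (h : (C.len : ℤ) ∣ i - j) :
    C.sq i = C.sq j := by
  unfold H.sq
  congr 1
  rw [ZMod.intCast_eq_intCast_iff]
  unfold H.len at h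
  push_cast at h ⊢
  exact (Int.modEq_iff_dvd.2 h).symm

lemma ret (G : Cub D) {g l : ℕ} (hG : G.Girth g) (C : G.H l) (i : ℤ) (n : ℕ) (hn : 1 ≤ n)
    (h : G.Sv (C.sq i) (C.sq (i + n))) : g ≤ n := by
  refine cut G hG n (fun t => C.sq (i + t)) hn (fun t _ => ?_) (by simpa using h)
  have := sq_fol C (i + t)
  push_cast
  rw [← add_assoc]
  exact this

theorem simple_of_girth (G : Cub D) {g l : ℕ} (hG : G.Girth g) (C : G.H l)
    (hC : C.len < 2 * g) : C.Simple := by
  intro i j hij
  by_contra hd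
  have h0 : (0 : ℤ) < (C.len : ℤ) := by
    have : 0 < C.len := Nat.succ_pos _
    exact_mod_cast this
  set r := (j - i) % (C.len : ℤ) with hr
  have hr0 : 0 ≤ r := Int.emod_nonneg _ h0.ne'
  have hr1 : r < C.len := Int.emod_lt_of_pos _ h0
  have hr2 : r ≠ 0 := by
    intro h
    apply hd
    have h1 : (C.len : ℤ) ∣ j - i := Int.dvd_of_emod_eq_zero h
    have h2 : i - j = -(j - i) := by ring
    rw [h2]
    exact (dvd_neg).2 h1
  have hrj : C.sq (i + r) = C.sq j := by
    apply sq_congr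
    have h1 : i + r - j = -((j - i) - r) := by ring
    rw [h1, dvd_neg]
    exact Int.dvd_self_sub_emod
  have h1 : g ≤ r.toNat := by
    refine ret G hG C i r.toNat (by omega) ?_
    rw [Int.toNat_of_nonneg hr0, hrj]
    exact hij
  have h2 : g ≤ (C.len - r).toNat := by
    refine ret G hG C j (C.len - r).toNat (by omega) ?_
    rw [Int.toNat_of_nonneg (by omega)]
    have h3 : C.sq (j + (C.len - r)) = C.sq i := by
      apply sq_congr
      have h4 : j + (C.len - r) - i = C.len + ((j - i) - r) := by ring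
      rw [h4]
      exact dvd_add (dvd_refl _) Int.dvd_self_sub_emod
    rw [h3]
    exact svS hij
  omega

/-- Reversal keeps the third dart. -/
lemma th_rev {G : Cub D} {d e : D} (h : G.Fol d e) : G.th (G.τ e) (G.τ d) = G.th d e := by
  unfold Cub.th
  rcases h with rfl | rfl
  · rw [if_pos rfl, if_neg, G.ττ]
    rw [G.ττ]
    exact fun h => σσne G _ h.symm
  · rw [G.ττ, G.σσσ, if_pos rfl, if_neg (G.σne (G.σ (G.τ d)))]

/-- The third darts indexed by residues. -/
noncomputable def ttz {G : Cub D} {l : ℕ} (C : G.H l) (z : ZMod (C.n.1 + 1)) : D :=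
  G.th (C.c z) (C.c (z + 1))

lemma tt_eq {G : Cub D} {l : ℕ} (C : G.H l) (i : ℤ) :
    C.tt i = ttz C (i : ZMod (C.n.1 + 1)) := by
  unfold H.tt ttz H.sq
  rw [Int.cast_add, Int.cast_one]

lemma card_range_zmod (n : ℕ) (Q : ZMod (n + 1) → Prop) [DecidablePred Q] :
    ((Finset.range (n + 1)).filter fun j => Q ((j : ℕ) : ZMod (n + 1))).card =
      (Finset.univ.filter Q).card := by
  refine Finset.card_bij' (fun j _ => ((j : ℕ) : ZMod (n + 1))) (fun z _ => z.val) ?_ ?_ ?_ ?_
  · intro j hj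
    simp only [Finset.mem_filter, Finset.mem_univ, true_and] at hj ⊢
    exact hj.2
  · intro z hz
    simp only [Finset.mem_filter, Finset.mem_univ, true_and, Finset.mem_range] at hz ⊢
    refine ⟨ZMod.val_lt z, ?_⟩
    rw [ZMod.natCast_zmod_val]
    exact hz
  · intro j hj
    simp only [Finset.mem_filter, Finset.mem_range] at hj
    exact ZMod.val_cast_of_lt hj.1
  · intro z _
    exact ZMod.natCast_zmod_val z

open Classical in
lemma ch_eq {G : Cub D} {l : ℕ} (A B : G.H l) :
    A.ch B = ∑ i ∈ Finset.range A.len,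
      (Finset.univ.filter fun z : ZMod (B.n.1 + 1) =>
        A.tt ((i : ℕ) : ℤ) = G.τ (ttz B z)).card := by
  unfold H.ch
  rw [Finset.card_filter, Finset.sum_product]
  refine Finset.sum_congr rfl fun i _ => ?_
  rw [← card_range_zmod B.n.1 (fun z => A.tt ((i : ℕ) : ℤ) = G.τ (ttz B z)),
    Finset.card_filter]
  refine Finset.sum_congr rfl fun j _ => ?_
  simp only [tt_eq B]
  rw [Int.cast_natCast]

/-- `ch` depends on the second walk only through its third darts up to a bijection. -/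
lemma ch_congr {G : Cub D} {l : ℕ} (A B B' : G.H l) (hn : B'.n = B.n)
    (e : ZMod (B'.n.1 + 1) ≃ ZMod (B.n.1 + 1)) (he : ∀ z, ttz B' z = ttz B (e z)) :
    A.ch B' = A.ch B := by
  classical
  rw [ch_eq, ch_eq]
  refine Finset.sum_congr rfl fun i _ => ?_
  refine Finset.card_bij (fun z _ => e z) ?_ ?_ ?_
  · intro z hz
    simp only [Finset.mem_filter, Finset.mem_univ, true_and] at hz ⊢
    rw [← he]
    exact hz
  · intro z _ z' _ h
    exact e.injective h
  · intro z hz
    simp only [Finset.mem_filter, Finset.mem_univ, true_and] at hz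
    refine ⟨e.symm z, ?_, e.apply_symm_apply z⟩
    simp only [Finset.mem_filter, Finset.mem_univ, true_and]
    rw [he, e.apply_symm_apply]
    exact hz

theorem ch_rot (G : Cub D) {l : ℕ} (A B : G.H l) : A.ch B.rot = A.ch B :=
  ch_congr A B B.rot rfl (Equiv.addRight 1) fun _ => rfl

theorem ch_rev (G : Cub D) {l : ℕ} (A B : G.H l) : A.ch B.rev = A.ch B := by
  have key : ∀ z : ZMod (B.n.1 + 1), G.th (G.τ (B.c (-z))) (G.τ (B.c (-(z + 1)))) =
      G.th (B.c (-z + -1)) (B.c (-z + -1 + 1)) := fun z => ?_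
  · exact ch_congr A B B.rev rfl ((Equiv.neg (ZMod (B.n.1 + 1))).trans (Equiv.addRight (-1))) key
  have h := th_rev (B.fol (-z + -1))
  have h1 : (-z + -1 + 1 : ZMod (B.n.1 + 1)) = -z := by ring
  rw [h1] at h
  have h2 : (-(z + 1) : ZMod (B.n.1 + 1)) = -z + -1 := by ring
  rw [h1, h2]
  exact h

theorem on_rot (G : Cub D) {l : ℕ} (A : G.H l) (d : D) : A.rot.On d ↔ A.On d := by
  have key : ∀ i : ℤ, A.rot.sq i = A.sq (i + 1) := by
    intro i
    unfold H.sq
    rw [Int.cast_add, Int.cast_one]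
    rfl
  constructor
  · rintro ⟨i, hi⟩
    exact ⟨i + 1, by rw [← key]; exact hi⟩
  · rintro ⟨i, hi⟩
    refine ⟨i - 1, ?_⟩
    rw [key, sub_add_cancel]
    exact hi

theorem on_rev (G : Cub D) {l : ℕ} (A : G.H l) (d : D) : A.rev.On d ↔ A.On d := by
  have key : ∀ i : ℤ, A.rev.sq i = G.τ (A.sq (-i)) := by
    intro i
    unfold H.sq
    rw [Int.cast_neg]
    rfl
  constructor
  · rintro ⟨i, hi⟩
    rw [key] at hi
    exact ⟨-i + 1, svT (svS (fol_sv (sq_fol A (-i)))) hi⟩
  · rintro ⟨i, hi⟩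
    refine ⟨-(i - 1), ?_⟩
    rw [key, neg_neg]
    have h := fol_sv (sq_fol A (i - 1))
    rw [sub_add_cancel] at h
    exact svT h hi

theorem ch_comm (G : Cub D) {l : ℕ} (A B : G.H l) : A.ch B = B.ch A := by
  classical
  unfold H.ch
  refine Finset.card_bij (fun p _ => (p.2, p.1)) ?_ ?_ ?_
  · rintro ⟨i, j⟩ h
    simp only [Finset.mem_filter, Finset.mem_product] at h ⊢
    refine ⟨⟨h.1.2, h.1.1⟩, ?_⟩
    rw [h.2, G.ττ]
  · rintro ⟨i, j⟩ _ ⟨i', j'⟩ _ h
    simp only [Prod.mk.injEq] at h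
    exact Prod.ext h.2 h.1
  · rintro ⟨i, j⟩ h
    simp only [Finset.mem_filter, Finset.mem_product] at h
    refine ⟨(j, i), ?_, rfl⟩
    simp only [Finset.mem_filter, Finset.mem_product]
    refine ⟨⟨h.1.2, h.1.1⟩, ?_⟩
    rw [h.2, G.ττ]

lemma sv_tt {G : Cub D} {l : ℕ} (C : G.H l) (i : ℤ) : G.Sv (C.sq (i + 1)) (C.tt i) := by
  refine svT (svS (fol_sv (sq_fol C i))) ?_
  unfold H.tt Cub.th
  split_ifs
  · exact Or.inr (Or.inr rfl)
  · exact Or.inr (Or.inl rfl)

theorem ch_le (G : Cub D) {l : ℕ} (A B : G.H l) (hB : B.Simple) : A.ch B ≤ l := by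
  classical
  refine le_trans ?_ (show A.len ≤ l from A.n.2)
  unfold H.ch
  refine le_trans (Finset.card_le_card_of_injOn (t := Finset.range A.len) (fun p => p.1) ?_ ?_)
    (Finset.card_range _).le
  · rintro ⟨i, j⟩ h
    simp only [Finset.coe_filter, Finset.mem_product, Set.mem_ofPred_eq] at h
    exact Finset.mem_coe.2 h.1.1
  · rintro ⟨i, j⟩ h ⟨i', j'⟩ h' e
    simp only [Finset.coe_filter, Finset.mem_product, Set.mem_ofPred_eq, Finset.mem_range]
      at h h' e
    subst e
    have h1 : B.tt (j : ℤ) = B.tt (j' : ℤ) := by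
      have := h.2.symm.trans h'.2
      rw [← G.ττ (B.tt (j : ℤ)), this, G.ττ]
    have h2 := sv_tt B (j : ℤ)
    have h3 := sv_tt B (j' : ℤ)
    rw [h1] at h2
    have h4 := hB _ _ (svT h2 (svS h3))
    have h5 : ((j : ℤ) + 1) - ((j' : ℤ) + 1) = (j : ℤ) - j' := by ring
    rw [h5] at h4
    have h6 : (j : ℤ) - j' = 0 := by
      apply Int.eq_zero_of_abs_lt_dvd h4
      rw [abs_lt]
      constructor <;> omega
    have h7 : j = j' := by omega
    rw [h7]

end Pool.Agent.CP51.SimpleX
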