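import Mathlib

/-!
# The tilted ensemble (section 5 of the proof of (CP)), in abstract form

`H` is a finite set of objects, `dj` a symmetric relation (disjointness), `ch` a symmetric
count (number of contacts).  If every family of at most `n + 1` members leaves at least `a`
members free, if the balance inequality `hE` holds for every invariant weight of small maximum and
if every pairwise `dj` family of `n + 2` members has at most `Δ (n + 2)` contacts, then
`θ κ / 8 ≤ 2 Δ / (n + 1)`.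
-/

open Finset

namespace Pool.Agent.CP51

namespace TiltAux

section Perm

/-- A product over the pairs `i < j` of a symmetric function does not change under a
permutation of the indices. -/
theorem prod_Ioi_comp_perm {n : ℕ} {M : Type*} [CommMonoid M] (σ : Equiv.Perm (Fin n))
    (f : Fin n → Fin n → M) (hf : ∀ i j, f i j = f j i) :
    ∏ i, ∏ j ∈ Ioi i, f (σ i) (σ j) = ∏ i, ∏ j ∈ Ioi i, f i j := by
  simp_rw [Finset.prod_sigma']
  set D := (Finset.univ : Finset (Fin n)).sigma Finset.Ioi with hD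
  have hφD : D.image (fun x ↦ ⟨σ x.1 ⊓ σ x.2, σ x.1 ⊔ σ x.2⟩) = D := by
    ext ⟨x1, x2⟩
    suffices (∃ a, ∃ b, a < b ∧ σ a ⊓ σ b = x1 ∧ σ a ⊔ σ b = x2) ↔ x1 < x2 by simpa [hD]
    refine ⟨?_, fun hlt ↦ ?_⟩
    · rintro ⟨i, j, hij, rfl, rfl⟩
      exact inf_le_sup.lt_of_ne <| by simp [hij.ne]
    obtain hlt' | hle := lt_or_ge (σ.symm x1) (σ.symm x2)
    · exact ⟨_, _, hlt', by simp [hlt.le]⟩
    exact ⟨_, _, hle.lt_of_ne (by simp [hlt.ne']), by simp [hlt.le]⟩
  nth_rw 2 [← hφD]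
  rw [Finset.prod_image fun x hx y hy ↦ Finset.injOn_of_card_image_eq (by rw [hφD]) hx hy]
  refine Finset.prod_congr rfl fun ⟨x₁, x₂⟩ hx ↦ ?_
  obtain hlt | hle := lt_or_ge (σ x₁) (σ x₂)
  · simp [inf_eq_left.2 hlt.le, sup_eq_right.2 hlt.le]
  simp [inf_eq_right.2 hle, sup_eq_left.2 hle, hf]

end Perm

section Tilt

variable {H : Type*} (u : H → H → ℝ)

/-- The weight of a tuple. -/
noncomputable def wt {n : ℕ} (F : Fin n → H) : ℝ := ∏ i, ∏ j ∈ Ioi i, u (F i) (F j)

/-- The weight of a further member. -/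
noncomputable def sw {n : ℕ} (F : Fin n → H) (C : H) : ℝ := ∏ i, u (F i) C

theorem wt_nonneg (hu : ∀ C C', 0 ≤ u C C') {n : ℕ} (F : Fin n → H) : 0 ≤ wt u F :=
  prod_nonneg fun _ _ => prod_nonneg fun _ _ => hu _ _

theorem sw_nonneg (hu : ∀ C C', 0 ≤ u C C') {n : ℕ} (F : Fin n → H) (C : H) : 0 ≤ sw u F C :=
  prod_nonneg fun _ _ => hu _ _

theorem wt_comp_perm (hsymm : ∀ C C', u C C' = u C' C) {n : ℕ} (F : Fin n → H)
    (σ : Equiv.Perm (Fin n)) : wt u (F ∘ σ) = wt u F := by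
  unfold wt
  exact prod_Ioi_comp_perm σ (fun i j => u (F i) (F j)) (fun i j => hsymm _ _)

theorem wt_cons {n : ℕ} (C : H) (F : Fin n → H) :
    wt u (Fin.cons C F : Fin (n + 1) → H) = (∏ j, u C (F j)) * wt u F := by
  unfold wt
  rw [Fin.prod_univ_succ]
  simp [Fin.prod_Ioi_succ]

theorem wt_cons_cons (hsymm : ∀ C C', u C C' = u C' C) {n : ℕ} (C C' : H) (F : Fin n → H) :
    wt u (Fin.cons C (Fin.cons C' F : Fin (n + 1) → H) : Fin (n + 2) → H)
      = wt u F * (sw u F C * sw u F C' * u C C') := by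
  rw [wt_cons, wt_cons, Fin.prod_univ_succ]
  simp only [Fin.cons_zero, Fin.cons_succ, sw]
  rw [prod_congr rfl (fun j _ => hsymm C (F j)), prod_congr rfl (fun j _ => hsymm C' (F j))]
  ring

/-- Splitting a sum over tuples. -/
theorem sum_tuple_split {n : ℕ} [Fintype H] (f : (Fin (n + 2) → H) → ℝ) :
    ∑ F, f F = ∑ F : Fin n → H, ∑ C, ∑ C', f (Fin.cons C (Fin.cons C' F : Fin (n + 1) → H)) := by
  classical
  rw [← (Fin.consEquiv (fun _ : Fin (n + 2) => H)).sum_comp, Fintype.sum_prod_type]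
  have h1 : ∀ C : H, ∑ y : Fin (n + 1) → H,
      f ((Fin.consEquiv (fun _ : Fin (n + 2) => H)) (C, y))
        = ∑ C', ∑ F : Fin n → H, f (Fin.cons C (Fin.cons C' F : Fin (n + 1) → H)) := by
    intro C
    rw [← (Fin.consEquiv (fun _ : Fin (n + 1) => H)).sum_comp, Fintype.sum_prod_type]
    rfl
  rw [sum_congr rfl (fun C _ => h1 C)]
  rw [sum_congr rfl (fun C _ => sum_comm), sum_comm]

/-- Exchangeability. -/
theorem exch [Fintype H] (hsymm : ∀ C C', u C C' = u C' C) {n : ℕ} (g : H → H → ℝ)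
    (i j : Fin (n + 2)) (hij : i ≠ j) :
    ∑ F : Fin (n + 2) → H, wt u F * g (F i) (F j)
      = ∑ F : Fin (n + 2) → H, wt u F * g (F 0) (F 1) := by
  classical
  obtain ⟨σ, h0, h1⟩ : ∃ σ : Equiv.Perm (Fin (n + 2)), σ 0 = i ∧ σ 1 = j := by
    set τ : Equiv.Perm (Fin (n + 2)) := Equiv.swap 0 i
    have hτ0 : τ 0 = i := Equiv.swap_apply_left _ _
    have hne : τ 1 ≠ i := by
      rw [← hτ0]
      intro h
      exact absurd (τ.injective h) (by simp)
    refine ⟨τ.trans (Equiv.swap (τ 1) j), ?_, ?_⟩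
    · rw [Equiv.trans_apply, hτ0]
      exact Equiv.swap_apply_of_ne_of_ne hne.symm hij
    · rw [Equiv.trans_apply]
      exact Equiv.swap_apply_left _ _
  have h := (Equiv.arrowCongr σ (Equiv.refl H)).sum_comp
    (fun F : Fin (n + 2) → H => wt u F * g (F i) (F j))
  rw [← h]
  refine sum_congr rfl fun F _ => ?_
  have e : (Equiv.arrowCongr σ (Equiv.refl H)) F = F ∘ σ.symm := by
    ext x; simp [Equiv.arrowCongr]
  rw [e, wt_comp_perm u hsymm]
  simp [← h0, ← h1]

end Tilt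


section Main

variable {H : Type*}

open Classical in
/-- The pair factor `1[dj] (1 + θ ch)`. -/
noncomputable def uw (dj : H → H → Prop) (ch : H → H → ℕ) (θ : ℝ) (C C' : H) : ℝ :=
  if dj C C' then 1 + θ * ch C C' else 0

theorem uw_nonneg {dj : H → H → Prop} {ch : H → H → ℕ} {θ : ℝ} (hθ : 0 ≤ θ) (C C' : H) :
    0 ≤ uw dj ch θ C C' := by
  unfold uw; split_ifs <;> positivity

theorem uw_symm {dj : H → H → Prop} {ch : H → H → ℕ} {θ : ℝ} (hdj : ∀ C C', dj C C' → dj C' C)
    (hch : ∀ C C', ch C C' = ch C' C) (C C' : H) :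
    uw dj ch θ C C' = uw dj ch θ C' C := by
  unfold uw
  by_cases h : dj C C'
  · rw [if_pos h, if_pos (hdj _ _ h), hch]
  · rw [if_neg h, if_neg (fun h' => h (hdj _ _ h'))]

theorem one_le_uw {dj : H → H → Prop} {ch : H → H → ℕ} {θ : ℝ} (hθ : 0 ≤ θ) {C C' : H}
    (h : dj C C') : 1 ≤ uw dj ch θ C C' := by
  unfold uw
  rw [if_pos h]
  have : 0 ≤ θ * (ch C C' : ℝ) := by positivity
  linarith

theorem uw_le_pow {dj : H → H → Prop} {ch : H → H → ℕ} {θ : ℝ} (hθ : 0 ≤ θ) (C C' : H) :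
    uw dj ch θ C C' ≤ (1 + θ) ^ ch C C' := by
  unfold uw
  split_ifs
  · have := one_add_mul_le_pow (show (-2 : ℝ) ≤ θ by linarith) (ch C C')
    linarith [mul_comm θ (ch C C' : ℝ)]
  · positivity

theorem pairwise_cons (dj : H → H → Prop) (hdj : ∀ C C', dj C C' → dj C' C) {j : ℕ}
    (F : Fin j → H) (hF : ∀ i k, i ≠ k → dj (F i) (F k)) (C : H) (hC : ∀ i, dj (F i) C) :
    ∀ i k, i ≠ k → dj ((Fin.cons C F : Fin (j + 1) → H) i) ((Fin.cons C F : Fin (j + 1) → H) k) := by
  intro i k hik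
  induction i using Fin.cases with
  | zero =>
    induction k using Fin.cases with
    | zero => exact absurd rfl hik
    | succ k => simpa using hdj _ _ (hC k)
  | succ i =>
    induction k using Fin.cases with
    | zero => simpa using hC i
    | succ k => simpa using hF i k (fun e => hik (by rw [e]))

/-- A greedy family. -/
theorem exists_family (dj : H → H → Prop) (hdj : ∀ C C', dj C C' → dj C' C)
    (n : ℕ) (h : ∀ j ≤ n, ∀ F : Fin j → H, (∀ i k, i ≠ k → dj (F i) (F k)) →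
      ∃ C, ∀ i, dj (F i) C) :
    ∀ j ≤ n + 1, ∃ F : Fin j → H, ∀ i k, i ≠ k → dj (F i) (F k) := by
  intro j
  induction j with
  | zero => intro _; exact ⟨fun i => i.elim0, fun i => i.elim0⟩
  | succ j ih =>
    intro hj
    obtain ⟨F, hF⟩ := ih (by omega)
    obtain ⟨C, hC⟩ := h j (by omega) F hF
    exact ⟨Fin.cons C F, pairwise_cons dj hdj F hF C hC⟩

theorem sum_card_Ioi (m : ℕ) : 2 * ∑ i : Fin m, ((Ioi i).card : ℝ) = m * (m - 1) := by
  have h : ∑ i : Fin m, (Ioi i).card = ∑ i ∈ range m, i := by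
    rw [← sum_range_reflect, ← Fin.sum_univ_eq_sum_range (fun j => m - 1 - j) m]
    exact sum_congr rfl fun i _ => by simp
  have h2 := Finset.sum_range_id_mul_two m
  rcases Nat.eq_zero_or_pos m with h0 | h0
  · subst h0; simp
  · rw [← Nat.cast_sum, h]
    have : ((∑ i ∈ range m, i : ℕ) : ℝ) * 2 = m * (m - 1) := by
      rw [← Nat.cast_two, ← Nat.cast_mul, h2, Nat.cast_mul, Nat.cast_sub h0]; simp
    linarith

theorem sw_le_pow {dj : H → H → Prop} {ch : H → H → ℕ} {θ : ℝ} (hθ : 0 ≤ θ) {n : ℕ}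
    (F : Fin n → H) (C : H) : sw (uw dj ch θ) F C ≤ (1 + θ) ^ (∑ j, ch (F j) C) := by
  unfold sw
  rw [← prod_pow_eq_pow_sum]
  exact prod_le_prod (fun _ _ => uw_nonneg hθ _ _) (fun _ _ => uw_le_pow hθ _ _)

theorem one_le_sw {dj : H → H → Prop} {ch : H → H → ℕ} {θ : ℝ} (hθ : 0 ≤ θ) {n : ℕ}
    (F : Fin n → H) (C : H) (h : ∀ i, dj (F i) C) : 1 ≤ sw (uw dj ch θ) F C := by
  unfold sw
  calc (1 : ℝ) = ∏ _i : Fin n, (1 : ℝ) := by simp
    _ ≤ _ := prod_le_prod (fun _ _ => zero_le_one) (fun i _ => one_le_uw hθ (h i))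

/-- If the weight of a tuple is not zero then its members are pairwise `dj`. -/
theorem dj_of_wt_ne_zero {dj : H → H → Prop} (hdj : ∀ C C', dj C C' → dj C' C)
    {ch : H → H → ℕ} {θ : ℝ} {n : ℕ} (F : Fin n → H) (h : wt (uw dj ch θ) F ≠ 0) (i j : Fin n)
    (hij : i ≠ j) : dj (F i) (F j) := by
  have key : ∀ i j, i < j → dj (F i) (F j) := by
    intro i j hij
    by_contra hc
    apply h
    unfold wt
    refine prod_eq_zero (mem_univ i) (prod_eq_zero (mem_Ioi.2 hij) ?_)
    unfold uw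
    rw [if_neg hc]
  rcases lt_or_gt_of_ne hij with h1 | h1
  · exact key i j h1
  · exact hdj _ _ (key j i h1)

open Classical in
/-- **One step**: the inequality for a fixed tuple of the other members. -/
theorem tilt_step [Fintype H] (dj : H → H → Prop) (hdj : ∀ C C', dj C C' → dj C' C)
    (ch : H → H → ℕ)
    (l : ℕ) (hl : ∀ C C', dj C C' → ch C C' ≤ l) (n : ℕ)
    (θ a lam ρ κ : ℝ) (k0 : ℕ) (hθ : 0 ≤ θ) (ha : 0 < a) (hρ0 : 0 ≤ ρ)
    (hκ0 : 0 ≤ κ)
    (hlam : 4 * lam ^ 2 * (1 + θ * l) ≤ a ^ 2)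
    (hρ : (1 + θ) ^ k0 ≤ ρ * lam) (hθκ : θ * κ ≤ 1)
    (hcount : ∀ j ≤ n + 1, ∀ F : Fin j → H, (∀ i k, i ≠ k → dj (F i) (F k)) →
      a ≤ ((univ.filter fun C => ∀ i, dj (F i) C).card : ℝ))
    (R : H → H → Prop) (hRdj : ∀ C C', R C C' → ∀ X, dj X C ↔ dj X C')
    (hRch : ∀ C C', R C C' → ∀ X, ch X C = ch X C')
    (hE : ∀ s : H → ℝ, (∀ C, 0 ≤ s C) → (∀ C C', R C C' → s C = s C') →
      (∀ C, s C ≤ ρ * ∑ C', s C') →
      κ * (∑ C, s C) ^ 2 ≤ ∑ C, ∑ C', if dj C C' then s C * s C' * ch C C' else 0)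
    (F : Fin n → H) (hF : ∀ i k, i ≠ k → dj (F i) (F k)) :
    θ * κ / 2 * (∑ C, ∑ C', (if (∑ j, ch (F j) C) ≤ k0 ∧ (∑ j, ch (F j) C') ≤ k0 then
        sw (uw dj ch θ) F C * sw (uw dj ch θ) F C' * uw dj ch θ C C' else 0))
      ≤ θ * κ / 8 * (∑ C, ∑ C', sw (uw dj ch θ) F C * sw (uw dj ch θ) F C' * uw dj ch θ C C')
        + ∑ C, ∑ C', sw (uw dj ch θ) F C * sw (uw dj ch θ) F C' * uw dj ch θ C C' * ch C C' := by
  set u := uw dj ch θ with hu
  have hu0 : ∀ C C', 0 ≤ u C C' := uw_nonneg hθ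
  set s := sw u F with hs
  have hs0 : ∀ C, 0 ≤ s C := sw_nonneg u hu0 F
  set t : H → ℝ := fun C => if (∑ j, ch (F j) C) ≤ k0 then s C else 0 with ht
  have ht0 : ∀ C, 0 ≤ t C := fun C => by simp only [ht]; split_ifs; exacts [hs0 C, le_refl _]
  have hts : ∀ C, t C ≤ s C := fun C => by simp only [ht]; split_ifs; exacts [le_refl _, hs0 C]
  set W := ∑ C, t C with hW
  have hW0 : 0 ≤ W := sum_nonneg fun C _ => ht0 C
  have hP : (∑ C, ∑ C', (if (∑ j, ch (F j) C) ≤ k0 ∧ (∑ j, ch (F j) C') ≤ k0 then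
        s C * s C' * u C C' else 0)) = ∑ C, ∑ C', t C * t C' * u C C' := by
    refine sum_congr rfl fun C _ => sum_congr rfl fun C' _ => ?_
    simp only [ht]
    by_cases h1 : (∑ j, ch (F j) C) ≤ k0 <;> by_cases h2 : (∑ j, ch (F j) C') ≤ k0 <;> simp [h1, h2]
  rw [hP]
  set P := ∑ C, ∑ C', t C * t C' * u C C' with hPd
  set A := ∑ C, ∑ C', s C * s C' * u C C' with hA
  set X := ∑ C, ∑ C', s C * s C' * u C C' * (ch C C' : ℝ) with hX
  set Y := ∑ C, ∑ C', (if dj C C' then t C * t C' * (ch C C' : ℝ) else 0) with hY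
  have hX0 : 0 ≤ X := sum_nonneg fun C _ => sum_nonneg fun C' _ => by
    have := hs0 C; have := hs0 C'; have := hu0 C C'; positivity
  -- P ≤ W² + θ Y
  have hPW : P ≤ W ^ 2 + θ * Y := by
    have e : W ^ 2 + θ * Y
        = ∑ C, ∑ C', (t C * t C' + θ * (if dj C C' then t C * t C' * (ch C C' : ℝ) else 0)) := by
      simp only [sum_add_distrib, ← mul_sum]
      rw [← hY]
      congr 1
      rw [sq, hW, sum_mul]
    rw [e]
    refine sum_le_sum fun C _ => sum_le_sum fun C' _ => ?_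
    have h1 := mul_nonneg (ht0 C) (ht0 C')
    rw [hu]; unfold uw
    split_ifs
    · nlinarith
    · simpa using h1
  -- θ Y ≤ X
  have hYX : θ * Y ≤ X := by
    rw [hY, hX, mul_sum]
    refine sum_le_sum fun C _ => ?_
    rw [mul_sum]
    refine sum_le_sum fun C' _ => ?_
    have h1 : t C * t C' ≤ s C * s C' := mul_le_mul (hts C) (hts C') (ht0 C') (hs0 C)
    have h2 := mul_nonneg (ht0 C) (ht0 C')
    rw [hu]; unfold uw
    split_ifs
    · rcases Nat.eq_zero_or_pos (ch C C') with h0 | h0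
      · simp [h0]
      · have h3 : (1 : ℝ) ≤ ch C C' := by exact_mod_cast h0
        have h4 : θ * (ch C C' : ℝ) ≤ (1 + θ * (ch C C' : ℝ)) * (ch C C' : ℝ) := by
          nlinarith [mul_nonneg hθ (by positivity : (0 : ℝ) ≤ (ch C C' : ℝ))]
        calc θ * (t C * t C' * (ch C C' : ℝ)) = (t C * t C') * (θ * (ch C C' : ℝ)) := by ring
          _ ≤ (s C * s C') * ((1 + θ * (ch C C' : ℝ)) * (ch C C' : ℝ)) :=
            mul_le_mul h1 h4 (by positivity) (by have := hs0 C; have := hs0 C'; positivity)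
          _ = _ := by ring
    · simp
  have hθκ0 : 0 ≤ θ * κ := mul_nonneg hθ hκ0
  rcases lt_or_ge W lam with hlt | hge
  · -- small W
    have hPa : P ≤ W ^ 2 * (1 + θ * l) := by
      have e : W ^ 2 * (1 + θ * l) = ∑ C, ∑ C', t C * t C' * (1 + θ * l) := by
        rw [sq, hW, sum_mul, sum_mul]
        refine sum_congr rfl fun C _ => ?_
        rw [mul_sum, sum_mul]
      rw [e]
      refine sum_le_sum fun C _ => sum_le_sum fun C' _ => ?_
      have h1 := mul_nonneg (ht0 C) (ht0 C')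
      refine mul_le_mul_of_nonneg_left ?_ h1
      rw [hu]; unfold uw
      split_ifs with h
      · have : (ch C C' : ℝ) ≤ l := by exact_mod_cast hl C C' h
        nlinarith
      · positivity
    have hAa : a ^ 2 ≤ A := by
      set G := univ.filter (fun C => ∀ i, dj (F i) C) with hG
      have h1 : ∀ C ∈ G, a ≤ ∑ C', s C * s C' * u C C' := by
        intro C hC
        have hC' : ∀ i, dj (F i) C := (mem_filter.1 hC).2
        have h2 := hcount (n + 1) le_rfl (Fin.cons C F) (pairwise_cons dj hdj F hF C hC')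
        refine h2.trans ?_
        set G' := univ.filter (fun C' => ∀ i, dj ((Fin.cons C F : Fin (n + 1) → H) i) C') with hG'
        calc ((G'.card : ℕ) : ℝ) = ∑ _C' ∈ G', (1 : ℝ) := by simp
          _ ≤ ∑ C' ∈ G', s C * s C' * u C C' := by
            refine sum_le_sum fun C' hC2 => ?_
            have h3 : ∀ i, dj ((Fin.cons C F : Fin (n + 1) → H) i) C' := (mem_filter.1 hC2).2
            have h4 : dj C C' := by simpa using h3 0
            have h5 : ∀ i, dj (F i) C' := fun i => by simpa using h3 i.succ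
            have h6 : 1 ≤ s C := one_le_sw hθ F C hC'
            have h7 : 1 ≤ s C' := one_le_sw hθ F C' h5
            have h8 : 1 ≤ u C C' := one_le_uw hθ h4
            have h9 : 1 ≤ s C * s C' := by nlinarith
            nlinarith
          _ ≤ ∑ C', s C * s C' * u C C' :=
            sum_le_sum_of_subset_of_nonneg (subset_univ _) fun C' _ _ => by
              have := hs0 C; have := hs0 C'; have := hu0 C C'; positivity
      have h2 : a ≤ (G.card : ℝ) := hcount n (by omega) F hF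
      calc a ^ 2 ≤ (G.card : ℝ) * a := by nlinarith
        _ = ∑ _C ∈ G, a := by simp
        _ ≤ ∑ C ∈ G, ∑ C', s C * s C' * u C C' := sum_le_sum h1
        _ ≤ A := sum_le_sum_of_subset_of_nonneg (subset_univ _) fun C _ _ =>
            sum_nonneg fun C' _ => by
              have := hs0 C; have := hs0 C'; have := hu0 C C'; positivity
    have h3 : W ^ 2 * (1 + θ * l) ≤ lam ^ 2 * (1 + θ * l) := by
      refine mul_le_mul_of_nonneg_right ?_ (by positivity)
      nlinarith
    have h4 : P ≤ A / 4 := by nlinarith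
    nlinarith
  · -- large W
    have h1 : κ * W ^ 2 ≤ Y := by
      refine hE t ht0 ?_ ?_
      · intro C C' h
        have e1 : s C = s C' := by
          rw [hs]; unfold sw
          refine prod_congr rfl fun i _ => ?_
          rw [hu]; unfold uw
          rw [hRch C C' h (F i)]
          simp only [hRdj C C' h (F i)]
        have e2 : ∑ j, ch (F j) C = ∑ j, ch (F j) C' :=
          sum_congr rfl fun j _ => hRch C C' h (F j)
        simp only [ht]
        rw [e1, e2]
      · intro C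
        have h2 : t C ≤ (1 + θ) ^ k0 := by
          simp only [ht]
          split_ifs with h
          · exact (sw_le_pow hθ F C).trans (pow_le_pow_right₀ (by linarith) h)
          · positivity
        calc t C ≤ (1 + θ) ^ k0 := h2
          _ ≤ ρ * lam := hρ
          _ ≤ ρ * W := mul_le_mul_of_nonneg_left hge hρ0
    have h2 : θ * κ / 2 * P ≤ θ * κ / 2 * (W ^ 2 + θ * Y) :=
      mul_le_mul_of_nonneg_left hPW (by positivity)
    have hY0 : 0 ≤ Y := le_trans (by positivity) h1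
    have h3 : θ * κ / 2 * (W ^ 2 + θ * Y) ≤ θ * Y := by
      have h4 : θ * (κ * W ^ 2) ≤ θ * Y := mul_le_mul_of_nonneg_left h1 hθ
      have h5 : (θ * κ) * (θ * Y) ≤ 1 * (θ * Y) :=
        mul_le_mul_of_nonneg_right hθκ (by positivity)
      nlinarith
    have hA0 : 0 ≤ A := sum_nonneg fun C _ => sum_nonneg fun C' _ => by
      have := hs0 C; have := hs0 C'; have := hu0 C C'; positivity
    have h6 : 0 ≤ θ * κ / 8 * A := by positivity
    linarith

open Classical in
/-- **The tilted ensemble**, with `n + 2` members and a symmetric contact count. -/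
theorem tilt_aux [Fintype H] (dj : H → H → Prop) (hdj : ∀ C C', dj C C' → dj C' C)
    (ch : H → H → ℕ) (hch : ∀ C C', ch C C' = ch C' C)
    (l : ℕ) (hl : ∀ C C', dj C C' → ch C C' ≤ l) (n : ℕ)
    (θ Δ a lam ρ κ : ℝ) (k0 : ℕ) (hθ : 0 ≤ θ) (ha : 0 < a) (hρ0 : 0 ≤ ρ)
    (hκ0 : 0 ≤ κ)
    (hk0 : 8 * Δ ≤ k0 + 1)
    (hlam : 4 * lam ^ 2 * (1 + θ * l) ≤ a ^ 2)
    (hρ : (1 + θ) ^ k0 ≤ ρ * lam) (hθκ : θ * κ ≤ 1)
    (hcount : ∀ j ≤ n + 1, ∀ F : Fin j → H, (∀ i k, i ≠ k → dj (F i) (F k)) →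
      a ≤ ((univ.filter fun C => ∀ i, dj (F i) C).card : ℝ))
    (hno : ∀ F : Fin (n + 2) → H, (∀ i j, i ≠ j → dj (F i) (F j)) →
      (∑ i, ∑ j ∈ Ioi i, (ch (F i) (F j) : ℝ)) ≤ Δ * (n + 2))
    (R : H → H → Prop) (hRdj : ∀ C C', R C C' → ∀ X, dj X C ↔ dj X C')
    (hRch : ∀ C C', R C C' → ∀ X, ch X C = ch X C')
    (hE : ∀ s : H → ℝ, (∀ C, 0 ≤ s C) → (∀ C C', R C C' → s C = s C') →
      (∀ C, s C ≤ ρ * ∑ C', s C') →
      κ * (∑ C, s C) ^ 2 ≤ ∑ C, ∑ C', if dj C C' then s C * s C' * ch C C' else 0) :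
    θ * κ / 8 * (n + 1) ≤ 2 * Δ := by
  set u := uw dj ch θ with hu
  have hu0 : ∀ C C', 0 ≤ u C C' := uw_nonneg hθ
  have hus : ∀ C C', u C C' = u C' C := uw_symm hdj hch
  set Z := ∑ F : Fin (n + 2) → H, wt u F with hZ
  set Q := ∑ F : Fin (n + 2) → H, wt u F * (ch (F 0) (F 1) : ℝ) with hQ
  have hw0 : ∀ {k : ℕ} (F : Fin k → H), 0 ≤ wt u F := fun F => wt_nonneg u hu0 F
  -- (U)
  have hU : (n + 1) * Q ≤ 2 * Δ * Z := by
    have h1 : ∑ F : Fin (n + 2) → H, wt u F * (∑ i, ∑ j ∈ Ioi i, (ch (F i) (F j) : ℝ))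
        ≤ Δ * (n + 2) * Z := by
      rw [hZ, mul_sum]
      refine sum_le_sum fun F _ => ?_
      rcases eq_or_ne (wt u F) 0 with h0 | h0
      · rw [h0]; simp
      · rw [mul_comm (Δ * ((n : ℝ) + 2))]
        exact mul_le_mul_of_nonneg_left (hno F (dj_of_wt_ne_zero hdj F h0)) (hw0 F)
    have h2 : ∑ F : Fin (n + 2) → H, wt u F * (∑ i, ∑ j ∈ Ioi i, (ch (F i) (F j) : ℝ))
        = ∑ i : Fin (n + 2), ∑ _j ∈ Ioi i, Q := by
      simp only [mul_sum]
      rw [sum_comm]
      refine sum_congr rfl fun i _ => ?_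
      rw [sum_comm]
      refine sum_congr rfl fun j hj => ?_
      exact exch u hus (fun x y => (ch x y : ℝ)) i j (ne_of_lt (mem_Ioi.1 hj))
    have h3 : ∑ i : Fin (n + 2), ∑ _j ∈ Ioi i, Q = (n + 2) * (n + 1) / 2 * Q := by
      have h4 := sum_card_Ioi (n + 2)
      push_cast at h4
      simp only [sum_const, nsmul_eq_mul]
      rw [← sum_mul]
      have : ∑ i : Fin (n + 2), ((Ioi i).card : ℝ) = (n + 2) * (n + 1) / 2 := by linarith
      rw [this]
    rw [h2, h3] at h1
    have h5 : (0 : ℝ) < (n : ℝ) + 2 := by positivity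
    have h6 : ((n : ℝ) + 2) * ((n + 1) * Q) ≤ ((n : ℝ) + 2) * (2 * Δ * Z) := by nlinarith
    exact le_of_mul_le_mul_left h6 h5
  -- Z > 0
  have hZ0 : 0 < Z := by
    obtain ⟨F, hF⟩ := exists_family dj hdj (n + 1) (fun j hj F hF => by
      have h1 := hcount j hj F hF
      have h2 : 0 < (univ.filter fun C => ∀ i, dj (F i) C).card := by
        have : (0 : ℝ) < ((univ.filter fun C => ∀ i, dj (F i) C).card : ℝ) := lt_of_lt_of_le ha h1
        exact_mod_cast this
      obtain ⟨C, hC⟩ := card_pos.1 h2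
      exact ⟨C, (mem_filter.1 hC).2⟩) (n + 2) le_rfl
    have h1 : 1 ≤ wt u F := by
      unfold wt
      calc (1 : ℝ) = ∏ i : Fin (n + 2), ∏ _j ∈ Ioi i, (1 : ℝ) := by simp
        _ ≤ _ := prod_le_prod (fun _ _ => prod_nonneg fun _ _ => zero_le_one)
            (fun i _ => prod_le_prod (fun _ _ => zero_le_one)
              (fun j hj => one_le_uw hθ (hF i j (ne_of_lt (mem_Ioi.1 hj)))))
    calc (0 : ℝ) < 1 := one_pos
      _ ≤ wt u F := h1
      _ ≤ Z := single_le_sum (fun F _ => hw0 F) (mem_univ F)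
  have hQ0 : 0 ≤ Q := sum_nonneg fun F _ => mul_nonneg (hw0 F) (Nat.cast_nonneg _)
  -- Markov
  set TT : (Fin (n + 2) → H) → Prop := fun F =>
    (∑ j : Fin n, ch (F j.succ.succ) (F 0)) ≤ k0 ∧ (∑ j : Fin n, ch (F j.succ.succ) (F 1)) ≤ k0
    with hTT
  have hM : Z / 2 ≤ ∑ F : Fin (n + 2) → H, (if TT F then wt u F else 0) := by
    have hk : (0 : ℝ) < (k0 : ℝ) + 1 := by positivity
    have h1 : Z * (k0 + 1) ≤ (∑ F : Fin (n + 2) → H, (if TT F then wt u F else 0)) * (k0 + 1)
        + 2 * n * Q := by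
      have e0 : ∑ F : Fin (n + 2) → H, wt u F * (∑ j : Fin n, (ch (F j.succ.succ) (F 0) : ℝ))
          = n * Q := by
        simp only [mul_sum]
        rw [sum_comm]
        rw [sum_congr rfl (fun j _ => exch u hus (fun x y => (ch x y : ℝ)) j.succ.succ 0
          (Fin.succ_ne_zero _))]
        simp [hQ]
      have e1 : ∑ F : Fin (n + 2) → H, wt u F * (∑ j : Fin n, (ch (F j.succ.succ) (F 1) : ℝ))
          = n * Q := by
        simp only [mul_sum]
        rw [sum_comm]
        rw [sum_congr rfl (fun j _ => exch u hus (fun x y => (ch x y : ℝ)) j.succ.succ 1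
          (by
            intro h
            rw [← Fin.succ_zero_eq_one] at h
            exact Fin.succ_ne_zero _ (Fin.succ_injective _ h)))]
        simp [hQ]
      have e2 : 2 * n * Q = ∑ F : Fin (n + 2) → H,
          wt u F * ((∑ j : Fin n, (ch (F j.succ.succ) (F 0) : ℝ))
            + (∑ j : Fin n, (ch (F j.succ.succ) (F 1) : ℝ))) := by
        simp only [mul_add, sum_add_distrib]
        rw [e0, e1]; ring
      rw [e2, hZ, sum_mul, sum_mul, ← sum_add_distrib]
      refine sum_le_sum fun F _ => ?_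
      by_cases h : TT F
      · rw [if_pos h]
        have : 0 ≤ wt u F * ((∑ j : Fin n, (ch (F j.succ.succ) (F 0) : ℝ))
            + (∑ j : Fin n, (ch (F j.succ.succ) (F 1) : ℝ))) :=
          mul_nonneg (hw0 F) (by positivity)
        linarith
      · rw [if_neg h, zero_mul, zero_add]
        refine mul_le_mul_of_nonneg_left ?_ (hw0 F)
        have h2 : k0 + 1 ≤ (∑ j : Fin n, ch (F j.succ.succ) (F 0))
            + (∑ j : Fin n, ch (F j.succ.succ) (F 1)) := by
          simp only [hTT] at h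
          omega
        exact_mod_cast h2
    have h2 : 2 * n * Q ≤ (k0 + 1) * (Z / 2) := by
      have h3 : (n : ℝ) * Q ≤ (n + 1) * Q := by nlinarith
      have h4 : 2 * ((n : ℝ) * Q) ≤ 4 * Δ * Z := by linarith
      have h5 : 4 * Δ * Z ≤ (k0 + 1) / 2 * Z :=
        mul_le_mul_of_nonneg_right (by linarith) hZ0.le
      linarith
    have h3 : (Z / 2) * (k0 + 1) ≤
        (∑ F : Fin (n + 2) → H, (if TT F then wt u F else 0)) * (k0 + 1) := by linarith
    exact le_of_mul_le_mul_right h3 hk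
  -- summation of the step
  have hdec1 : ∑ F : Fin (n + 2) → H, (if TT F then wt u F else 0)
      = ∑ F : Fin n → H, wt u F * (∑ C, ∑ C', (if (∑ j, ch (F j) C) ≤ k0 ∧
          (∑ j, ch (F j) C') ≤ k0 then sw u F C * sw u F C' * u C C' else 0)) := by
    rw [sum_tuple_split]
    refine sum_congr rfl fun F _ => ?_
    rw [mul_sum]
    refine sum_congr rfl fun C _ => ?_
    rw [mul_sum]
    refine sum_congr rfl fun C' _ => ?_
    rw [wt_cons_cons u hus, mul_ite, mul_zero]
    rfl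
  have hdec2 : Z = ∑ F : Fin n → H, wt u F *
      (∑ C, ∑ C', sw u F C * sw u F C' * u C C') := by
    rw [hZ, sum_tuple_split]
    refine sum_congr rfl fun F _ => ?_
    rw [mul_sum]
    refine sum_congr rfl fun C _ => ?_
    rw [mul_sum]
    refine sum_congr rfl fun C' _ => ?_
    rw [wt_cons_cons u hus]
  have hdec3 : Q = ∑ F : Fin n → H, wt u F *
      (∑ C, ∑ C', sw u F C * sw u F C' * u C C' * ch C C') := by
    rw [hQ, sum_tuple_split]
    refine sum_congr rfl fun F _ => ?_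
    rw [mul_sum]
    refine sum_congr rfl fun C _ => ?_
    rw [mul_sum]
    refine sum_congr rfl fun C' _ => ?_
    rw [wt_cons_cons u hus]
    change wt u F * (sw u F C * sw u F C' * u C C') * (ch C C' : ℝ) = _
    ring
  have hsum : θ * κ / 2 * (∑ F : Fin (n + 2) → H, (if TT F then wt u F else 0))
      ≤ θ * κ / 8 * Z + Q := by
    rw [hdec1, hdec2, hdec3, mul_sum, mul_sum, ← sum_add_distrib]
    refine sum_le_sum fun F _ => ?_
    rcases eq_or_ne (wt u F) 0 with h0 | h0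
    · rw [h0]; simp
    · have := tilt_step dj hdj ch l hl n θ a lam ρ κ k0 hθ ha hρ0 hκ0 hlam hρ hθκ hcount R hRdj
        hRch hE F (dj_of_wt_ne_zero hdj F h0)
      have h1 := mul_le_mul_of_nonneg_left this (hw0 F)
      linarith
  have hfin : θ * κ / 8 * Z ≤ Q := by
    have h1 : θ * κ / 2 * (Z / 2) ≤
        θ * κ / 2 * (∑ F : Fin (n + 2) → H, (if TT F then wt u F else 0)) :=
      mul_le_mul_of_nonneg_left hM (by positivity)
    linarith
  have h7 : (θ * κ / 8 * (n + 1)) * Z ≤ (2 * Δ) * Z := by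
    have h8 : (n + 1) * (θ * κ / 8 * Z) ≤ (n + 1) * Q :=
      mul_le_mul_of_nonneg_left hfin (by positivity)
    linarith
  exact le_of_mul_le_mul_right h7 hZ0

end Main

end TiltAux

/-- Section 5 of the page, abstract form. `H` is the set of short cycles, `dj` = disjoint,
`ch` = number of edges between two cycles, `rel` = equal up to rotation and reversal. -/
theorem tilt {H : Type} [Fintype H] [DecidableEq H] (dj : H → H → Prop) [DecidableRel dj]
    (ch : H → H → ℕ) (rel : H → H → Prop)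
    (djs : ∀ A B, dj A B → dj B A) (chs : ∀ A B, dj A B → ch A B = ch B A)
    (rdj : ∀ A B X, rel A B → (dj X A ↔ dj X B))
    (rch : ∀ A B X, rel A B → dj X A → ch X A = ch X B)
    (m l : ℕ) (hm : 2 ≤ m) (a θ ρ cs Δ : ℝ) (ha : 0 < a) (hθ : 0 < θ) (hρ : 0 < ρ)
    (hcs : 0 < cs) (hΔ : 0 < Δ)
    (hch : ∀ A B, dj A B → ch A B ≤ l)
    (hA : ∀ F : List H, F.length < m → F.Pairwise dj →
      a ≤ ((univ.filter fun C => ∀ X ∈ F, dj X C).card : ℝ))
    (hD : ∀ F : Fin m → H, (∀ i j, i ≠ j → dj (F i) (F j)) →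
      (∑ i, ∑ j ∈ Finset.univ.filter (fun j => i < j), (ch (F i) (F j) : ℝ)) ≤ Δ * m)
    (hE : ∀ s : H → ℝ, (∀ C, 0 ≤ s C) → (∀ A B, rel A B → s A = s B) →
      (∀ C, s C ≤ ρ * ∑ B, s B) →
      cs * (∑ C, s C) ^ 2 ≤ ∑ A, ∑ B, s A * s B * (if dj A B then (ch A B : ℝ) else 0))
    (h1 : θ * cs ≤ 1)
    (h2 : (1 + θ) ^ (8 * Δ) * (2 * √(1 + θ * l)) ≤ ρ * a) :
    θ * cs / 8 * (m - 1) ≤ 2 * Δ := by
  obtain ⟨n, rfl⟩ : ∃ n, m = n + 2 := ⟨m - 2, by omega⟩
  have hθl : (0 : ℝ) < 1 + θ * l := by positivity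
  have hsq : 0 < √(1 + θ * (l : ℝ)) := Real.sqrt_pos.2 hθl
  have hsq2 : √(1 + θ * (l : ℝ)) ^ 2 = 1 + θ * l := Real.sq_sqrt hθl.le
  set ch' : H → H → ℕ := fun A B => if dj A B then ch A B else 0 with hch'
  have key := TiltAux.tilt_aux dj djs ch' (by
      intro A B
      simp only [hch']
      by_cases h : dj A B
      · rw [if_pos h, if_pos (djs _ _ h), chs A B h]
      · rw [if_neg h, if_neg (fun h' => h (djs _ _ h'))])
    l (by
      intro A B h
      simp only [hch', if_pos h]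
      exact hch A B h)
    n θ Δ a (a / (2 * √(1 + θ * l))) ρ cs ⌊8 * Δ⌋₊ hθ.le ha hρ.le hcs.le
    (Nat.lt_floor_add_one _).le
    (by
      rw [div_pow, mul_pow, hsq2]
      apply le_of_eq
      field_simp
      ring)
    (by
      rw [← mul_div_assoc, le_div_iff₀ (by positivity)]
      refine le_trans (mul_le_mul_of_nonneg_right ?_ (by positivity)) h2
      rw [← Real.rpow_natCast]
      exact Real.rpow_le_rpow_of_exponent_le (by linarith) (Nat.floor_le (by positivity)))
    h1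
    (by
      intro j hj F hF
      have := hA (List.ofFn F) (by rw [List.length_ofFn]; omega)
        (List.pairwise_ofFn.2 fun i k hik => hF i k (ne_of_lt hik))
      refine this.trans (le_of_eq ?_)
      congr 2
      ext C
      simp)
    (by
      intro F hF
      have := hD F hF
      push_cast at this
      refine le_trans (le_of_eq ?_) this
      refine sum_congr rfl fun i _ => ?_
      rw [Finset.filter_lt_eq_Ioi]
      refine sum_congr rfl fun j hj => ?_
      simp only [hch', if_pos (hF i j (ne_of_lt (mem_Ioi.1 hj)))])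
    rel (fun A B h X => rdj A B X h)
    (by
      intro A B h X
      simp only [hch']
      by_cases h3 : dj X A
      · rw [if_pos h3, if_pos ((rdj A B X h).1 h3), rch A B X h h3]
      · rw [if_neg h3, if_neg (fun h4 => h3 ((rdj A B X h).2 h4))])
    (by
      intro s hs hsr hsρ
      refine (hE s hs hsr hsρ).trans (le_of_eq ?_)
      refine sum_congr rfl fun A _ => sum_congr rfl fun B _ => ?_
      simp only [hch']
      split_ifs <;> simp)
  push_cast
  linarith

end Pool.Agent.CP51
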